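import Pool.Agent.Lib.SU2H.Defs

/-! # The moving frame in a differential ring -/

noncomputable section

namespace Pool.Agent.SU2H

namespace Core

variable {R : Type} [CommRing R] [Algebra ℝ R]

/-- dot product -/
def dot (a b : Fin 3 → R) : R := a 0 * b 0 + a 1 * b 1 + a 2 * b 2

/-- weighted dot product -/
def cdot (c : Fin 3 → ℝ) (a b : Fin 3 → R) : R :=
  algebraMap ℝ R (c 0) * (a 0 * b 0) + algebraMap ℝ R (c 1) * (a 1 * b 1)
    + algebraMap ℝ R (c 2) * (a 2 * b 2)

/-- orthonormal, positively oriented frame -/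
structure Orth (e1 e2 n : Fin 3 → R) : Prop where
  o11 : dot e1 e1 = 1
  o22 : dot e2 e2 = 1
  o33 : dot n n = 1
  o12 : dot e1 e2 = 0
  o13 : dot e1 n = 0
  o23 : dot e2 n = 0

theorem dot_comm' (a b : Fin 3 → R) : dot a b = dot b a := by simp only [dot]; ring

theorem cdot_comm (c : Fin 3 → ℝ) (a b : Fin 3 → R) : cdot c a b = cdot c b a := by
  simp only [cdot]; ring

theorem D_dot (D : Derivation ℝ R R) (a b : Fin 3 → R) :
    D (dot a b) = dot (fun i => D (a i)) b + dot a (fun i => D (b i)) := by
  simp only [dot, map_add, Derivation.leibniz, smul_eq_mul]; ring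

theorem D_cdot (D : Derivation ℝ R R) (c : Fin 3 → ℝ) (a b : Fin 3 → R) :
    D (cdot c a b) = cdot c (fun i => D (a i)) b + cdot c a (fun i => D (b i)) := by
  simp only [cdot, map_add, Derivation.leibniz, smul_eq_mul, Derivation.map_algebraMap]; ring

theorem expand {e1 e2 n : Fin 3 → R} (h : Orth e1 e2 n) (w : Fin 3 → R) (i : Fin 3) :
    w i = dot w e1 * e1 i + dot w e2 * e2 i + dot w n * n i := by
  have hO : (Matrix.of ![e1, e2, n]) * (Matrix.of ![e1, e2, n]).transpose = 1 := by
    have h11 := h.o11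
    have h22 := h.o22
    have h33 := h.o33
    have h12 := h.o12
    have h13 := h.o13
    have h23 := h.o23
    simp only [dot] at h11 h22 h33 h12 h13 h23
    ext i j
    fin_cases i <;> fin_cases j <;>
      simp [Matrix.mul_apply, Fin.sum_univ_three]
    · exact h11
    · exact h12
    · exact h13
    · linear_combination h12
    · exact h22
    · exact h23
    · linear_combination h13
    · linear_combination h23
    · exact h33
  have hO' := mul_eq_one_comm.mp hO
  have hc : ∀ i j : Fin 3, e1 i * e1 j + e2 i * e2 j + n i * n j = if i = j then 1 else 0 := by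
    intro i j
    have h := congrFun (congrFun hO' i) j
    simpa [Matrix.mul_apply, Fin.sum_univ_three, Matrix.one_apply] using h
  have h0 := hc 0 i
  have h1 := hc 1 i
  have h2 := hc 2 i
  have key : dot w e1 * e1 i + dot w e2 * e2 i + dot w n * n i =
      w 0 * (e1 0 * e1 i + e2 0 * e2 i + n 0 * n i) + w 1 * (e1 1 * e1 i + e2 1 * e2 i + n 1 * n i)
      + w 2 * (e1 2 * e1 i + e2 2 * e2 i + n 2 * n i) := by
    simp only [dot]; ring
  rw [key, h0, h1, h2]
  fin_cases i <;> simp

theorem half {x : R} (h : x + x = 0) : x = 0 := by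
  have h1 : (2 : ℝ) • x = 0 := by rw [two_smul]; exact h
  have h2 : ((1 / 2 : ℝ) * 2) • x = 0 := by rw [mul_smul, h1, smul_zero]
  simpa using h2

section one

variable {e1 e2 n : Fin 3 → R} (h : Orth e1 e2 n) (D : Derivation ℝ R R)
include h

theorem D_e1 (i : Fin 3) : D (e1 i) =
    dot (fun i => D (e1 i)) e2 * e2 i + dot (fun i => D (e1 i)) n * n i := by
  have h1 : dot (fun i => D (e1 i)) e1 = 0 := by
    apply half
    have := D_dot D e1 e1
    rw [h.o11, Derivation.map_one_eq_zero, dot_comm' e1] at this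
    exact this.symm
  have := expand h (fun i => D (e1 i)) i
  rw [h1] at this
  simpa using this

theorem D_e2 (i : Fin 3) : D (e2 i) =
    -dot (fun i => D (e1 i)) e2 * e1 i + dot (fun i => D (e2 i)) n * n i := by
  have h1 : dot (fun i => D (e2 i)) e2 = 0 := by
    apply half
    have := D_dot D e2 e2
    rw [h.o22, Derivation.map_one_eq_zero, dot_comm' e2] at this
    exact this.symm
  have h2 : dot (fun i => D (e2 i)) e1 = -dot (fun i => D (e1 i)) e2 := by
    have := D_dot D e1 e2
    rw [h.o12, map_zero, dot_comm' e1] at this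
    linear_combination -this
  have := expand h (fun i => D (e2 i)) i
  rw [h1, h2] at this
  simpa using this

theorem D_n (i : Fin 3) : D (n i) =
    -dot (fun i => D (e1 i)) n * e1 i - dot (fun i => D (e2 i)) n * e2 i := by
  have h1 : dot (fun i => D (n i)) n = 0 := by
    apply half
    have := D_dot D n n
    rw [h.o33, Derivation.map_one_eq_zero, dot_comm' n] at this
    exact this.symm
  have h2 : dot (fun i => D (n i)) e1 = -dot (fun i => D (e1 i)) n := by
    have := D_dot D e1 n
    rw [h.o13, map_zero, dot_comm' e1] at this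
    linear_combination -this
  have h3 : dot (fun i => D (n i)) e2 = -dot (fun i => D (e2 i)) n := by
    have := D_dot D e2 n
    rw [h.o23, map_zero, dot_comm' e2] at this
    linear_combination -this
  have := expand h (fun i => D (n i)) i
  rw [h1, h2, h3] at this
  rw [this]; ring

theorem D_c33 (c : Fin 3 → ℝ) : D (cdot c n n) =
    -2 * (dot (fun i => D (e1 i)) n * cdot c e1 n + dot (fun i => D (e2 i)) n * cdot c e2 n) := by
  rw [D_cdot]
  have h0 := D_n h D
  simp only [cdot]
  rw [h0 0, h0 1, h0 2]; ring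

theorem D_d1 (c : Fin 3 → ℝ) : D (cdot c e1 n) =
    dot (fun i => D (e1 i)) e2 * cdot c e2 n + dot (fun i => D (e1 i)) n * cdot c n n
      - dot (fun i => D (e1 i)) n * cdot c e1 e1 - dot (fun i => D (e2 i)) n * cdot c e1 e2 := by
  rw [D_cdot]
  have h0 := D_n h D
  have h1 := D_e1 h D
  simp only [cdot]
  rw [h0 0, h0 1, h0 2, h1 0, h1 1, h1 2]; ring

theorem D_d2 (c : Fin 3 → ℝ) : D (cdot c e2 n) =
    -dot (fun i => D (e1 i)) e2 * cdot c e1 n + dot (fun i => D (e2 i)) n * cdot c n n
      - dot (fun i => D (e1 i)) n * cdot c e1 e2 - dot (fun i => D (e2 i)) n * cdot c e2 e2 := by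
  rw [D_cdot]
  have h0 := D_n h D
  have h1 := D_e2 h D
  simp only [cdot]
  rw [h0 0, h0 1, h0 2, h1 0, h1 1, h1 2]; ring

end one

section two

variable {e1 e2 n : Fin 3 → R} (h : Orth e1 e2 n) (X Y : Derivation ℝ R R)
  (hXY : ∀ f, X (Y f) = Y (X f))
include h hXY

/-- flatness, the tangential component -/
theorem flat_w : X (dot (fun i => Y (e1 i)) e2) - Y (dot (fun i => X (e1 i)) e2) =
    dot (fun i => Y (e1 i)) n * dot (fun i => X (e2 i)) n
      - dot (fun i => X (e1 i)) n * dot (fun i => Y (e2 i)) n := by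
  have hx := D_e2 h X
  have hy := D_e2 h Y
  rw [D_dot, D_dot]
  have e : dot (fun i => X (Y (e1 i))) e2 = dot (fun i => Y (X (e1 i))) e2 := by simp only [hXY]
  have k1 : dot (fun i => Y (e1 i)) (fun i => X (e2 i)) =
      -dot (fun i => X (e1 i)) e2 * dot (fun i => Y (e1 i)) e1
        + dot (fun i => X (e2 i)) n * dot (fun i => Y (e1 i)) n := by
    conv_lhs => rw [dot]
    rw [hx 0, hx 1, hx 2]; simp only [dot]; ring
  have k2 : dot (fun i => X (e1 i)) (fun i => Y (e2 i)) =
      -dot (fun i => Y (e1 i)) e2 * dot (fun i => X (e1 i)) e1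
        + dot (fun i => Y (e2 i)) n * dot (fun i => X (e1 i)) n := by
    conv_lhs => rw [dot]
    rw [hy 0, hy 1, hy 2]; simp only [dot]; ring
  have z1 : dot (fun i => Y (e1 i)) e1 = 0 := by
    apply half
    have := D_dot Y e1 e1
    rw [h.o11, Derivation.map_one_eq_zero, dot_comm' e1] at this
    exact this.symm
  have z2 : dot (fun i => X (e1 i)) e1 = 0 := by
    apply half
    have := D_dot X e1 e1
    rw [h.o11, Derivation.map_one_eq_zero, dot_comm' e1] at this
    exact this.symm
  rw [e, k1, k2, z1, z2]; ring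

/-- flatness, the `e1`-normal component -/
theorem flat_b : X (dot (fun i => Y (e1 i)) n) - Y (dot (fun i => X (e1 i)) n) =
    dot (fun i => X (e1 i)) e2 * dot (fun i => Y (e2 i)) n
      - dot (fun i => Y (e1 i)) e2 * dot (fun i => X (e2 i)) n := by
  have hx := D_n h X
  have hy := D_n h Y
  rw [D_dot, D_dot]
  have e : dot (fun i => X (Y (e1 i))) n = dot (fun i => Y (X (e1 i))) n := by simp only [hXY]
  have k1 : dot (fun i => Y (e1 i)) (fun i => X (n i)) =
      -dot (fun i => X (e1 i)) n * dot (fun i => Y (e1 i)) e1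
        - dot (fun i => X (e2 i)) n * dot (fun i => Y (e1 i)) e2 := by
    conv_lhs => rw [dot]
    rw [hx 0, hx 1, hx 2]; simp only [dot]; ring
  have k2 : dot (fun i => X (e1 i)) (fun i => Y (n i)) =
      -dot (fun i => Y (e1 i)) n * dot (fun i => X (e1 i)) e1
        - dot (fun i => Y (e2 i)) n * dot (fun i => X (e1 i)) e2 := by
    conv_lhs => rw [dot]
    rw [hy 0, hy 1, hy 2]; simp only [dot]; ring
  have z1 : dot (fun i => Y (e1 i)) e1 = 0 := by
    apply half
    have := D_dot Y e1 e1
    rw [h.o11, Derivation.map_one_eq_zero, dot_comm' e1] at this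
    exact this.symm
  have z2 : dot (fun i => X (e1 i)) e1 = 0 := by
    apply half
    have := D_dot X e1 e1
    rw [h.o11, Derivation.map_one_eq_zero, dot_comm' e1] at this
    exact this.symm
  rw [e, k1, k2, z1, z2]; ring

/-- flatness, the `e2`-normal component -/
theorem flat_g : X (dot (fun i => Y (e2 i)) n) - Y (dot (fun i => X (e2 i)) n) =
    dot (fun i => Y (e1 i)) e2 * dot (fun i => X (e1 i)) n
      - dot (fun i => X (e1 i)) e2 * dot (fun i => Y (e1 i)) n := by
  have hx := D_n h X
  have hy := D_n h Y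
  rw [D_dot, D_dot]
  have e : dot (fun i => X (Y (e2 i))) n = dot (fun i => Y (X (e2 i))) n := by simp only [hXY]
  have k1 : dot (fun i => Y (e2 i)) (fun i => X (n i)) =
      -dot (fun i => X (e1 i)) n * dot (fun i => Y (e2 i)) e1
        - dot (fun i => X (e2 i)) n * dot (fun i => Y (e2 i)) e2 := by
    conv_lhs => rw [dot]
    rw [hx 0, hx 1, hx 2]; simp only [dot]; ring
  have k2 : dot (fun i => X (e2 i)) (fun i => Y (n i)) =
      -dot (fun i => Y (e1 i)) n * dot (fun i => X (e2 i)) e1
        - dot (fun i => Y (e2 i)) n * dot (fun i => X (e2 i)) e2 := by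
    conv_lhs => rw [dot]
    rw [hy 0, hy 1, hy 2]; simp only [dot]; ring
  have z1 : dot (fun i => Y (e2 i)) e2 = 0 := by
    apply half
    have := D_dot Y e2 e2
    rw [h.o22, Derivation.map_one_eq_zero, dot_comm' e2] at this
    exact this.symm
  have z2 : dot (fun i => X (e2 i)) e2 = 0 := by
    apply half
    have := D_dot X e2 e2
    rw [h.o22, Derivation.map_one_eq_zero, dot_comm' e2] at this
    exact this.symm
  have z3 : dot (fun i => Y (e2 i)) e1 = -dot (fun i => Y (e1 i)) e2 := by
    have := D_dot Y e1 e2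
    rw [h.o12, map_zero, dot_comm' e1] at this
    linear_combination -this
  have z4 : dot (fun i => X (e2 i)) e1 = -dot (fun i => X (e1 i)) e2 := by
    have := D_dot X e1 e2
    rw [h.o12, map_zero, dot_comm' e1] at this
    linear_combination -this
  rw [e, k1, k2, z1, z2, z3, z4]; ring

end two

/-- The consequences of the structure equation and of the mean curvature equation.
`w1, w2, b1, b2, g1, g2` are the coefficients of the moving frame. -/
theorem system {e1 e2 n : Fin 3 → R} (h : Orth e1 e2 n) (X Y : Derivation ℝ R R)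
    (hXY : ∀ f, X (Y f) = Y (X f)) (c : Fin 3 → ℝ) (H : ℝ) (g gi : R) (hg : g * gi = 1)
    (w1 w2 b1 b2 g1 g2 : R) (hw1 : w1 = dot (fun i => X (e1 i)) e2)
    (hw2 : w2 = dot (fun i => Y (e1 i)) e2) (hb1 : b1 = dot (fun i => X (e1 i)) n)
    (hb2 : b2 = dot (fun i => Y (e1 i)) n) (hg1 : g1 = dot (fun i => X (e2 i)) n)
    (hg2 : g2 = dot (fun i => Y (e2 i)) n)
    (hstr : ∀ i, X (g * e2 i) - Y (g * e1 i) + g * g * (algebraMap ℝ R (c i) * n i) = 0)
    (hmean : b1 + g2 = algebraMap ℝ R (2 * H) * g) :
    g * w1 = -Y g + g * g * cdot c e1 n ∧ g * w2 = X g + g * g * cdot c e2 n ∧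
    b2 - g1 = g * cdot c n n ∧
    X (gi * X g) + Y (gi * Y g) = -(b1 * g2 - b2 * g1 - g * g * cdot c e1 n ^ 2
        - g * g * cdot c e2 n ^ 2 - g * g * cdot c n n ^ 2 + g * cdot c e1 e2 * (g2 - b1)
        + g * b2 * cdot c e1 e1 - g * g1 * cdot c e2 e2) ∧
    X (X (cdot c n n)) + Y (Y (cdot c n n)) =
      2 * (g * (b2 + g1) * (cdot c e1 n ^ 2 - cdot c e2 n ^ 2)
        + 2 * g * cdot c e1 n * cdot c e2 n * (g2 - b1)
        - cdot c n n * (b1 ^ 2 + b2 ^ 2 + g1 ^ 2 + g2 ^ 2)
        + cdot c e1 e1 * (b1 ^ 2 + b2 ^ 2) + cdot c e2 e2 * (g1 ^ 2 + g2 ^ 2)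
        + 2 * cdot c e1 e2 * (b1 * g1 + b2 * g2)) ∧
    X (cdot c n n) = -2 * (b1 * cdot c e1 n + g1 * cdot c e2 n) ∧
    Y (cdot c n n) = -2 * (b2 * cdot c e1 n + g2 * cdot c e2 n) := by
  have fw := flat_w h X Y hXY
  have fb := flat_b h X Y hXY
  have fg := flat_g h X Y hXY
  have xc := D_c33 h X c
  have yc := D_c33 h Y c
  have xd1 := D_d1 h X c
  have xd2 := D_d2 h X c
  have yd1 := D_d1 h Y c
  have yd2 := D_d2 h Y c
  have x1 := D_e1 h X
  have x2 := D_e2 h X
  have y1 := D_e1 h Y
  rw [← hw1, ← hw2, ← hb1, ← hb2, ← hg1, ← hg2] at fw fb fg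
  rw [← hb1, ← hg1] at xc
  rw [← hb2, ← hg2] at yc
  rw [← hw1, ← hb1, ← hg1] at xd1 xd2
  rw [← hw2, ← hb2, ← hg2] at yd1 yd2
  rw [← hw1, ← hb1] at x1
  rw [← hw1, ← hg1] at x2
  rw [← hw2, ← hb2] at y1
  have S : ∀ i, g * (-w1 * e1 i + g1 * n i) + e2 i * X g - (g * (w2 * e2 i + b2 * n i) + e1 i * Y g)
      + g * g * (algebraMap ℝ R (c i) * n i) = 0 := by
    intro i
    have := hstr i
    rw [Derivation.leibniz, Derivation.leibniz, x2 i, y1 i] at this
    simpa only [smul_eq_mul] using this
  have o11 := h.o11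
  have o22 := h.o22
  have o33 := h.o33
  have o12 := h.o12
  have o13 := h.o13
  have o23 := h.o23
  have hS : ∀ v : Fin 3 → R, -(g * w1) * dot e1 v + g * g1 * dot n v + X g * dot e2 v
      - g * w2 * dot e2 v - g * b2 * dot n v - Y g * dot e1 v + g * g * cdot c n v = 0 := by
    intro v
    have := S 0
    have := S 1
    have := S 2
    simp only [dot, cdot]
    linear_combination v 0 * S 0 + v 1 * S 1 + v 2 * S 2
  have r1 : g * w1 = -Y g + g * g * cdot c e1 n := by
    have := hS e1
    rw [o11, dot_comm' n, o13, dot_comm' e2, o12, cdot_comm c n] at this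
    linear_combination -this
  have r2 : g * w2 = X g + g * g * cdot c e2 n := by
    have := hS e2
    rw [o12, dot_comm' n, o23, o22, cdot_comm c n] at this
    linear_combination -this
  have r3 : b2 - g1 = g * cdot c n n := by
    have := hS n
    rw [o13, o33, o23] at this
    have h2 : g * (b2 - g1 - g * cdot c n n) = 0 := by linear_combination -this
    have h3 : gi * (g * (b2 - g1 - g * cdot c n n)) = 0 := by rw [h2, mul_zero]
    have h4 : b2 - g1 - g * cdot c n n = 0 := by
      linear_combination h3 - (b2 - g1 - g * cdot c n n) * hg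
    linear_combination h4
  refine ⟨r1, r2, r3, ?_, ?_, xc, yc⟩
  · have ea : gi * X g = w2 - g * cdot c e2 n := by
      linear_combination -gi * r2 + (w2 - g * cdot c e2 n) * hg
    have eb : gi * Y g = -w1 + g * cdot c e1 n := by
      linear_combination gi * r1 + (-w1 + g * cdot c e1 n) * hg
    rw [ea, eb]
    simp only [map_sub, map_add, map_neg, Derivation.leibniz, smul_eq_mul]
    rw [xd2, yd1]
    linear_combination fw + cdot c e2 n * r2 + cdot c e1 n * r1 + g * cdot c n n * r3
  · have hX : X b1 = algebraMap ℝ R (2 * H) * X g - X g2 := by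
      have : X (b1 + g2) = X (algebraMap ℝ R (2 * H) * g) := by rw [hmean]
      simp only [map_add, Derivation.leibniz, Derivation.map_algebraMap, smul_eq_mul, mul_zero] at this
      linear_combination this
    have hY : Y g2 = algebraMap ℝ R (2 * H) * Y g - Y b1 := by
      have : Y (b1 + g2) = Y (algebraMap ℝ R (2 * H) * g) := by rw [hmean]
      simp only [map_add, Derivation.leibniz, Derivation.map_algebraMap, smul_eq_mul, mul_zero] at this
      linear_combination this
    have hb : Y b2 = Y g1 + (g * Y (cdot c n n) + cdot c n n * Y g) := by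
      have : Y (b2 - g1) = Y (g * cdot c n n) := by rw [r3]
      simp only [map_sub, Derivation.leibniz, smul_eq_mul] at this
      linear_combination this
    have hgx : X g1 = X b2 - (g * X (cdot c n n) + cdot c n n * X g) := by
      have : X (b2 - g1) = X (g * cdot c n n) := by rw [r3]
      simp only [map_sub, Derivation.leibniz, smul_eq_mul] at this
      linear_combination -this
    have e1' : X (X (cdot c n n)) = -2 * (b1 * X (cdot c e1 n) + cdot c e1 n * X b1
        + g1 * X (cdot c e2 n) + cdot c e2 n * X g1) := by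
      rw [xc]
      have : (-2 : R) = algebraMap ℝ R (-2) := by rw [map_neg, map_ofNat]
      rw [this]
      simp only [map_add, Derivation.leibniz, Derivation.map_algebraMap, smul_eq_mul, mul_zero]
      ring
    have e2' : Y (Y (cdot c n n)) = -2 * (b2 * Y (cdot c e1 n) + cdot c e1 n * Y b2
        + g2 * Y (cdot c e2 n) + cdot c e2 n * Y g2) := by
      rw [yc]
      have : (-2 : R) = algebraMap ℝ R (-2) := by rw [map_neg, map_ofNat]
      rw [this]
      simp only [map_add, Derivation.leibniz, Derivation.map_algebraMap, smul_eq_mul, mul_zero]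
      ring
    have eXg : X g = g * w2 - g * g * cdot c e2 n := by linear_combination -r2
    have eYg : Y g = -(g * w1) + g * g * cdot c e1 n := by linear_combination r1
    rw [e1', e2', hX, hY, hb, hgx, xc, yc, xd1, xd2, yd1, yd2, eXg, eYg]
    linear_combination 2 * cdot c e1 n * fg - 2 * cdot c e2 n * fb
      + 2 * cdot c e1 n * (w2 - g * cdot c e2 n) * hmean
      + 2 * cdot c e2 n * (-w1 + g * cdot c e1 n) * hmean
      + 2 * cdot c e1 n * (-w1 + g * cdot c e1 n) * r3
      - 2 * cdot c e2 n * (w2 - g * cdot c e2 n) * r3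

end Core

end Pool.Agent.SU2H
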