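import Pool.Agent.Lib.SU2H.Defs

/-!
# Lipschitz cut-off functions on a complete conformal metric

Proof sketch.  Let `d z` be the infimum of all `L` with `Reach D w L z` (`z ∈ D`; nonempty because
the segment from `0` lies in `D`; every such `L` is `≥ 0` because `w > 0` on `D`).  If the segment
`[z, z']` lies in `D` then `|d z - d z'| ≤ ∫ t in 0..1, w (z + t (z' - z)) ‖z' - z‖` (one more step
of the path, and the reversed segment).  Take `η z = max 0 (1 - d z / R)` on `D` and `0` outside
`D`.  With `K` the compact set of `hcomp R` (or `hcomp (R+1)`): `η z ≠ 0` implies `d z < R`, hence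
some `L' ≤ R` with `Reach D w L' z`, so `z ∈ K`.  So `tsupport η ⊆ K ⊆ D`.  Globally Lipschitz:
choose `δ > 0` with `Metric.cthickening δ K ⊆ D` (`IsCompact.exists_cthickening_subset_open`); this
set is compact, so `w ≤ W` there; if `z ∈ K` and `‖z - z'‖ ≤ δ` the segment lies in the thickening
and `|η z - η z'| ≤ W ‖z - z'‖ / R`; if `‖z - z'‖ > δ` then `|η z - η z'| ≤ 1 ≤ ‖z - z'‖ / δ`; both
points outside `K`: both values are `0`.  Line derivative at `z ∈ D`: `|η (z + t v) - η z| ≤
(|t| ‖v‖ / R) * sup of w on the segment`, and the sup tends to `w z` as `t → 0` (`lineDeriv` is a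
derivative at `0`, or `0` when it does not exist).  Near `0`: `d` is bounded by `M` on a small ball.
-/

noncomputable section

namespace Pool.Agent.SU2H

namespace CutoffAux

open Set Filter Topology

/-- the length of the segment -/
def len (w : ℂ → ℝ) (z z' : ℂ) : ℝ := ∫ t in (0 : ℝ)..1, w (z + (t : ℂ) * (z' - z)) * ‖z' - z‖

theorem mem_seg {z z' : ℂ} {t : ℝ} (ht : t ∈ Icc (0 : ℝ) 1) :
    z + (t : ℂ) * (z' - z) ∈ segment ℝ z z' := by
  rw [segment_eq_image']
  refine ⟨t, ht, ?_⟩
  simp [Complex.real_smul]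

theorem len_nonneg {D : Set ℂ} {w : ℂ → ℝ} (hwpos : ∀ z ∈ D, 0 < w z) {z z' : ℂ}
    (h : segment ℝ z z' ⊆ D) : 0 ≤ len w z z' := by
  refine intervalIntegral.integral_nonneg zero_le_one fun t ht => ?_
  exact mul_nonneg (hwpos _ (h (mem_seg ht))).le (norm_nonneg _)

theorem len_le {D : Set ℂ} {w : ℂ → ℝ} (hw : ContinuousOn w D) {z z' : ℂ}
    (h : segment ℝ z z' ⊆ D) {W : ℝ} (hW : ∀ x ∈ segment ℝ z z', w x ≤ W) :
    len w z z' ≤ W * ‖z' - z‖ := by
  have hc : ContinuousOn (fun t : ℝ => w (z + (t : ℂ) * (z' - z)) * ‖z' - z‖) (Icc 0 1) := by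
    refine ContinuousOn.mul ?_ continuousOn_const
    refine hw.comp (Continuous.continuousOn (by fun_prop)) fun t ht => h (mem_seg ht)
  have h1 : len w z z' ≤ ∫ _t in (0 : ℝ)..1, W * ‖z' - z‖ := by
    refine intervalIntegral.integral_mono_on zero_le_one ?_ ?_ fun t ht => ?_
    · refine ContinuousOn.intervalIntegrable ?_
      rwa [uIcc_of_le zero_le_one]
    · exact intervalIntegrable_const
    · exact mul_le_mul_of_nonneg_right (hW _ (mem_seg ht)) (norm_nonneg _)
  simpa using h1

theorem reach_nonneg {D : Set ℂ} {w : ℂ → ℝ} (hwpos : ∀ z ∈ D, 0 < w z)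
    {L : ℝ} {z : ℂ} (h : Reach D w L z) : 0 ≤ L := by
  induction h with
  | base => exact le_rfl
  | step _ hs ih => exact add_nonneg ih (len_nonneg hwpos hs)

/-- the distance -/
def dd (D : Set ℂ) (w : ℂ → ℝ) (z : ℂ) : ℝ := sInf {L | Reach D w L z}

section
variable {D : Set ℂ} (hconv : Convex ℝ D) (h0 : (0 : ℂ) ∈ D)
    {w : ℂ → ℝ} (hw : ContinuousOn w D) (hwpos : ∀ z ∈ D, 0 < w z)

include hwpos in
theorem bdd (z : ℂ) : BddBelow {L | Reach D w L z} :=
  ⟨0, fun _ h => reach_nonneg hwpos h⟩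

include hconv h0 in
theorem nonem {z : ℂ} (hz : z ∈ D) : {L | Reach D w L z}.Nonempty :=
  ⟨_, Reach.step Reach.base (hconv.segment_subset h0 hz)⟩

include hwpos in
theorem dd_nonneg (z : ℂ) : 0 ≤ dd D w z :=
  Real.sInf_nonneg fun _ h => reach_nonneg hwpos h

include hconv h0 hw hwpos in
theorem dd_step {z z' : ℂ} (hs : segment ℝ z z' ⊆ D) {W : ℝ}
    (hW : ∀ x ∈ segment ℝ z z', w x ≤ W) : dd D w z' ≤ dd D w z + W * ‖z' - z‖ := by
  have hz : z ∈ D := hs (left_mem_segment ℝ z z')
  rw [← sub_le_iff_le_add]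
  refine le_csInf (nonem hconv h0 hz) fun L hL => ?_
  rw [sub_le_iff_le_add]
  have h1 : dd D w z' ≤ L + len w z z' := csInf_le (bdd hwpos z') (Reach.step hL hs)
  exact h1.trans (by linarith [len_le hw hs hW])

include hconv h0 hw hwpos in
theorem dd_abs {z z' : ℂ} (hs : segment ℝ z z' ⊆ D) {W : ℝ}
    (hW : ∀ x ∈ segment ℝ z z', w x ≤ W) : |dd D w z' - dd D w z| ≤ W * ‖z' - z‖ := by
  have h1 := dd_step hconv h0 hw hwpos hs hW
  rw [segment_symm] at hs hW
  have h2 := dd_step hconv h0 hw hwpos hs hW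
  rw [norm_sub_rev] at h2
  rw [abs_le]
  constructor <;> linarith

open Classical in
/-- the cut-off function -/
def eta (D : Set ℂ) (w : ℂ → ℝ) (R : ℝ) (z : ℂ) : ℝ :=
  if z ∈ D then max 0 (1 - dd D w z / R) else 0

theorem eta_nonneg (R : ℝ) (z : ℂ) : 0 ≤ eta D w R z := by
  unfold eta
  split_ifs
  · exact le_max_left _ _
  · exact le_rfl

include hwpos in
theorem eta_le {R : ℝ} (hR : 0 < R) (z : ℂ) : eta D w R z ≤ 1 := by
  unfold eta
  split_ifs
  · refine max_le zero_le_one ?_
    have := div_nonneg (dd_nonneg hwpos z) hR.le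
    linarith
  · exact zero_le_one

include hconv h0 hw hwpos in
theorem eta_abs {R : ℝ} (hR : 0 < R) {z z' : ℂ} (hs : segment ℝ z z' ⊆ D) {W : ℝ}
    (hW : ∀ x ∈ segment ℝ z z', w x ≤ W) :
    |eta D w R z' - eta D w R z| ≤ W * ‖z' - z‖ / R := by
  have hz : z ∈ D := hs (left_mem_segment ℝ z z')
  have hz' : z' ∈ D := hs (right_mem_segment ℝ z z')
  have h1 := dd_abs hconv h0 hw hwpos hs hW
  unfold eta
  rw [if_pos hz, if_pos hz']
  refine (abs_max_sub_max_le_max _ _ _ _).trans ?_
  rw [sub_self, abs_zero]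
  refine max_le ?_ ?_
  · exact div_nonneg ((abs_nonneg _).trans h1) hR.le
  · have e : 1 - dd D w z' / R - (1 - dd D w z / R) = -((dd D w z' - dd D w z) / R) := by ring
    rw [e, abs_neg, abs_div, abs_of_pos hR]
    exact div_le_div_of_nonneg_right h1 hR.le

end

end CutoffAux

open CutoffAux Set Filter Topology in
theorem exists_cutoff {D : Set ℂ} (hD : IsOpen D) (hconv : Convex ℝ D) (h0 : (0 : ℂ) ∈ D)
    {w : ℂ → ℝ} (hw : ContinuousOn w D) (hwpos : ∀ z ∈ D, 0 < w z) (hcomp : Complete D w) :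
    ∃ r > 0, Metric.ball (0 : ℂ) r ⊆ D ∧ ∃ M : ℝ, ∀ R > 0, ∃ η : ℂ → ℝ,
      (∃ C, LipschitzWith C η) ∧ (∀ z, 0 ≤ η z) ∧ (∀ z, η z ≤ 1) ∧
      HasCompactSupport η ∧ tsupport η ⊆ D ∧
      (∀ z ∈ D, ∀ v : ℂ, |lineDeriv ℝ η z v| ≤ w z * ‖v‖ / R) ∧
      (∀ z ∈ Metric.ball (0 : ℂ) r, 1 - M / R ≤ η z) := by
  have hloc : ∀ z ∈ D, ∀ ε > 0, ∃ r > 0, Metric.ball z r ⊆ D ∧
      ∀ x ∈ Metric.ball z r, w x ≤ w z + ε := by
    intro z hz ε hε
    have h1 : ∀ᶠ x in 𝓝 z, x ∈ D := hD.mem_nhds hz
    have h2 : ∀ᶠ x in 𝓝 z, w x < w z + ε :=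
      (hw.continuousAt (hD.mem_nhds hz)).eventually_lt continuousAt_const (by linarith)
    obtain ⟨r, hr, h3⟩ := Metric.eventually_nhds_iff_ball.1 (h1.and h2)
    exact ⟨r, hr, fun x hx => (h3 x hx).1, fun x hx => (h3 x hx).2.le⟩
  obtain ⟨r, hr, hrD, hrw⟩ := hloc 0 h0 1 one_pos
  refine ⟨r, hr, hrD, (w 0 + 1) * r, fun R hR => ⟨eta D w R, ?_, eta_nonneg R,
    eta_le hwpos hR, ?_⟩⟩
  · obtain ⟨K, hKD, hK, hKR⟩ := hcomp R
    have hsup : ∀ z, z ∉ K → eta D w R z = 0 := by
      intro z hz
      unfold eta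
      split_ifs with hzD
      · refine max_eq_left ?_
        by_contra hlt
        push Not at hlt
        have h1 : dd D w z < R := by
          rw [sub_pos, div_lt_one hR] at hlt
          exact hlt
        obtain ⟨L, hL, hLR⟩ := exists_lt_of_csInf_lt (nonem hconv h0 hzD) h1
        exact hz (hKR L z hLR.le hL)
      · rfl
    obtain ⟨δ, hδ, hδD⟩ := hK.exists_cthickening_subset_open hD hKD
    have hcK : IsCompact (Metric.cthickening δ K) := hK.cthickening
    obtain ⟨W, hW⟩ := hcK.exists_bound_of_continuousOn (hw.mono hδD)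
    have key : ∀ z ∈ K, ∀ z', |eta D w R z' - eta D w R z| ≤
        max (|W| / R) (1 / δ) * ‖z' - z‖ := by
      intro z hz z'
      by_cases hd : ‖z' - z‖ ≤ δ
      · have hsub : segment ℝ z z' ⊆ Metric.cthickening δ K := by
          intro x hx
          refine Metric.closedBall_subset_cthickening hz δ ?_
          have h1 : segment ℝ z z' ⊆ Metric.closedBall z δ :=
            (convex_closedBall z δ).segment_subset (Metric.mem_closedBall_self hδ.le)
              (by rw [mem_closedBall_iff_norm]; exact hd)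
          exact h1 hx
        have h2 := eta_abs hconv h0 hw hwpos hR (hsub.trans hδD) (W := |W|)
          (fun x hx => (le_abs_self _).trans ((hW x (hsub hx)).trans (le_abs_self _)))
        refine h2.trans ?_
        have h3 : |W| * ‖z' - z‖ / R = |W| / R * ‖z' - z‖ := by ring
        rw [h3]
        exact mul_le_mul_of_nonneg_right (le_max_left _ _) (norm_nonneg _)
      · push Not at hd
        have h1 : |eta D w R z' - eta D w R z| ≤ 1 := by
          rw [abs_le]
          have a1 := eta_nonneg (D := D) (w := w) R z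
          have a2 := eta_nonneg (D := D) (w := w) R z'
          have a3 := eta_le hwpos hR z
          have a4 := eta_le hwpos hR z'
          constructor <;> linarith
        refine h1.trans ?_
        have h2 : 1 ≤ 1 / δ * ‖z' - z‖ := by
          rw [one_div, inv_mul_eq_div, one_le_div hδ]
          exact hd.le
        exact h2.trans (mul_le_mul_of_nonneg_right (le_max_right _ _) (norm_nonneg _))
    have hC : 0 ≤ max (|W| / R) (1 / δ) := (by positivity : (0 : ℝ) ≤ 1 / δ).trans (le_max_right _ _)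
    refine ⟨Real.toNNReal (max (|W| / R) (1 / δ)), LipschitzWith.of_dist_le_mul fun x y => ?_⟩
    rw [Real.dist_eq, Real.coe_toNNReal _ hC, dist_eq_norm]
    by_cases hy : y ∈ K
    · exact key y hy x
    · by_cases hx : x ∈ K
      · rw [abs_sub_comm, norm_sub_rev]
        exact key x hx y
      · rw [hsup x hx, hsup y hy, sub_zero, abs_zero]
        exact mul_nonneg hC (norm_nonneg _)
  · obtain ⟨K, hKD, hK, hKR⟩ := hcomp R
    have hsup : Function.support (eta D w R) ⊆ K := by
      intro z hz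
      by_contra hzK
      apply hz
      unfold eta
      split_ifs with hzD
      · refine max_eq_left ?_
        by_contra hlt
        push Not at hlt
        have h1 : dd D w z < R := by
          rw [sub_pos, div_lt_one hR] at hlt
          exact hlt
        obtain ⟨L, hL, hLR⟩ := exists_lt_of_csInf_lt (nonem hconv h0 hzD) h1
        exact hzK (hKR L z hLR.le hL)
      · rfl
    refine ⟨HasCompactSupport.of_support_subset_isCompact hK hsup,
      (closure_minimal hsup hK.isClosed).trans hKD, ?_, ?_⟩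
    · intro z hz v
      have key : ∀ ε > 0, |lineDeriv ℝ (eta D w R) z v| ≤ (w z + ε) * ‖v‖ / R := by
        intro ε hε
        obtain ⟨ρ, hρ, hρD, hρw⟩ := hloc z hz ε hε
        have hwz := hwpos z hz
        have hnn : 0 ≤ (w z + ε) * ‖v‖ / R := by positivity
        unfold lineDeriv
        rw [← Real.norm_eq_abs]
        refine norm_deriv_le_of_lip' hnn ?_
        have h1 : ∀ᶠ t : ℝ in 𝓝 0, z + t • v ∈ Metric.ball z ρ := by
          have hc : ContinuousAt (fun t : ℝ => z + t • v) 0 := by fun_prop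
          have : (fun t : ℝ => z + t • v) 0 ∈ Metric.ball z ρ := by
            simp [hρ]
          exact hc.eventually_mem (Metric.isOpen_ball.mem_nhds this)
        filter_upwards [h1] with t ht
        have hseg : segment ℝ z (z + t • v) ⊆ Metric.ball z ρ :=
          (convex_ball z ρ).segment_subset (Metric.mem_ball_self hρ) ht
        have h2 := eta_abs hconv h0 hw hwpos hR (hseg.trans hρD) (W := w z + ε)
          (fun x hx => hρw x (hseg hx))
        rw [zero_smul, add_zero, Real.norm_eq_abs, sub_zero, Real.norm_eq_abs]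
        refine h2.trans (le_of_eq ?_)
        rw [add_sub_cancel_left, norm_smul, Real.norm_eq_abs]
        ring
      refine le_of_forall_pos_le_add fun ε hε => ?_
      have hpos : 0 < ε * R / (‖v‖ + 1) := by positivity
      refine (key _ hpos).trans ?_
      have e : (w z + ε * R / (‖v‖ + 1)) * ‖v‖ / R = w z * ‖v‖ / R + ε * (‖v‖ / (‖v‖ + 1)) := by
        field_simp
      rw [e]
      have h3 : ‖v‖ / (‖v‖ + 1) ≤ 1 := by
        rw [div_le_one (by positivity)]
        linarith
      have h4 : ε * (‖v‖ / (‖v‖ + 1)) ≤ ε * 1 := mul_le_mul_of_nonneg_left h3 hε.le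
      linarith
    · intro z hz
      have hzD := hrD hz
      have hseg : segment ℝ (0 : ℂ) z ⊆ Metric.ball 0 r :=
        (convex_ball (0 : ℂ) r).segment_subset (Metric.mem_ball_self hr) hz
      have h1 := dd_step hconv h0 hw hwpos (hseg.trans hrD) (W := w 0 + 1)
        (fun x hx => hrw x (hseg hx))
      have h2 : dd D w 0 ≤ 0 := csInf_le (bdd hwpos 0) Reach.base
      rw [sub_zero] at h1
      have h3 : ‖z‖ < r := by simpa using hz
      have hw0 := hwpos 0 h0
      have h4 : dd D w z ≤ (w 0 + 1) * r := by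
        have h5 : (w 0 + 1) * ‖z‖ ≤ (w 0 + 1) * r :=
          mul_le_mul_of_nonneg_left h3.le (by linarith)
        linarith
      unfold eta
      rw [if_pos hzD]
      refine le_trans ?_ (le_max_right _ _)
      have h6 : dd D w z / R ≤ (w 0 + 1) * r / R := div_le_div_of_nonneg_right h4 hR.le
      linarith

end Pool.Agent.SU2H
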