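import Mathlib

/-!
# Conformally parametrised H-surfaces in SU(2) with a left-invariant metric

`SU(2)` is the group of unit quaternions.  A left-invariant metric is given by three positive
numbers `ℓ 0, ℓ 1, ℓ 2`: the left-invariant vector fields `x ↦ x * i / ℓ 0`, `x ↦ x * j / ℓ 1`,
`x ↦ x * k / ℓ 2` form an orthonormal frame `E 0, E 1, E 2`.  (Every left-invariant metric on
`SU(2)` becomes one of these after an inner automorphism.)  All tangent vectors are written in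
this frame.
-/

noncomputable section

namespace Pool.Agent.SU2H

open scoped Quaternion ContDiff

/-- The coordinates of the imaginary part of a quaternion. -/
def imv (q : ℍ[ℝ]) : Fin 3 → ℝ := ![q.imI, q.imJ, q.imK]

/-- The coordinates, in the orthonormal left-invariant frame, of the derivative of `φ` at `z` in
the direction `v`. -/
def vel (ℓ : Fin 3 → ℝ) (φ : ℂ → ℍ[ℝ]) (v z : ℂ) : Fin 3 → ℝ :=
  fun i => ℓ i * imv (star (φ z) * fderiv ℝ φ z v) i

/-- The structure constants: `[E 0, E 1] = sc ℓ 2 • E 2` and cyclically. -/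
def sc (ℓ : Fin 3 → ℝ) (i : Fin 3) : ℝ := 2 * ℓ i ^ 2 / (ℓ 0 * ℓ 1 * ℓ 2)

/-- The Lie bracket of two left-invariant fields, in the frame, for the structure constants `c`. -/
def bracket (c X Y : Fin 3 → ℝ) : Fin 3 → ℝ := fun i => c i * crossProduct X Y i

/-- The Levi-Civita connection on left-invariant fields, for the structure constants `c`. -/
def conn (c X Y : Fin 3 → ℝ) : Fin 3 → ℝ :=
  crossProduct (fun i => ((c 0 + c 1 + c 2) / 2 - c i) * X i) Y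

/-- The curvature tensor `R(X,Y)Z` of the left-invariant metric. -/
def curv (c X Y Z : Fin 3 → ℝ) : Fin 3 → ℝ :=
  conn c X (conn c Y Z) - conn c Y (conn c X Z) - conn c (bracket c X Y) Z

/-- The Ricci curvature `Ric(N,N)`. -/
def ric (c N : Fin 3 → ℝ) : ℝ := ∑ i, curv c (Pi.single i 1) N N i

/-- The scalar curvature. -/
def scal (c : Fin 3 → ℝ) : ℝ := ∑ j, ric c (Pi.single j 1)

/-- The conformal factor: the squared length of the velocity in the direction `1`. -/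
def lam (ℓ : Fin 3 → ℝ) (φ : ℂ → ℍ[ℝ]) (z : ℂ) : ℝ :=
  dotProduct (vel ℓ φ 1 z) (vel ℓ φ 1 z)

/-- The unit normal of a conformal immersion (left Gauss map). -/
def nrm (ℓ : Fin 3 → ℝ) (φ : ℂ → ℍ[ℝ]) (z : ℂ) : Fin 3 → ℝ :=
  (lam ℓ φ z)⁻¹ • crossProduct (vel ℓ φ 1 z) (vel ℓ φ Complex.I z)

/-- The covariant derivative, in the direction `a`, of the velocity in the direction `b`. -/
def cov (ℓ : Fin 3 → ℝ) (φ : ℂ → ℍ[ℝ]) (a b z : ℂ) : Fin 3 → ℝ :=
  (fun i => fderiv ℝ (fun w => vel ℓ φ b w i) z a) + conn (sc ℓ) (vel ℓ φ a z) (vel ℓ φ b z)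

/-- The second fundamental form. -/
def sff (ℓ : Fin 3 → ℝ) (φ : ℂ → ℍ[ℝ]) (a b z : ℂ) : ℝ :=
  dotProduct (cov ℓ φ a b z) (nrm ℓ φ z)

/-- `φ` restricted to the open set `D` is a conformal immersion into `SU(2)`, with the
left-invariant metric `ℓ`, of constant mean curvature `H`. -/
structure IsConfHSurface (ℓ : Fin 3 → ℝ) (D : Set ℂ) (φ : ℂ → ℍ[ℝ]) (H : ℝ) : Prop where
  smooth : ContDiffOn ℝ ∞ φ D
  unit : ∀ z ∈ D, ‖φ z‖ = 1
  immersed : ∀ z ∈ D, 0 < lam ℓ φ z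
  conf_norm : ∀ z ∈ D, dotProduct (vel ℓ φ Complex.I z) (vel ℓ φ Complex.I z) = lam ℓ φ z
  conf_orth : ∀ z ∈ D, dotProduct (vel ℓ φ 1 z) (vel ℓ φ Complex.I z) = 0
  mean : ∀ z ∈ D, sff ℓ φ 1 1 z + sff ℓ φ Complex.I Complex.I z = 2 * H * lam ℓ φ z

/-- The potential `|A|² + Ric(N,N)` of the Jacobi operator. -/
def pot (ℓ : Fin 3 → ℝ) (φ : ℂ → ℍ[ℝ]) (z : ℂ) : ℝ :=
  (sff ℓ φ 1 1 z ^ 2 + 2 * sff ℓ φ 1 Complex.I z ^ 2 + sff ℓ φ Complex.I Complex.I z ^ 2)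
      / lam ℓ φ z ^ 2 + ric (sc ℓ) (nrm ℓ φ z)

/-- The flat Laplacian. -/
def lap (f : ℂ → ℝ) (z : ℂ) : ℝ :=
  fderiv ℝ (fun w => fderiv ℝ f w 1) z 1 +
    fderiv ℝ (fun w => fderiv ℝ f w Complex.I) z Complex.I

/-- The surface carries a positive Jacobi function. -/
def StronglyStable (ℓ : Fin 3 → ℝ) (D : Set ℂ) (φ : ℂ → ℍ[ℝ]) : Prop :=
  ∃ u : ℂ → ℝ, ContDiffOn ℝ 2 u D ∧ (∀ z ∈ D, 0 < u z) ∧
    ∀ z ∈ D, (lam ℓ φ z)⁻¹ * lap u z + pot ℓ φ z * u z = 0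

/-- `Reach D w L z`: the point `z` is the end point of a polygonal path in `D`, starting at `0`,
whose length for the metric `w² |dz|²` is `L`. -/
inductive Reach (D : Set ℂ) (w : ℂ → ℝ) : ℝ → ℂ → Prop
  | base : Reach D w 0 0
  | step {L : ℝ} {z z' : ℂ} : Reach D w L z → segment ℝ z z' ⊆ D →
      Reach D w (L + ∫ t in (0 : ℝ)..1, w (z + (t : ℂ) * (z' - z)) * ‖z' - z‖) z'

/-- The metric `w² |dz|²` on `D` is complete (closed bounded sets are compact). -/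
def Complete (D : Set ℂ) (w : ℂ → ℝ) : Prop :=
  ∀ L : ℝ, ∃ K : Set ℂ, K ⊆ D ∧ IsCompact K ∧ ∀ (L' : ℝ) (z : ℂ), L' ≤ L → Reach D w L' z → z ∈ K

end Pool.Agent.SU2H
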