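import Pool.Agent.Lib.SU2H.Cutoff

/-!
# The integral argument on the disc

Proof sketch.  Write `ψ = ρ + h`, `Ψ = ψ + α v`, all `C²` on the unit disc `D`.  The hypothesis says
`-lap Ψ ≥ ε exp(2ρ) + α |∇v|²`.  For a Lipschitz cut-off `η` of `exists_cutoff` (with
`w = exp ρ`), choose a smooth bump `χ` with compact support in `D`, equal to `1` near
`tsupport η` (e.g. `exists_contDiff_tsupport_subset` or `exists_smooth_...`); the functions
`f₁ = χ exp(-2ψ) ∂₁Ψ`, `f₂ = χ exp(-2ψ) ∂₂Ψ` (extended by `0`) are `C¹` with compact support, hence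
Lipschitz, and `η²` is Lipschitz with compact support, so
`LipschitzWith.integral_lineDeriv_mul_eq` (Mathlib, Rademacher file) gives
`∫ (∂₁f₁ + ∂₂f₂) η² = - ∫ (f₁ ∂₁(η²) + f₂ ∂₂(η²))`.  On `tsupport η`:
`∂₁f₁ + ∂₂f₂ = exp(-2ψ) (lap Ψ - 2 ∇ψ·∇Ψ)`, so
`∫ exp(-2ψ) η² (ε exp(2ρ) + α|∇v|² + 2 ∇ψ·(∇ψ + α∇v)) ≤ ∫ 2 η exp(-2ψ) ∇Ψ·∇η`.
Pointwise `α|∇v|² + 2|∇ψ|² + 2α ∇ψ·∇v ≥ (2-α) |∇ψ + α∇v|²` (this is
`α (1-α)² ... `: the 2x2 form is positive semidefinite for `0 < α < 2`), and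
`2η ∇Ψ·∇η ≤ (2-α) η² |∇Ψ|² + |∇η|²/(2-α)`.  Hence
`ε ∫ exp(2ρ-2ψ) η² ≤ (2-α)⁻¹ ∫ exp(-2ψ) |∇η|² ≤ (2-α)⁻¹ (2/R²) ∫_D exp(-2h) ≤ C/R²`, because
`|∂ᵢη| ≤ exp ρ / R`.  The left side is at least `ε exp(-2B) ∫_{ball 0 r} (1 - M/R)²` for `R ≥ M`:
contradiction for `R` large.
-/

noncomputable section

namespace Pool.Agent.SU2H.DiscPDEAux

open MeasureTheory Metric Set Filter Topology

theorem lip_sq {η : ℂ → ℝ} {C : NNReal} (hη : LipschitzWith C η) (h0 : ∀ z, 0 ≤ η z)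
    (h1 : ∀ z, η z ≤ 1) : LipschitzWith (2 * C) (fun z => η z ^ 2) := by
  refine LipschitzWith.of_dist_le_mul fun x y => ?_
  rw [Real.dist_eq]
  have h := hη.dist_le_mul x y
  rw [Real.dist_eq] at h
  have e : η x ^ 2 - η y ^ 2 = (η x + η y) * (η x - η y) := by ring
  rw [e, abs_mul]
  have hs : |η x + η y| ≤ 2 := by
    rw [abs_of_nonneg (add_nonneg (h0 x) (h0 y))]
    linarith [h1 x, h1 y]
  calc |η x + η y| * |η x - η y| ≤ 2 * (C * dist x y) :=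
        mul_le_mul hs h (abs_nonneg _) (by norm_num)
    _ = ((2 * C : NNReal) : ℝ) * dist x y := by push_cast; ring

theorem ld_sq {η : ℂ → ℝ} {z v : ℂ} (h : LineDifferentiableAt ℝ η z (-v)) :
    lineDeriv ℝ (fun z => η z ^ 2) z (-v) = -(2 * η z * lineDeriv ℝ η z v) := by
  have h1 : HasLineDerivAt ℝ η (lineDeriv ℝ η z (-v)) z (-v) := h.hasLineDerivAt
  have h2 : lineDeriv ℝ η z (-v) = - lineDeriv ℝ η z v := lineDeriv_neg
  have h3 : HasLineDerivAt ℝ (fun z => η z ^ 2) (2 * η z * lineDeriv ℝ η z (-v)) z (-v) := by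
    unfold HasLineDerivAt at h1 ⊢
    have := h1.fun_pow 2
    simpa using this
  rw [h3.lineDeriv, h2]
  ring

/-- Integration by parts on the unit disc, with a Lipschitz cut-off function. -/
theorem ibp {F η : ℂ → ℝ} {C : NNReal} (hF : ContDiffOn ℝ 1 F (ball 0 1))
    (hη : LipschitzWith C η) (h0 : ∀ z, 0 ≤ η z) (h1 : ∀ z, η z ≤ 1) (hc : HasCompactSupport η)
    (hs : tsupport η ⊆ ball 0 1) (v : ℂ) :
    Integrable (fun z => fderiv ℝ F z v * η z ^ 2) ∧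
      Integrable (fun z => F z * (2 * η z * lineDeriv ℝ η z v)) ∧
      ∫ z, fderiv ℝ F z v * η z ^ 2 = -∫ z, F z * (2 * η z * lineDeriv ℝ η z v) := by
  obtain ⟨r1, ⟨hr0, hr1⟩, hsub⟩ := exists_pos_lt_subset_ball (zero_lt_one' ℝ)
    (isClosed_tsupport η) hs
  let χ : ContDiffBump (0 : ℂ) := ⟨r1, (r1 + 1) / 2, hr0, by linarith⟩
  have hts : tsupport χ ⊆ ball (0 : ℂ) 1 := by
    rw [χ.tsupport_eq]
    exact closedBall_subset_ball (by change (r1 + 1) / 2 < 1; linarith)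
  let f : ℂ → ℝ := fun z => χ z * F z
  have hcf : HasCompactSupport f := χ.hasCompactSupport.mul_right
  have hf : ContDiff ℝ 1 f := by
    refine contDiff_iff_contDiffAt.2 fun z => ?_
    by_cases hz : z ∈ tsupport χ
    · exact χ.contDiffAt.mul (hF.contDiffAt (isOpen_ball.mem_nhds (hts hz)))
    · have h2 : f =ᶠ[𝓝 z] fun _ => 0 := by
        filter_upwards [notMem_tsupport_iff_eventuallyEq.1 hz] with w hw
        have hw' : χ w = 0 := hw
        change χ w * F w = 0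
        rw [hw', zero_mul]
      exact contDiffAt_const.congr_of_eventuallyEq h2
  obtain ⟨D, hfL⟩ : ∃ D, LipschitzWith D f :=
    ContDiff.lipschitzWith_of_hasCompactSupport hcf hf (by simp)
  have hgL := lip_sq hη h0 h1
  have hgc : HasCompactSupport (fun z => η z ^ 2) := by
    refine hc.mono fun z hz => ?_
    rw [Function.mem_support] at hz ⊢
    intro h
    exact hz (by rw [h]; norm_num)
  have hfF : ∀ z ∈ ball (0 : ℂ) r1, f =ᶠ[𝓝 z] F := by
    intro z hz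
    filter_upwards [isOpen_ball.mem_nhds hz] with w hw
    change χ w * F w = F w
    rw [χ.one_of_mem_closedBall (ball_subset_closedBall hw), one_mul]
  have hz0 : ∀ z, z ∉ ball (0 : ℂ) r1 → η z = 0 := fun z hz =>
    image_eq_zero_of_notMem_tsupport fun h => hz (hsub h)
  have e1 : ∀ z, lineDeriv ℝ f z v * η z ^ 2 = fderiv ℝ F z v * η z ^ 2 := by
    intro z
    by_cases hz : z ∈ ball (0 : ℂ) r1
    · rw [(hf.differentiable (by simp)).differentiableAt.lineDeriv_eq_fderiv,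
        (hfF z hz).fderiv_eq]
    · rw [hz0 z hz]
      ring
  have e2 : ∀ z, LineDifferentiableAt ℝ η z (-v) →
      lineDeriv ℝ (fun z => η z ^ 2) z (-v) * f z = -(F z * (2 * η z * lineDeriv ℝ η z v)) := by
    intro z hz'
    rw [ld_sq hz']
    by_cases hz : z ∈ ball (0 : ℂ) r1
    · rw [(hfF z hz).eq_of_nhds]
      ring
    · rw [hz0 z hz]
      ring
  have key := LipschitzWith.integral_lineDeriv_mul_eq (μ := volume) hfL hgL hgc v
  have i1 : Integrable (fun z => lineDeriv ℝ f z v * η z ^ 2) := by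
    have h2 : Integrable (fun z => η z ^ 2) :=
      hgL.continuous.integrable_of_hasCompactSupport hgc
    exact h2.bdd_mul (hfL.memLp_lineDeriv v).1 (c := D * ‖v‖)
      (.of_forall fun _ => norm_lineDeriv_le_of_lipschitz ℝ hfL)
  have i2 : Integrable (fun z => lineDeriv ℝ (fun z => η z ^ 2) z (-v) * f z) := by
    have h2 : Integrable f := hfL.continuous.integrable_of_hasCompactSupport hcf
    exact h2.bdd_mul (hgL.memLp_lineDeriv (-v)).1 (c := (2 * C : NNReal) * ‖-v‖)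
      (.of_forall fun _ => norm_lineDeriv_le_of_lipschitz ℝ hgL)
  have hae : (fun z => lineDeriv ℝ (fun z => η z ^ 2) z (-v) * f z) =ᵐ[volume]
      fun z => -(F z * (2 * η z * lineDeriv ℝ η z v)) := by
    filter_upwards [hη.ae_lineDifferentiableAt (μ := volume) (-v)] with z hz
    exact e2 z hz
  refine ⟨?_, ?_, ?_⟩
  · exact i1.congr (.of_forall e1)
  · have h3 := (i2.congr hae).neg
    refine h3.congr (.of_forall fun z => ?_)
    simp
  · rw [← integral_neg, ← integral_congr_ae hae, ← key]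
    exact integral_congr_ae (.of_forall fun z => (e1 z).symm)


theorem fd_diff {f : ℂ → ℝ} (hf : ContDiffOn ℝ 2 f (ball 0 1)) {z : ℂ} (hz : z ∈ ball (0 : ℂ) 1) :
    DifferentiableAt ℝ f z :=
  (hf.contDiffAt (isOpen_ball.mem_nhds hz)).differentiableAt (by norm_num)

theorem fd_contDiffOn {f : ℂ → ℝ} (hf : ContDiffOn ℝ 2 f (ball 0 1)) (a : ℂ) :
    ContDiffOn ℝ 1 (fun w => fderiv ℝ f w a) (ball 0 1) :=
  (hf.fderiv_of_isOpen isOpen_ball (by norm_num)).clm_apply contDiffOn_const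

theorem fd2_diff {f : ℂ → ℝ} (hf : ContDiffOn ℝ 2 f (ball 0 1)) {z : ℂ}
    (hz : z ∈ ball (0 : ℂ) 1) (a : ℂ) : DifferentiableAt ℝ (fun w => fderiv ℝ f w a) z :=
  ((fd_contDiffOn hf a).contDiffAt (isOpen_ball.mem_nhds hz)).differentiableAt (by norm_num)

theorem fd_add {f g : ℂ → ℝ} (hf : ContDiffOn ℝ 2 f (ball 0 1))
    (hg : ContDiffOn ℝ 2 g (ball 0 1)) {z : ℂ} (hz : z ∈ ball (0 : ℂ) 1) (a : ℂ) :
    fderiv ℝ (fun w => f w + g w) z a = fderiv ℝ f z a + fderiv ℝ g z a := by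
  rw [fderiv_fun_add (fd_diff hf hz) (fd_diff hg hz)]
  rfl

theorem fd_mul {f : ℂ → ℝ} (α : ℝ) (hf : ContDiffOn ℝ 2 f (ball 0 1)) {z : ℂ}
    (hz : z ∈ ball (0 : ℂ) 1) (a : ℂ) :
    fderiv ℝ (fun w => α * f w) z a = α * fderiv ℝ f z a := by
  rw [fderiv_const_mul (fd_diff hf hz)]
  rfl

theorem fd2_add {f g : ℂ → ℝ} (hf : ContDiffOn ℝ 2 f (ball 0 1))
    (hg : ContDiffOn ℝ 2 g (ball 0 1)) {z : ℂ} (hz : z ∈ ball (0 : ℂ) 1) (a : ℂ) :
    fderiv ℝ (fun w => fderiv ℝ (fun w => f w + g w) w a) z a =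
      fderiv ℝ (fun w => fderiv ℝ f w a) z a + fderiv ℝ (fun w => fderiv ℝ g w a) z a := by
  have h1 : (fun w => fderiv ℝ (fun w => f w + g w) w a) =ᶠ[𝓝 z]
      fun w => fderiv ℝ f w a + fderiv ℝ g w a := by
    filter_upwards [isOpen_ball.mem_nhds hz] with w hw
    exact fd_add hf hg hw a
  rw [h1.fderiv_eq, fderiv_fun_add (fd2_diff hf hz a) (fd2_diff hg hz a)]
  rfl

theorem fd2_mul {f : ℂ → ℝ} (α : ℝ) (hf : ContDiffOn ℝ 2 f (ball 0 1)) {z : ℂ}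
    (hz : z ∈ ball (0 : ℂ) 1) (a : ℂ) :
    fderiv ℝ (fun w => fderiv ℝ (fun w => α * f w) w a) z a =
      α * fderiv ℝ (fun w => fderiv ℝ f w a) z a := by
  have h1 : (fun w => fderiv ℝ (fun w => α * f w) w a) =ᶠ[𝓝 z]
      fun w => α * fderiv ℝ f w a := by
    filter_upwards [isOpen_ball.mem_nhds hz] with w hw
    exact fd_mul α hf hw a
  rw [h1.fderiv_eq, fderiv_const_mul (fd2_diff hf hz a)]
  rfl

theorem dF {ψ Ψ : ℂ → ℝ} (hψ : ContDiffOn ℝ 2 ψ (ball 0 1)) (hΨ : ContDiffOn ℝ 2 Ψ (ball 0 1))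
    {z : ℂ} (hz : z ∈ ball (0 : ℂ) 1) (a : ℂ) :
    fderiv ℝ (fun w => Real.exp (-2 * ψ w) * fderiv ℝ Ψ w a) z a =
      Real.exp (-2 * ψ z) * (fderiv ℝ (fun w => fderiv ℝ Ψ w a) z a
        - 2 * fderiv ℝ ψ z a * fderiv ℝ Ψ z a) := by
  have h1 : HasFDerivAt (fun w => Real.exp (-2 * ψ w))
      (Real.exp (-2 * ψ z) • ((-2 : ℝ) • fderiv ℝ ψ z)) z :=
    ((fd_diff hψ hz).hasFDerivAt.const_mul (-2)).exp
  have h2 : HasFDerivAt (fun w => fderiv ℝ Ψ w a) (fderiv ℝ (fun w => fderiv ℝ Ψ w a) z) z :=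
    (fd2_diff hΨ hz a).hasFDerivAt
  rw [(h1.fun_mul h2).fderiv]
  simp only [add_apply, smul_apply, smul_eq_mul]
  ring

theorem contF {ψ Ψ : ℂ → ℝ} (hψ : ContDiffOn ℝ 2 ψ (ball 0 1))
    (hΨ : ContDiffOn ℝ 2 Ψ (ball 0 1)) (a : ℂ) :
    ContDiffOn ℝ 1 (fun w => Real.exp (-2 * ψ w) * fderiv ℝ Ψ w a) (ball 0 1) := by
  have h1 : ContDiffOn ℝ 1 ψ (ball 0 1) := hψ.of_le (by norm_num)
  exact (contDiffOn_const.mul h1).exp.mul (fd_contDiffOn hΨ a)

theorem alg {α N p1 p2 v1 v2 l1 l2 : ℝ} (hα0 : 0 < α) (hα2 : α < 2) :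
    -((l1 ^ 2 + l2 ^ 2) / (2 - α)) ≤
      N ^ 2 * (α * (v1 ^ 2 + v2 ^ 2) + 2 * (p1 * (p1 + α * v1) + p2 * (p2 + α * v2)))
        - 2 * N * ((p1 + α * v1) * l1 + (p2 + α * v2) * l2) := by
  have h2 : 0 < 2 - α := by linarith
  have e : N ^ 2 * (α * (v1 ^ 2 + v2 ^ 2) + 2 * (p1 * (p1 + α * v1) + p2 * (p2 + α * v2)))
        - 2 * N * ((p1 + α * v1) * l1 + (p2 + α * v2) * l2) + (l1 ^ 2 + l2 ^ 2) / (2 - α) =
      N ^ 2 * (α * ((p1 - (1 - α) * v1) ^ 2 + (p2 - (1 - α) * v2) ^ 2)) +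
        (2 - α) * ((N * (p1 + α * v1) - l1 / (2 - α)) ^ 2 +
          (N * (p2 + α * v2) - l2 / (2 - α)) ^ 2) := by
    field_simp
    ring
  have h3 : 0 ≤ N ^ 2 * (α * ((p1 - (1 - α) * v1) ^ 2 + (p2 - (1 - α) * v2) ^ 2)) +
        (2 - α) * ((N * (p1 + α * v1) - l1 / (2 - α)) ^ 2 +
          (N * (p2 + α * v2) - l2 / (2 - α)) ^ 2) := by positivity
  linarith

theorem int4 {f1 f2 f3 f4 : ℂ → ℝ} (h1 : Integrable f1) (h2 : Integrable f2)
    (h3 : Integrable f3) (h4 : Integrable f4) :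
    Integrable (fun z => -(f1 z) - f2 z - f3 z - f4 z) ∧
      ∫ z, (-(f1 z) - f2 z - f3 z - f4 z) = -(∫ z, f1 z) - (∫ z, f2 z) - (∫ z, f3 z) -
        ∫ z, f4 z := by
  have i1 : Integrable (fun z => -(f1 z)) := h1.neg
  have i2 : Integrable (fun z => -(f1 z) - f2 z) := i1.sub h2
  have i3 : Integrable (fun z => -(f1 z) - f2 z - f3 z) := i2.sub h3
  refine ⟨i3.sub h4, ?_⟩
  rw [integral_sub i3 h4, integral_sub i2 h3, integral_sub i1 h2, integral_neg]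

/-- The pointwise estimate. -/
theorem point {α ε B R N p1 p2 v1 v2 l1 l2 r hz L : ℝ} (hα0 : 0 < α) (hα2 : α < 2)
    (hε : 0 < ε) (hR : 0 < R) (hB : |hz| ≤ B) (hl1 : |l1| ≤ Real.exp r / R)
    (hl2 : |l2| ≤ Real.exp r / R)
    (hin : ε * Real.exp (2 * r) + α * (v1 ^ 2 + v2 ^ 2) ≤ -L) :
    ε * Real.exp (-2 * B) * N ^ 2 - 2 * Real.exp (2 * B) / ((2 - α) * R ^ 2) ≤
      Real.exp (-2 * (r + hz)) * (N ^ 2 * (-L + 2 * (p1 * (p1 + α * v1) + p2 * (p2 + α * v2)))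
        - 2 * N * ((p1 + α * v1) * l1 + (p2 + α * v2) * l2)) := by
  have h2 : 0 < 2 - α := by linarith
  set E := Real.exp (-2 * (r + hz)) with hE
  have hE0 : 0 < E := Real.exp_pos _
  have hEr : E * Real.exp (2 * r) = Real.exp (-2 * hz) := by
    rw [hE, ← Real.exp_add]
    ring_nf
  have hl : l1 ^ 2 + l2 ^ 2 ≤ 2 * (Real.exp (2 * r) / R ^ 2) := by
    have e1 : Real.exp (2 * r) / R ^ 2 = (Real.exp r / R) ^ 2 := by
      rw [div_pow, ← Real.exp_nat_mul]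
      norm_num
    have e2 : l1 ^ 2 ≤ (Real.exp r / R) ^ 2 := by
      rw [← sq_abs l1]
      exact pow_le_pow_left₀ (abs_nonneg _) hl1 2
    have e3 : l2 ^ 2 ≤ (Real.exp r / R) ^ 2 := by
      rw [← sq_abs l2]
      exact pow_le_pow_left₀ (abs_nonneg _) hl2 2
    rw [e1]
    linarith
  have ha := alg (N := N) (p1 := p1) (p2 := p2) (v1 := v1) (v2 := v2) (l1 := l1) (l2 := l2)
    hα0 hα2
  have hN : 0 ≤ N ^ 2 := sq_nonneg N
  have h4 : N ^ 2 * (ε * Real.exp (2 * r)) - 2 * (Real.exp (2 * r) / R ^ 2) / (2 - α) ≤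
      N ^ 2 * (-L + 2 * (p1 * (p1 + α * v1) + p2 * (p2 + α * v2)))
        - 2 * N * ((p1 + α * v1) * l1 + (p2 + α * v2) * l2) := by
    have e4 : N ^ 2 * (ε * Real.exp (2 * r) + α * (v1 ^ 2 + v2 ^ 2)) ≤ N ^ 2 * (-L) :=
      mul_le_mul_of_nonneg_left hin hN
    have e5 : (l1 ^ 2 + l2 ^ 2) / (2 - α) ≤ 2 * (Real.exp (2 * r) / R ^ 2) / (2 - α) :=
      div_le_div_of_nonneg_right hl h2.le
    nlinarith [ha, e4, e5]
  have h5 := mul_le_mul_of_nonneg_left h4 hE0.le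
  refine le_trans ?_ h5
  have e6 : E * (N ^ 2 * (ε * Real.exp (2 * r)) - 2 * (Real.exp (2 * r) / R ^ 2) / (2 - α)) =
      ε * Real.exp (-2 * hz) * N ^ 2 - 2 * Real.exp (-2 * hz) / ((2 - α) * R ^ 2) := by
    rw [← hEr]
    field_simp
  rw [e6]
  have hb := abs_le.1 hB
  have h6 : Real.exp (-2 * B) ≤ Real.exp (-2 * hz) := Real.exp_le_exp.2 (by linarith)
  have h7 : Real.exp (-2 * hz) ≤ Real.exp (2 * B) := Real.exp_le_exp.2 (by linarith)
  have h8 : ε * Real.exp (-2 * B) * N ^ 2 ≤ ε * Real.exp (-2 * hz) * N ^ 2 := by gcongr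
  have h9 : 2 * Real.exp (-2 * hz) / ((2 - α) * R ^ 2) ≤
      2 * Real.exp (2 * B) / ((2 - α) * R ^ 2) := by
    gcongr
  linarith

end Pool.Agent.SU2H.DiscPDEAux

namespace Pool.Agent.SU2H

open MeasureTheory Metric Set Filter Topology DiscPDEAux

theorem disc_nonexist {ρ h v : ℂ → ℝ} {α ε B : ℝ}
    (hρ : ContDiffOn ℝ 2 ρ (Metric.ball 0 1)) (hh : ContDiffOn ℝ 2 h (Metric.ball 0 1))
    (hv : ContDiffOn ℝ 2 v (Metric.ball 0 1)) (hα0 : 0 < α) (hα2 : α < 2) (hε : 0 < ε)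
    (hB : ∀ z ∈ Metric.ball (0 : ℂ) 1, |h z| ≤ B)
    (hineq : ∀ z ∈ Metric.ball (0 : ℂ) 1,
      ε * Real.exp (2 * ρ z) + α * ((fderiv ℝ v z 1) ^ 2 + (fderiv ℝ v z Complex.I) ^ 2)
        ≤ -(lap ρ z + lap h z + α * lap v z))
    (hcomp : Complete (Metric.ball 0 1) (fun z => Real.exp (ρ z))) : False := by
  classical
  set ψ : ℂ → ℝ := fun w => ρ w + h w with hψd
  set Ψ : ℂ → ℝ := fun w => ψ w + α * v w with hΨd
  have hψ : ContDiffOn ℝ 2 ψ (ball 0 1) := hρ.add hh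
  have hαv : ContDiffOn ℝ 2 (fun w => α * v w) (ball 0 1) := contDiffOn_const.mul hv
  have hΨ : ContDiffOn ℝ 2 Ψ (ball 0 1) := hψ.add hαv
  have hfd : ∀ z ∈ ball (0 : ℂ) 1, ∀ a, fderiv ℝ Ψ z a = fderiv ℝ ψ z a + α * fderiv ℝ v z a := by
    intro z hz a
    rw [← fd_mul α hv hz a]
    exact fd_add hψ hαv hz a
  have hlap : ∀ z ∈ ball (0 : ℂ) 1, fderiv ℝ (fun w => fderiv ℝ Ψ w 1) z 1 +
      fderiv ℝ (fun w => fderiv ℝ Ψ w Complex.I) z Complex.I =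
        lap ρ z + lap h z + α * lap v z := by
    intro z hz
    have e : ∀ a, fderiv ℝ (fun w => fderiv ℝ Ψ w a) z a =
        fderiv ℝ (fun w => fderiv ℝ ρ w a) z a + fderiv ℝ (fun w => fderiv ℝ h w a) z a +
          α * fderiv ℝ (fun w => fderiv ℝ v w a) z a := by
      intro a
      rw [← fd2_mul α hv hz a, ← fd2_add hρ hh hz a]
      exact fd2_add hψ hαv hz a
    rw [e, e]
    unfold lap
    ring
  obtain ⟨r, hr, hrD, M, hM⟩ := exists_cutoff isOpen_ball (convex_ball 0 1)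
    (mem_ball_self one_pos) (hρ.continuousOn.rexp) (fun z _ => Real.exp_pos _) hcomp
  -- the constants
  set A : ℝ := ε * Real.exp (-2 * B) with hA
  have hA0 : 0 < A := mul_pos hε (Real.exp_pos _)
  have h2α : 0 < 2 - α := by linarith
  set V1 : ℝ := volume.real (ball (0 : ℂ) 1) with hV1
  set Vr : ℝ := volume.real (ball (0 : ℂ) r) with hVr
  have hVr0 : 0 < Vr := by
    rw [hVr, measureReal_def]
    exact ENNReal.toReal_pos (measure_ball_pos _ _ hr).ne' measure_ball_lt_top.ne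
  have hV10 : 0 ≤ V1 := measureReal_nonneg
  set Q : ℝ := 4 * (2 * Real.exp (2 * B)) * V1 / ((2 - α) * A * Vr) with hQ
  have hQ0 : 0 ≤ Q := by positivity
  set R : ℝ := 2 * |M| + 1 + Q with hRd
  have hR1 : 1 ≤ R := by
    have := abs_nonneg M
    linarith
  have hR0 : 0 < R := by linarith
  obtain ⟨η, ⟨C, hηL⟩, h0, h1, hc, hs, hld, hlow⟩ := hM R hR0
  have hMR : 1 / 2 ≤ 1 - M / R := by
    have e1 : M / R ≤ 1 / 2 := by
      rw [div_le_iff₀ hR0]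
      have := le_abs_self M
      linarith
    linarith
  -- integration by parts
  obtain ⟨i1, j1, k1⟩ := ibp (contF hψ hΨ 1) hηL h0 h1 hc hs 1
  obtain ⟨i2, j2, k2⟩ := ibp (contF hψ hΨ Complex.I) hηL h0 h1 hc hs Complex.I
  set c : ℝ := 2 * Real.exp (2 * B) / ((2 - α) * R ^ 2) with hcd
  have hc0 : 0 ≤ c := by positivity
  let G : ℂ → ℝ := fun z =>
    -(fderiv ℝ (fun w => Real.exp (-2 * ψ w) * fderiv ℝ Ψ w 1) z 1 * η z ^ 2) -
      fderiv ℝ (fun w => Real.exp (-2 * ψ w) * fderiv ℝ Ψ w Complex.I) z Complex.I * η z ^ 2 -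
      Real.exp (-2 * ψ z) * fderiv ℝ Ψ z 1 * (2 * η z * lineDeriv ℝ η z 1) -
      Real.exp (-2 * ψ z) * fderiv ℝ Ψ z Complex.I * (2 * η z * lineDeriv ℝ η z Complex.I)
  obtain ⟨hGi, hGe⟩ := int4 i1 i2 j1 j2
  replace hGi : Integrable G := hGi
  have hG0 : ∫ z, G z = 0 := by
    refine hGe.trans ?_
    rw [k1, k2]
    ring
  have hGD : ∀ z ∈ ball (0 : ℂ) 1, A * η z ^ 2 - c ≤ G z := by
    intro z hz
    have hp := point (N := η z) (p1 := fderiv ℝ ψ z 1) (p2 := fderiv ℝ ψ z Complex.I)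
      (v1 := fderiv ℝ v z 1) (v2 := fderiv ℝ v z Complex.I) (l1 := lineDeriv ℝ η z 1)
      (l2 := lineDeriv ℝ η z Complex.I) (r := ρ z) (hz := h z) hα0 hα2 hε hR0 (hB z hz)
      (by simpa using hld z hz 1) (by simpa using hld z hz Complex.I) (hineq z hz)
    refine hp.trans (le_of_eq ?_)
    change _ = -(fderiv ℝ (fun w => Real.exp (-2 * ψ w) * fderiv ℝ Ψ w 1) z 1 * η z ^ 2) -
      fderiv ℝ (fun w => Real.exp (-2 * ψ w) * fderiv ℝ Ψ w Complex.I) z Complex.I * η z ^ 2 -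
      Real.exp (-2 * ψ z) * fderiv ℝ Ψ z 1 * (2 * η z * lineDeriv ℝ η z 1) -
      Real.exp (-2 * ψ z) * fderiv ℝ Ψ z Complex.I * (2 * η z * lineDeriv ℝ η z Complex.I)
    rw [dF hψ hΨ hz, dF hψ hΨ hz, ← hlap z hz, hfd z hz, hfd z hz]
    have e3 : Real.exp (-2 * (ρ z + h z)) = Real.exp (-2 * ψ z) := rfl
    rw [e3]
    ring
  have hGout : ∀ z, z ∉ ball (0 : ℂ) 1 → G z = 0 := by
    intro z hz
    have e1 : η z = 0 := image_eq_zero_of_notMem_tsupport fun hcon => hz (hs hcon)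
    change -(_ * η z ^ 2) - _ * η z ^ 2 - _ * (2 * η z * _) - _ * (2 * η z * _) = 0
    rw [e1]
    ring
  have hGle : ∀ z, (ball (0 : ℂ) r).indicator (fun _ => A / 4) z -
      (ball (0 : ℂ) 1).indicator (fun _ => c) z ≤ G z := by
    intro z
    by_cases hz : z ∈ ball (0 : ℂ) 1
    · rw [indicator_of_mem hz]
      refine le_trans ?_ (hGD z hz)
      by_cases hz' : z ∈ ball (0 : ℂ) r
      · rw [indicator_of_mem hz']
        have e1 : 1 / 2 ≤ η z := hMR.trans (hlow z hz')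
        have e2 : (1 / 2 : ℝ) ^ 2 ≤ η z ^ 2 := pow_le_pow_left₀ (by norm_num) e1 2
        nlinarith
      · rw [indicator_of_notMem hz']
        have e2 : 0 ≤ A * η z ^ 2 := by positivity
        linarith
    · rw [indicator_of_notMem hz, indicator_of_notMem (fun h => hz (hrD h)), hGout z hz]
      norm_num
  have hI1 : Integrable ((ball (0 : ℂ) r).indicator (fun _ => A / 4)) :=
    (integrable_indicator_iff measurableSet_ball).2
      (integrableOn_const (measure_ball_lt_top.ne))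
  have hI2 : Integrable ((ball (0 : ℂ) 1).indicator (fun _ => c)) :=
    (integrable_indicator_iff measurableSet_ball).2
      (integrableOn_const (measure_ball_lt_top.ne))
  have hint : ∫ z, ((ball (0 : ℂ) r).indicator (fun _ => A / 4) z -
      (ball (0 : ℂ) 1).indicator (fun _ => c) z) ≤ ∫ z, G z :=
    integral_mono (hI1.sub hI2) hGi hGle
  rw [hG0, integral_sub hI1 hI2, integral_indicator_const _ measurableSet_ball,
    integral_indicator_const _ measurableSet_ball, smul_eq_mul, smul_eq_mul] at hint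
  have hfin : Vr * (A / 4) ≤ V1 * c := by linarith
  have e9 : R ^ 2 ≤ Q := by
    rw [hQ, le_div_iff₀ (by positivity)]
    have e10 : V1 * c * ((2 - α) * R ^ 2) = V1 * (2 * Real.exp (2 * B)) := by
      rw [hcd]
      field_simp
    have e11 := mul_le_mul_of_nonneg_right hfin (by positivity : 0 ≤ (2 - α) * R ^ 2)
    rw [e10] at e11
    nlinarith
  have e12 : R ≤ R ^ 2 := by nlinarith
  have := abs_nonneg M
  linarith

end Pool.Agent.SU2H
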