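import Pool.Agent.Lib.SU2H.Geom
import Pool.Agent.Lib.SU2H.DiscPDE

/-!
# Discs

Proof sketch.  `D` is the unit disc, `u > 0` the Jacobi function, `v = log u`, `ρ = log (lam)/2`,
`h = G ∘ mm` (`G` from `Good`; `mm z = P.m > 0` because `P.n = nrm ℓ φ z`, all `sc ℓ i > 0` and
`P.n` is a unit vector; `mm` takes values in the compact interval `[cmin/2, cmax/2]`, so `h` is
bounded).  On `D`: `lap v = lap u / u - |∇v|² = -lam * pot - |∇v|²`,
`lap h = G2(mm) |∇mm|² + G1(mm) lap mm = lam (G2 Gm + G1 Dm)`, `lap ρ = - lam K`.  Hence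
`-(lap ρ + lap h + α lap v) = lam (K + α q - (G2 Gm + G1 Dm)) + α |∇v|² ≥ ε lam + α|∇v|²` and
`lam = exp (2ρ)`.  Apply `disc_nonexist`; `Complete` is for `w = √lam = exp ρ` on `D` (the two
functions agree on `D`, and `Reach` only sees the values on `D`: prove a small congruence lemma).
-/

noncomputable section

namespace Pool.Agent.SU2H

open scoped Quaternion ContDiff

namespace DiscFinalAux

open Metric Set Filter Topology DiscPDEAux

/-- first derivative of a composition -/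
theorem chain1 {F F1 : ℝ → ℝ} {f : ℂ → ℝ} (hf : ContDiffOn ℝ 2 f (ball 0 1))
    (hF : ∀ t > 0, HasDerivAt F (F1 t) t) (hpos : ∀ z ∈ ball (0 : ℂ) 1, 0 < f z) {z : ℂ}
    (hz : z ∈ ball (0 : ℂ) 1) (a : ℂ) :
    fderiv ℝ (fun w => F (f w)) z a = F1 (f z) * fderiv ℝ f z a := by
  have h1 : HasFDerivAt (fun w => F (f w)) (F1 (f z) • fderiv ℝ f z) z :=
    (hF _ (hpos z hz)).comp_hasFDerivAt z (fd_diff hf hz).hasFDerivAt
  rw [h1.fderiv]
  rfl

theorem chain2 {F F1 F2 : ℝ → ℝ} {f : ℂ → ℝ} (hf : ContDiffOn ℝ 2 f (ball 0 1))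
    (hF : ∀ t > 0, HasDerivAt F (F1 t) t) (hF1 : ∀ t > 0, HasDerivAt F1 (F2 t) t)
    (hpos : ∀ z ∈ ball (0 : ℂ) 1, 0 < f z) {z : ℂ} (hz : z ∈ ball (0 : ℂ) 1) (a : ℂ) :
    fderiv ℝ (fun w => fderiv ℝ (fun w => F (f w)) w a) z a =
      F2 (f z) * (fderiv ℝ f z a) ^ 2 + F1 (f z) * fderiv ℝ (fun w => fderiv ℝ f w a) z a := by
  have h1 : (fun w => fderiv ℝ (fun w => F (f w)) w a) =ᶠ[𝓝 z]
      fun w => F1 (f w) * fderiv ℝ f w a := by
    filter_upwards [isOpen_ball.mem_nhds hz] with w hw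
    exact chain1 hf hF hpos hw a
  have h2 : HasFDerivAt (fun w => F1 (f w)) (F2 (f z) • fderiv ℝ f z) z :=
    (hF1 _ (hpos z hz)).comp_hasFDerivAt z (fd_diff hf hz).hasFDerivAt
  have h3 := h2.mul (fd2_diff hf hz a).hasFDerivAt
  have h4 : HasFDerivAt (fun w => F1 (f w) * fderiv ℝ f w a) _ z := h3
  rw [h1.fderiv_eq, h4.fderiv]
  simp only [add_apply, smul_apply, smul_eq_mul]
  ring

theorem lap_comp {F F1 F2 : ℝ → ℝ} {f : ℂ → ℝ} (hf : ContDiffOn ℝ 2 f (ball 0 1))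
    (hF : ∀ t > 0, HasDerivAt F (F1 t) t) (hF1 : ∀ t > 0, HasDerivAt F1 (F2 t) t)
    (hpos : ∀ z ∈ ball (0 : ℂ) 1, 0 < f z) {z : ℂ} (hz : z ∈ ball (0 : ℂ) 1) :
    lap (fun w => F (f w)) z =
      F2 (f z) * ((fderiv ℝ f z 1) ^ 2 + (fderiv ℝ f z Complex.I) ^ 2) + F1 (f z) * lap f z := by
  unfold lap
  rw [chain2 hf hF hF1 hpos hz 1, chain2 hf hF hF1 hpos hz Complex.I]
  ring

/-- a function with two derivatives on the positive reals is `C²` there -/
theorem contDiff_two {G G1 G2 : ℝ → ℝ} (hG : ∀ t > 0, HasDerivAt G (G1 t) t)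
    (hG1 : ∀ t > 0, HasDerivAt G1 (G2 t) t) (hG2 : ContinuousOn G2 (Ioi 0)) :
    ContDiffOn ℝ 2 G (Ioi 0) := by
  have h1 : ContDiffOn ℝ 1 G1 (Ioi 0) := by
    have e : ((1 : WithTop ℕ∞)) = 0 + 1 := by norm_num
    rw [e, contDiffOn_succ_iff_deriv_of_isOpen isOpen_Ioi]
    refine ⟨fun t ht => (hG1 t ht).differentiableAt.differentiableWithinAt, by simp, ?_⟩
    rw [contDiffOn_zero]
    exact hG2.congr fun t ht => (hG1 t ht).deriv
  have e : ((2 : WithTop ℕ∞)) = 1 + 1 := by norm_num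
  rw [e, contDiffOn_succ_iff_deriv_of_isOpen isOpen_Ioi]
  refine ⟨fun t ht => (hG t ht).differentiableAt.differentiableWithinAt, by simp, ?_⟩
  exact h1.congr fun t ht => (hG t ht).deriv

theorem reach_congr {D : Set ℂ} {w w' : ℂ → ℝ} (hw : ∀ z ∈ D, w z = w' z) {L : ℝ} {z : ℂ}
    (h : Reach D w L z) : Reach D w' L z := by
  induction h with
  | base => exact Reach.base
  | @step L z z' _ hs ih =>
    have e : (∫ t in (0 : ℝ)..1, w (z + (t : ℂ) * (z' - z)) * ‖z' - z‖) =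
        ∫ t in (0 : ℝ)..1, w' (z + (t : ℂ) * (z' - z)) * ‖z' - z‖ := by
      refine intervalIntegral.integral_congr fun t ht => ?_
      rw [uIcc_of_le zero_le_one] at ht
      rw [hw _ (hs (CutoffAux.mem_seg ht))]
    rw [e]
    exact Reach.step ih hs

theorem complete_congr {D : Set ℂ} {w w' : ℂ → ℝ} (hw : ∀ z ∈ D, w z = w' z)
    (h : Complete D w) : Complete D w' := by
  intro L
  obtain ⟨K, h1, h2, h3⟩ := h L
  exact ⟨K, h1, h2, fun L' z hL hr => h3 L' z hL (reach_congr (fun z hz => (hw z hz).symm) hr)⟩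

theorem sc_pos {ℓ : Fin 3 → ℝ} (hℓ : ∀ i, 0 < ℓ i) (i : Fin 3) : 0 < sc ℓ i := by
  unfold sc
  have h0 := hℓ 0
  have h1 := hℓ 1
  have h2 := hℓ 2
  have hi := hℓ i
  positivity

/-- bounds for the quadratic form on unit vectors -/
theorem cq_bounds {c : Fin 3 → ℝ} (hc : ∀ i, 0 < c i) : ∃ a b : ℝ, 0 < a ∧ a ≤ b ∧
    ∀ n : Fin 3 → ℝ, ∑ i, n i * n i = 1 → a ≤ cq c n n ∧ cq c n n ≤ b := by
  refine ⟨min (c 0) (min (c 1) (c 2)), c 0 + c 1 + c 2, ?_, ?_, ?_⟩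
  · exact lt_min (hc 0) (lt_min (hc 1) (hc 2))
  · have := min_le_left (c 0) (min (c 1) (c 2))
    linarith [hc 1, hc 2]
  · intro n hn
    set a := min (c 0) (min (c 1) (c 2)) with ha
    have h0 : a ≤ c 0 := min_le_left _ _
    have h1 : a ≤ c 1 := (min_le_right _ _).trans (min_le_left _ _)
    have h2 : a ≤ c 2 := (min_le_right _ _).trans (min_le_right _ _)
    have c0 := hc 0
    have c1 := hc 1
    have c2 := hc 2
    simp only [cq, Fin.sum_univ_three] at hn ⊢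
    constructor
    · nlinarith [mul_nonneg (sub_nonneg.2 h0) (mul_self_nonneg (n 0)),
        mul_nonneg (sub_nonneg.2 h1) (mul_self_nonneg (n 1)),
        mul_nonneg (sub_nonneg.2 h2) (mul_self_nonneg (n 2))]
    · nlinarith [mul_nonneg c0.le (mul_self_nonneg (n 1)), mul_nonneg c0.le (mul_self_nonneg (n 2)),
        mul_nonneg c1.le (mul_self_nonneg (n 0)), mul_nonneg c1.le (mul_self_nonneg (n 2)),
        mul_nonneg c2.le (mul_self_nonneg (n 0)), mul_nonneg c2.le (mul_self_nonneg (n 1))]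

end DiscFinalAux

open DiscFinalAux in
theorem disc_final {ℓ : Fin 3 → ℝ} {φ : ℂ → ℍ[ℝ]} {H : ℝ} (hℓ : ∀ i, 0 < ℓ i)
    (h : IsConfHSurface ℓ (Metric.ball 0 1) φ H)
    (hcomp : Complete (Metric.ball 0 1) (fun z => √(lam ℓ φ z))) (hgood : Good (sc ℓ) H) :
    ¬ StronglyStable ℓ (Metric.ball 0 1) φ := by
  rintro ⟨u, huC, hupos, hueq⟩
  obtain ⟨hlamC, hmmC, hP⟩ := geom hℓ Metric.isOpen_ball h
  obtain ⟨α, ε, G, G1, G2, hα0, hα2, hε, hG, hG1, hG2, hineq⟩ := hgood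
  obtain ⟨a, b, ha, hab, hbd⟩ := cq_bounds (sc_pos hℓ)
  have hmem : ∀ z ∈ Metric.ball (0 : ℂ) 1, mm ℓ φ z ∈ Set.Icc (a / 2) (b / 2) := by
    intro z hz
    obtain ⟨P, hn, -⟩ := hP z hz
    have h1 := hbd _ P.o33
    rw [hn] at h1
    exact ⟨by unfold mm; linarith [h1.1], by unfold mm; linarith [h1.2]⟩
  have hmpos : ∀ z ∈ Metric.ball (0 : ℂ) 1, 0 < mm ℓ φ z := fun z hz =>
    lt_of_lt_of_le (by linarith) (hmem z hz).1
  have hlamC2 : ContDiffOn ℝ 2 (lam ℓ φ) (Metric.ball 0 1) := hlamC.of_le (by norm_cast)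
  have hmmC2 : ContDiffOn ℝ 2 (mm ℓ φ) (Metric.ball 0 1) := hmmC.of_le (by norm_cast)
  have hGc := contDiff_two hG hG1 hG2
  have hGcont : ContinuousOn G (Set.Icc (a / 2) (b / 2)) := fun t ht =>
    (hG t (lt_of_lt_of_le (by linarith) ht.1)).continuousAt.continuousWithinAt
  obtain ⟨B, hB⟩ := isCompact_Icc.exists_bound_of_continuousOn hGcont
  have hρC : ContDiffOn ℝ 2 (fun z => Real.log (lam ℓ φ z) / 2) (Metric.ball 0 1) :=
    (hlamC2.log fun z hz => (h.immersed z hz).ne').div_const 2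
  have hhC : ContDiffOn ℝ 2 (fun z => G (mm ℓ φ z)) (Metric.ball 0 1) :=
    hGc.comp hmmC2 fun z hz => hmpos z hz
  have hvC : ContDiffOn ℝ 2 (fun z => Real.log (u z)) (Metric.ball 0 1) :=
    huC.log fun z hz => (hupos z hz).ne'
  have hlog : ∀ t > (0 : ℝ), HasDerivAt Real.log (t⁻¹) t := fun t ht => Real.hasDerivAt_log ht.ne'
  have hinv : ∀ t > (0 : ℝ), HasDerivAt (fun t : ℝ => t⁻¹) (-(t ^ 2)⁻¹) t := fun t ht =>
    hasDerivAt_inv ht.ne'
  refine disc_nonexist (ρ := fun z => Real.log (lam ℓ φ z) / 2) (h := fun z => G (mm ℓ φ z))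
    (v := fun z => Real.log (u z)) (B := B) hρC hhC hvC hα0 hα2 hε ?_ ?_ ?_
  · intro z hz
    have := hB _ (hmem z hz)
    rwa [Real.norm_eq_abs] at this
  · intro z hz
    obtain ⟨P, hn, hK, hD, hGr, hq⟩ := hP z hz
    have hm : mm ℓ φ z = P.m := by unfold mm PtData.m; rw [hn]
    have hlpos := h.immersed z hz
    have hu := hupos z hz
    have e1 : Real.exp (2 * (Real.log (lam ℓ φ z) / 2)) = lam ℓ φ z := by
      rw [mul_div_cancel₀ _ (two_ne_zero), Real.exp_log hlpos]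
    have e2 : lap (fun w => G (mm ℓ φ w)) z =
        G2 P.m * (lam ℓ φ z * P.Gm) + G1 P.m * (lam ℓ φ z * P.Dm) := by
      rw [lap_comp hmmC2 hG hG1 hmpos hz, hGr, hD, hm]
    have e3 : lap (fun w => Real.log (u w)) z =
        -((u z ^ 2)⁻¹) * ((fderiv ℝ u z 1) ^ 2 + (fderiv ℝ u z Complex.I) ^ 2) +
          (u z)⁻¹ * lap u z :=
      lap_comp huC hlog hinv hupos hz
    have e4 : ∀ x : ℂ, fderiv ℝ (fun w => Real.log (u w)) z x = (u z)⁻¹ * fderiv ℝ u z x :=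
      fun x => chain1 huC hlog hupos hz x
    have e5 : lap u z = -(lam ℓ φ z * P.q * u z) := by
      have h1 := hueq z hz
      rw [hq] at h1
      have h2 : lap u z = lam ℓ φ z * ((lam ℓ φ z)⁻¹ * lap u z) := by
        rw [← mul_assoc, mul_inv_cancel₀ hlpos.ne', one_mul]
      rw [h2]
      have h3 : (lam ℓ φ z)⁻¹ * lap u z = -(P.q * u z) := by linarith
      rw [h3]
      ring
    have e6 : (u z)⁻¹ * lap u z = -(lam ℓ φ z * P.q) := by
      rw [e5]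
      field_simp
    rw [e1, hK, e2, e3, e4, e4, e6]
    have h7 := mul_le_mul_of_nonneg_left (hineq P) hlpos.le
    have e8 : (u z ^ 2)⁻¹ = (u z)⁻¹ ^ 2 := by rw [inv_pow]
    rw [e8]
    nlinarith [h7]
  · refine complete_congr (fun z hz => ?_) hcomp
    have hlpos := h.immersed z hz
    rw [Real.sqrt_eq_rpow, Real.rpow_def_of_pos hlpos]
    congr 1
    ring

end Pool.Agent.SU2H
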