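import Pool.Agent.Lib.SU2H.PtLemmas

/-! # Real orthonormal frames and the Levi-Civita connection -/

noncomputable section

namespace Pool.Agent.SU2H

namespace RealFrame

variable {e1 e2 : Fin 3 → ℝ} (h11 : dotProduct e1 e1 = 1) (h22 : dotProduct e2 e2 = 1)
  (h12 : dotProduct e1 e2 = 0)
include h11 h22 h12

theorem nn : dotProduct (crossProduct e1 e2) (crossProduct e1 e2) = 1 := by
  simp only [dotProduct, Fin.sum_univ_three, cross_apply, Matrix.cons_val_zero, Matrix.cons_val_one,
    Matrix.cons_val] at *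
  linear_combination (e2 0 ^ 2 + e2 1 ^ 2 + e2 2 ^ 2) * h11 + h22
    - (e1 0 * e2 0 + e1 1 * e2 1 + e1 2 * e2 2) * h12

omit h11 h22 h12 in
theorem n1 : dotProduct e1 (crossProduct e1 e2) = 0 := by
  simp only [dotProduct, Fin.sum_univ_three, cross_apply, Matrix.cons_val_zero, Matrix.cons_val_one,
    Matrix.cons_val]
  ring

omit h11 h22 h12 in
theorem n2 : dotProduct e2 (crossProduct e1 e2) = 0 := by
  simp only [dotProduct, Fin.sum_univ_three, cross_apply, Matrix.cons_val_zero, Matrix.cons_val_one,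
    Matrix.cons_val]
  ring

omit h11 in
theorem e2n (i : Fin 3) : crossProduct e2 (crossProduct e1 e2) i = e1 i := by
  simp only [dotProduct, Fin.sum_univ_three] at h22 h12
  fin_cases i <;> simp only [cross_apply, Matrix.cons_val_zero, Matrix.cons_val_one,
    Matrix.cons_val, Fin.zero_eta, Fin.mk_one, Fin.reduceFinMk]
  · linear_combination e1 0 * h22 - e2 0 * h12
  · linear_combination e1 1 * h22 - e2 1 * h12
  · linear_combination e1 2 * h22 - e2 2 * h12

omit h22 in
theorem e1n (i : Fin 3) : crossProduct e1 (crossProduct e1 e2) i = -e2 i := by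
  simp only [dotProduct, Fin.sum_univ_three] at h11 h12
  fin_cases i <;> simp only [cross_apply, Matrix.cons_val_zero, Matrix.cons_val_one,
    Matrix.cons_val, Fin.zero_eta, Fin.mk_one, Fin.reduceFinMk]
  · linear_combination -e2 0 * h11 + e1 0 * h12
  · linear_combination -e2 1 * h11 + e1 1 * h12
  · linear_combination -e2 2 * h11 + e1 2 * h12

omit h11 h22 h12 in
theorem conn_dot (c x y n : Fin 3 → ℝ) : dotProduct (conn c x y) n =
    ∑ i, ((c 0 + c 1 + c 2) / 2 - c i) * x i * crossProduct y n i := by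
  simp only [conn, dotProduct, Fin.sum_univ_three, cross_apply, Matrix.cons_val_zero,
    Matrix.cons_val_one, Matrix.cons_val]
  ring

theorem conn11 (c : Fin 3 → ℝ) : dotProduct (conn c e1 e1) (crossProduct e1 e2) = cq c e1 e2 := by
  rw [conn_dot]
  simp only [e1n h11 h12, Fin.sum_univ_three, cq]
  simp only [dotProduct, Fin.sum_univ_three] at h12
  linear_combination -((c 0 + c 1 + c 2) / 2) * h12

theorem conn12 (c : Fin 3 → ℝ) : dotProduct (conn c e1 e2) (crossProduct e1 e2) =
    (c 0 + c 1 + c 2) / 2 - cq c e1 e1 := by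
  rw [conn_dot]
  simp only [e2n h22 h12, Fin.sum_univ_three, cq]
  simp only [dotProduct, Fin.sum_univ_three] at h11
  linear_combination ((c 0 + c 1 + c 2) / 2) * h11

theorem conn22 (c : Fin 3 → ℝ) : dotProduct (conn c e2 e2) (crossProduct e1 e2) = -cq c e1 e2 := by
  rw [conn_dot]
  simp only [e2n h22 h12, Fin.sum_univ_three, cq]
  simp only [dotProduct, Fin.sum_univ_three] at h12
  linear_combination ((c 0 + c 1 + c 2) / 2) * h12

/-- the Ricci curvature of the normal is twice the determinant of `M` on the tangent plane -/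
theorem ric_frame (c : Fin 3 → ℝ) : ric c (crossProduct e1 e2) =
    2 * (((c 0 + c 1 + c 2) / 2 - cq c e1 e1) * ((c 0 + c 1 + c 2) / 2 - cq c e2 e2)
      - cq c e1 e2 ^ 2) := by
  have ha : ∑ i, ((c 0 + c 1 + c 2) / 2 - c i) * e1 i * e1 i =
      (c 0 + c 1 + c 2) / 2 - cq c e1 e1 := by
    simp only [cq, Fin.sum_univ_three]
    simp only [dotProduct, Fin.sum_univ_three] at h11
    linear_combination ((c 0 + c 1 + c 2) / 2) * h11
  have hb : ∑ i, ((c 0 + c 1 + c 2) / 2 - c i) * e2 i * e2 i =
      (c 0 + c 1 + c 2) / 2 - cq c e2 e2 := by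
    simp only [cq, Fin.sum_univ_three]
    simp only [dotProduct, Fin.sum_univ_three] at h22
    linear_combination ((c 0 + c 1 + c 2) / 2) * h22
  have hd : ∑ i, ((c 0 + c 1 + c 2) / 2 - c i) * e1 i * e2 i = -cq c e1 e2 := by
    simp only [cq, Fin.sum_univ_three]
    simp only [dotProduct, Fin.sum_univ_three] at h12
    linear_combination ((c 0 + c 1 + c 2) / 2) * h12
  have key : ric c (crossProduct e1 e2) =
      2 * ((∑ i, ((c 0 + c 1 + c 2) / 2 - c i) * e1 i * e1 i)
        * (∑ i, ((c 0 + c 1 + c 2) / 2 - c i) * e2 i * e2 i)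
        - (∑ i, ((c 0 + c 1 + c 2) / 2 - c i) * e1 i * e2 i) ^ 2) := by
    rw [ric_eq]
    simp only [Fin.sum_univ_three, cross_apply, Matrix.cons_val_zero, Matrix.cons_val_one,
      Matrix.cons_val]
    ring
  rw [key, ha, hb, hd]
  ring

end RealFrame

end Pool.Agent.SU2H
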