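import Pool.Agent.Lib.SU2H.Defs

/-!
# The ring of smooth functions on an open set, with its two partial derivatives

For an open set `D` of `ℂ` we need a commutative `ℝ`-algebra `R` of smooth real functions on `D`
with two commuting derivations.  Suggested construction: `R` is the subalgebra of `↥D → ℝ` of the
functions `F` such that the extension by zero `ext F : ℂ → ℝ` is `ContDiffOn ℝ ∞` on `D`;
`ext (F * G) = ext F * ext G`, `ext (F + G) = ext F + ext G`, and the extension of a constant is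
constant on `D`.  The derivation in the direction `v` is `F ↦ (z ↦ fderiv ℝ (ext F) z v)`
(`ContDiffOn.fderiv_of_isOpen`), and two such derivations commute by the symmetry of the second
derivative.  `ev z` is evaluation at `z` for `z ∈ D` (for `z ∉ D` use evaluation at a fixed point of
`D`).  Everything used later is packed in the existential statement below.
-/

noncomputable section

namespace Pool.Agent.SU2H

open scoped ContDiff

namespace RingAux

open Classical in
/-- Extension by zero. -/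
def ext {D : Set ℂ} (F : ↥D → ℝ) : ℂ → ℝ := fun z => if h : z ∈ D then F ⟨z, h⟩ else 0

theorem ext_of_mem {D : Set ℂ} (F : ↥D → ℝ) {z : ℂ} (h : z ∈ D) : ext F z = F ⟨z, h⟩ := by
  simp [ext, h]

/-- The subalgebra of smooth functions. -/
def smoothSub (D : Set ℂ) : Subalgebra ℝ (↥D → ℝ) where
  carrier := {F | ContDiffOn ℝ ∞ (ext F) D}
  mul_mem' := by
    intro F G hF hG
    refine (ContDiffOn.mul hF hG).congr ?_
    intro z hz
    simp [ext_of_mem _ hz]
  add_mem' := by
    intro F G hF hG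
    refine (ContDiffOn.add hF hG).congr ?_
    intro z hz
    simp [ext_of_mem _ hz]
  algebraMap_mem' := by
    intro r
    refine (contDiffOn_const (c := r)).congr ?_
    intro z hz
    simp [ext_of_mem _ hz]

theorem mem_smooth {D : Set ℂ} (F : smoothSub D) : ContDiffOn ℝ ∞ (ext F.1) D := F.2

theorem diffAt {D : Set ℂ} (hD : IsOpen D) (F : smoothSub D) {z : ℂ} (hz : z ∈ D) :
    DifferentiableAt ℝ (ext F.1) z :=
  ((mem_smooth F).contDiffAt (hD.mem_nhds hz)).differentiableAt (by simp)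

theorem eventually_ext {D : Set ℂ} (hD : IsOpen D) {F : ↥D → ℝ} {g : ℂ → ℝ}
    (h : ∀ z (hz : z ∈ D), F ⟨z, hz⟩ = g z) {z : ℂ} (hz : z ∈ D) :
    ext F =ᶠ[nhds z] g := by
  filter_upwards [hD.mem_nhds hz] with w hw
  rw [ext_of_mem _ hw, h w hw]

/-- The underlying function of the derivative in the direction `v`. -/
def dfun {D : Set ℂ} (v : ℂ) (F : ↥D → ℝ) : ↥D → ℝ := fun z => fderiv ℝ (ext F) z.1 v

theorem dfun_mem {D : Set ℂ} (hD : IsOpen D) (v : ℂ) (F : smoothSub D) :
    dfun v F.1 ∈ smoothSub D := by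
  have h1 : ContDiffOn ℝ ∞ (fderiv ℝ (ext F.1)) D :=
    (mem_smooth F).fderiv_of_isOpen hD (by simp)
  have h2 : ContDiffOn ℝ ∞ (fun z => fderiv ℝ (ext F.1) z v) D :=
    h1.clm_apply contDiffOn_const
  show ContDiffOn ℝ ∞ (ext (dfun v F.1)) D
  refine h2.congr ?_
  intro z hz
  rw [ext_of_mem _ hz]
  rfl

/-- The derivative in the direction `v` as a linear map. -/
def dlin {D : Set ℂ} (hD : IsOpen D) (v : ℂ) : smoothSub D →ₗ[ℝ] smoothSub D where
  toFun F := ⟨dfun v F.1, dfun_mem hD v F⟩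
  map_add' := by
    intro F G
    apply Subtype.ext
    funext z
    show fderiv ℝ (ext (F.1 + G.1)) z.1 v = fderiv ℝ (ext F.1) z.1 v + fderiv ℝ (ext G.1) z.1 v
    have h : ext (F.1 + G.1) =ᶠ[nhds z.1] (ext F.1 + ext G.1) := by
      apply eventually_ext hD _ z.2
      intro w hw
      simp [ext_of_mem _ hw]
    rw [h.fderiv_eq, fderiv_add (diffAt hD F z.2) (diffAt hD G z.2)]
    rfl
  map_smul' := by
    intro c F
    apply Subtype.ext
    funext z
    show fderiv ℝ (ext (c • F.1)) z.1 v = c * fderiv ℝ (ext F.1) z.1 v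
    have h : ext (c • F.1) =ᶠ[nhds z.1] (c • ext F.1) := by
      apply eventually_ext hD _ z.2
      intro w hw
      simp [ext_of_mem _ hw]
    rw [h.fderiv_eq, fderiv_const_smul (diffAt hD F z.2)]
    rfl

/-- The derivation in the direction `v`. -/
def der {D : Set ℂ} (hD : IsOpen D) (v : ℂ) : Derivation ℝ (smoothSub D) (smoothSub D) :=
  Derivation.mk' (dlin hD v) (by
    intro F G
    apply Subtype.ext
    funext z
    show fderiv ℝ (ext (F.1 * G.1)) z.1 v =
      F.1 z * fderiv ℝ (ext G.1) z.1 v + G.1 z * fderiv ℝ (ext F.1) z.1 v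
    have h : ext (F.1 * G.1) =ᶠ[nhds z.1] (ext F.1 * ext G.1) := by
      apply eventually_ext hD _ z.2
      intro w hw
      simp [ext_of_mem _ hw]
    rw [h.fderiv_eq, fderiv_mul (diffAt hD F z.2) (diffAt hD G z.2)]
    simp [ext_of_mem _ z.2])

theorem der_apply {D : Set ℂ} (hD : IsOpen D) (v : ℂ) (F : smoothSub D) (z : ℂ) (hz : z ∈ D) :
    (der hD v F).1 ⟨z, hz⟩ = fderiv ℝ (ext F.1) z v := rfl

theorem der_comm {D : Set ℂ} (hD : IsOpen D) (v w : ℂ) (F : smoothSub D) :
    der hD v (der hD w F) = der hD w (der hD v F) := by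
  apply Subtype.ext
  funext z
  obtain ⟨z, hz⟩ := z
  have key : ∀ a b : ℂ, (der hD a (der hD b F)).1 ⟨z, hz⟩ =
      fderiv ℝ (fderiv ℝ (ext F.1)) z a b := by
    intro a b
    rw [der_apply]
    have h : ext (der hD b F).1 =ᶠ[nhds z] (fun y => fderiv ℝ (ext F.1) y b) := by
      apply eventually_ext hD _ hz
      intro w hw
      rfl
    rw [h.fderiv_eq]
    have h1 : ContDiffOn ℝ ∞ (fderiv ℝ (ext F.1)) D :=
      (mem_smooth F).fderiv_of_isOpen hD (by simp)
    have h2 : DifferentiableAt ℝ (fderiv ℝ (ext F.1)) z :=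
      (h1.contDiffAt (hD.mem_nhds hz)).differentiableAt (by simp)
    rw [fderiv_clm_apply h2 (differentiableAt_const b)]
    simp
  rw [key, key]
  have h3 : ContDiffAt ℝ ∞ (ext F.1) z := (mem_smooth F).contDiffAt (hD.mem_nhds hz)
  have h4 : IsSymmSndFDerivAt ℝ (ext F.1) z := by
    apply h3.isSymmSndFDerivAt
    simp [minSmoothness_of_isRCLikeNormedField]
    norm_cast
  exact h4 v w

open Classical in
/-- Evaluation at a point (at a fixed point of `D` when outside `D`). -/
def evp {D : Set ℂ} (hne : D.Nonempty) (z : ℂ) : ↥D :=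
  if h : z ∈ D then ⟨z, h⟩ else ⟨hne.some, hne.some_mem⟩

/-- Evaluation as an algebra homomorphism. -/
def ev {D : Set ℂ} (hne : D.Nonempty) (z : ℂ) : smoothSub D →ₐ[ℝ] ℝ :=
  (Pi.evalAlgHom ℝ (fun _ : ↥D => ℝ) (evp hne z)).comp (smoothSub D).val

theorem ev_of_mem {D : Set ℂ} (hne : D.Nonempty) {z : ℂ} (hz : z ∈ D) (F : smoothSub D) :
    ev hne z F = F.1 ⟨z, hz⟩ := by
  simp [ev, evp, hz]

open Classical in
/-- Restriction of a smooth function. -/
def mk {D : Set ℂ} (f : ℂ → ℝ) : smoothSub D :=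
  if h : (fun z : ↥D => f z.1) ∈ smoothSub D then ⟨fun z : ↥D => f z.1, h⟩ else 0

theorem ev_mk {D : Set ℂ} (hne : D.Nonempty) (f : ℂ → ℝ) (hf : ContDiffOn ℝ ∞ f D)
    {z : ℂ} (hz : z ∈ D) : ev hne z (mk f : smoothSub D) = f z := by
  have h : (fun z : ↥D => f z.1) ∈ smoothSub D := by
    show ContDiffOn ℝ ∞ (ext (fun z : ↥D => f z.1)) D
    refine hf.congr ?_
    intro w hw
    rw [ext_of_mem _ hw]
  rw [ev_of_mem hne hz, mk, dif_pos h]

theorem ev_eventually {D : Set ℂ} (hD : IsOpen D) (hne : D.Nonempty) (F : smoothSub D)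
    {z : ℂ} (hz : z ∈ D) : (fun w => ev hne w F) =ᶠ[nhds z] ext F.1 := by
  filter_upwards [hD.mem_nhds hz] with w hw
  rw [ext_of_mem _ hw, ev_of_mem hne hw]

end RingAux

/-- A commutative `ℝ`-algebra of smooth functions on `D` with the two partial derivatives. -/
theorem exists_smooth_ring {D : Set ℂ} (hD : IsOpen D) (hne : D.Nonempty) :
    ∃ (R : Type) (_ : CommRing R) (_ : Algebra ℝ R) (X Y : Derivation ℝ R R)
      (ev : ℂ → R →ₐ[ℝ] ℝ) (mk : (ℂ → ℝ) → R),
      (∀ f, X (Y f) = Y (X f)) ∧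
      (∀ F G : R, (∀ z ∈ D, ev z F = ev z G) → F = G) ∧
      (∀ f : ℂ → ℝ, ContDiffOn ℝ ∞ f D → ∀ z ∈ D, ev z (mk f) = f z) ∧
      (∀ F : R, ContDiffOn ℝ ∞ (fun z => ev z F) D) ∧
      (∀ (F : R), ∀ z ∈ D, ev z (X F) = fderiv ℝ (fun w => ev w F) z 1) ∧
      (∀ (F : R), ∀ z ∈ D, ev z (Y F) = fderiv ℝ (fun w => ev w F) z Complex.I) := by
  refine ⟨RingAux.smoothSub D, inferInstance, inferInstance, RingAux.der hD 1,
    RingAux.der hD Complex.I, RingAux.ev hne, RingAux.mk, ?_, ?_, ?_, ?_, ?_, ?_⟩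
  · intro f
    exact RingAux.der_comm hD _ _ f
  · intro F G h
    apply Subtype.ext
    funext z
    have := h z.1 z.2
    rwa [RingAux.ev_of_mem hne z.2, RingAux.ev_of_mem hne z.2] at this
  · intro f hf z hz
    exact RingAux.ev_mk hne f hf hz
  · intro F
    refine (RingAux.mem_smooth F).congr ?_
    intro z hz
    rw [RingAux.ext_of_mem _ hz, RingAux.ev_of_mem hne hz]
  · intro F z hz
    rw [RingAux.ev_of_mem hne hz, RingAux.der_apply,
      (RingAux.ev_eventually hD hne F hz).fderiv_eq]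
  · intro F z hz
    rw [RingAux.ev_of_mem hne hz, RingAux.der_apply,
      (RingAux.ev_eventually hD hne F hz).fderiv_eq]

end Pool.Agent.SU2H
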