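import Pool.Agent.Lib.SU2H.MC
import Pool.Agent.Lib.SU2H.Ring
import Pool.Agent.Lib.SU2H.Core
import Pool.Agent.Lib.SU2H.RealFrame

/-! # The geometry of a conformally parametrised H-surface -/

noncomputable section

namespace Pool.Agent.SU2H

open scoped Quaternion ContDiff

/-- `m = ν·Cν / 2` -/
def mm (ℓ : Fin 3 → ℝ) (φ : ℂ → ℍ[ℝ]) (z : ℂ) : ℝ := cq (sc ℓ) (nrm ℓ φ z) (nrm ℓ φ z) / 2

namespace GeomAux

theorem cross_smul (a : ℝ) (x y : Fin 3 → ℝ) :
    crossProduct (a • x) (a • y) = (a * a) • crossProduct x y := by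
  simp [smul_smul]

theorem conn_smul (c : Fin 3 → ℝ) (a : ℝ) (x y : Fin 3 → ℝ) :
    conn c (a • x) (a • y) = (a * a) • conn c x y := by
  have : (fun i => ((c 0 + c 1 + c 2) / 2 - c i) * (a • x) i) =
      a • (fun i => ((c 0 + c 1 + c 2) / 2 - c i) * x i) := by
    funext i; simp only [Pi.smul_apply, smul_eq_mul]; ring
  rw [conn, this, cross_smul, conn]

end GeomAux

open GeomAux

theorem geom {ℓ : Fin 3 → ℝ} {D : Set ℂ} {φ : ℂ → ℍ[ℝ]} {H : ℝ} (hℓ : ∀ i, 0 < ℓ i)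
    (hD : IsOpen D) (h : IsConfHSurface ℓ D φ H) :
    ContDiffOn ℝ ∞ (lam ℓ φ) D ∧ ContDiffOn ℝ ∞ (mm ℓ φ) D ∧
    ∀ z ∈ D, ∃ P : PtData (sc ℓ) H, P.n = nrm ℓ φ z ∧
      lap (fun w => Real.log (lam ℓ φ w) / 2) z = -(lam ℓ φ z * P.K) ∧
      lap (mm ℓ φ) z = lam ℓ φ z * P.Dm ∧
      (fderiv ℝ (mm ℓ φ) z 1) ^ 2 + (fderiv ℝ (mm ℓ φ) z Complex.I) ^ 2 = lam ℓ φ z * P.Gm ∧
      pot ℓ φ z = P.q := by
  classical
  have hV : ∀ v i, ContDiffOn ℝ ∞ (fun z => vel ℓ φ v z i) D :=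
    fun v i => vel_smooth hD h.smooth v i
  have hlam : ContDiffOn ℝ ∞ (lam ℓ φ) D := by
    have e : lam ℓ φ = fun z => vel ℓ φ 1 z 0 * vel ℓ φ 1 z 0 + vel ℓ φ 1 z 1 * vel ℓ φ 1 z 1
        + vel ℓ φ 1 z 2 * vel ℓ φ 1 z 2 := by
      funext z; simp only [lam, dotProduct, Fin.sum_univ_three]
    rw [e]
    exact (((hV 1 0).mul (hV 1 0)).add ((hV 1 1).mul (hV 1 1))).add ((hV 1 2).mul (hV 1 2))
  have hpos := h.immersed
  have hcr : ∀ i, ContDiffOn ℝ ∞
      (fun z => crossProduct (vel ℓ φ 1 z) (vel ℓ φ Complex.I z) i) D := by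
    intro i
    fin_cases i <;> simp only [cross_apply, Matrix.cons_val_zero, Matrix.cons_val_one,
      Matrix.cons_val, Fin.zero_eta, Fin.mk_one, Fin.reduceFinMk]
    · exact ((hV 1 1).mul (hV Complex.I 2)).sub ((hV 1 2).mul (hV Complex.I 1))
    · exact ((hV 1 2).mul (hV Complex.I 0)).sub ((hV 1 0).mul (hV Complex.I 2))
    · exact ((hV 1 0).mul (hV Complex.I 1)).sub ((hV 1 1).mul (hV Complex.I 0))
  have hn : ∀ i, ContDiffOn ℝ ∞ (fun z => nrm ℓ φ z i) D := by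
    intro i
    have e : (fun z => nrm ℓ φ z i) = fun z => (lam ℓ φ z)⁻¹ *
        crossProduct (vel ℓ φ 1 z) (vel ℓ φ Complex.I z) i := by
      funext z; simp only [nrm, Pi.smul_apply, smul_eq_mul]
    rw [e]
    exact (hlam.inv (fun z hz => (hpos z hz).ne')).mul (hcr i)
  have hmm : ContDiffOn ℝ ∞ (mm ℓ φ) D := by
    have e : mm ℓ φ = fun z => (sc ℓ 0 * nrm ℓ φ z 0 * nrm ℓ φ z 0
        + sc ℓ 1 * nrm ℓ φ z 1 * nrm ℓ φ z 1 + sc ℓ 2 * nrm ℓ φ z 2 * nrm ℓ φ z 2) / 2 := by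
      funext z; simp only [mm, cq, Fin.sum_univ_three]
    rw [e]
    exact ((((contDiffOn_const.mul (hn 0)).mul (hn 0)).add
      ((contDiffOn_const.mul (hn 1)).mul (hn 1))).add
      ((contDiffOn_const.mul (hn 2)).mul (hn 2))).div_const 2
  refine ⟨hlam, hmm, ?_⟩
  intro z0 hz0
  have hne : D.Nonempty := ⟨z0, hz0⟩
  -- the conformal factor
  obtain ⟨G, hG⟩ : ∃ G : ℂ → ℝ, G = fun z => √(lam ℓ φ z) := ⟨_, rfl⟩
  have hGs : ContDiffOn ℝ ∞ G D := by rw [hG]; exact hlam.sqrt (fun z hz => (hpos z hz).ne')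
  have hGpos : ∀ z ∈ D, 0 < G z := by
    intro z hz; rw [hG]; exact Real.sqrt_pos.mpr (hpos z hz)
  have hGsq : ∀ z ∈ D, G z * G z = lam ℓ φ z := by
    intro z hz; rw [hG]; exact Real.mul_self_sqrt (hpos z hz).le
  have hGi : ContDiffOn ℝ ∞ (fun z => (G z)⁻¹) D := hGs.inv (fun z hz => (hGpos z hz).ne')
  -- the frame
  obtain ⟨E1, hE1⟩ : ∃ E1 : ℂ → Fin 3 → ℝ, E1 = fun z => (G z)⁻¹ • vel ℓ φ 1 z := ⟨_, rfl⟩
  obtain ⟨E2, hE2⟩ : ∃ E2 : ℂ → Fin 3 → ℝ, E2 = fun z => (G z)⁻¹ • vel ℓ φ Complex.I z := ⟨_, rfl⟩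
  have V1 : ∀ z ∈ D, vel ℓ φ 1 z = G z • E1 z := by
    intro z hz
    rw [hE1]; simp only [smul_smul]
    rw [mul_inv_cancel₀ (hGpos z hz).ne', one_smul]
  have V2 : ∀ z ∈ D, vel ℓ φ Complex.I z = G z • E2 z := by
    intro z hz
    rw [hE2]; simp only [smul_smul]
    rw [mul_inv_cancel₀ (hGpos z hz).ne', one_smul]
  have q11 : ∀ z ∈ D, dotProduct (E1 z) (E1 z) = 1 := by
    intro z hz
    rw [hE1]
    simp only [smul_dotProduct, dotProduct_smul, smul_eq_mul]
    change (G z)⁻¹ * ((G z)⁻¹ * lam ℓ φ z) = 1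
    rw [← hGsq z hz]
    have := (hGpos z hz).ne'
    field_simp
  have q22 : ∀ z ∈ D, dotProduct (E2 z) (E2 z) = 1 := by
    intro z hz
    rw [hE2]
    simp only [smul_dotProduct, dotProduct_smul, smul_eq_mul]
    rw [h.conf_norm z hz, ← hGsq z hz]
    have := (hGpos z hz).ne'
    field_simp
  have q12 : ∀ z ∈ D, dotProduct (E1 z) (E2 z) = 0 := by
    intro z hz
    rw [hE1, hE2]
    simp only [smul_dotProduct, dotProduct_smul, smul_eq_mul]
    rw [h.conf_orth z hz]; ring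
  have Nz : ∀ z ∈ D, nrm ℓ φ z = crossProduct (E1 z) (E2 z) := by
    intro z hz
    rw [nrm, V1 z hz, V2 z hz, cross_smul, smul_smul, hGsq z hz,
      inv_mul_cancel₀ (hpos z hz).ne', one_smul]
  obtain ⟨R, _, _, X, Y, ev, mk, hXY, hext, hmk, hevs, hevX, hevY⟩ := exists_smooth_ring hD hne
  have evX : ∀ (F : R) (f : ℂ → ℝ), (∀ w ∈ D, ev w F = f w) → ∀ z ∈ D,
      ev z (X F) = fderiv ℝ f z 1 := by
    intro F f hf z hz
    rw [hevX F z hz]
    have : (fun w => ev w F) =ᶠ[nhds z] f := by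
      filter_upwards [hD.mem_nhds hz] with w hw using hf w hw
    rw [this.fderiv_eq]
  have evY : ∀ (F : R) (f : ℂ → ℝ), (∀ w ∈ D, ev w F = f w) → ∀ z ∈ D,
      ev z (Y F) = fderiv ℝ f z Complex.I := by
    intro F f hf z hz
    rw [hevY F z hz]
    have : (fun w => ev w F) =ᶠ[nhds z] f := by
      filter_upwards [hD.mem_nhds hz] with w hw using hf w hw
    rw [this.fderiv_eq]
  have evLap : ∀ (F : R) (f : ℂ → ℝ), (∀ w ∈ D, ev w F = f w) → ∀ z ∈ D,
      ev z (X (X F)) + ev z (Y (Y F)) = lap f z := by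
    intro F f hf z hz
    rw [lap, evX (X F) _ (evX F f hf) z hz, evY (Y F) _ (evY F f hf) z hz]
  -- ring elements
  obtain ⟨g, hg⟩ : ∃ g : R, g = mk G := ⟨_, rfl⟩
  obtain ⟨gi, hgi⟩ : ∃ gi : R, gi = mk (fun z => (G z)⁻¹) := ⟨_, rfl⟩
  obtain ⟨e1, he1⟩ : ∃ e1 : Fin 3 → R, e1 = fun i => mk (fun z => E1 z i) := ⟨_, rfl⟩
  obtain ⟨e2, he2⟩ : ∃ e2 : Fin 3 → R, e2 = fun i => mk (fun z => E2 z i) := ⟨_, rfl⟩
  obtain ⟨n, hnn⟩ : ∃ n : Fin 3 → R, n = fun i => mk (fun z => nrm ℓ φ z i) := ⟨_, rfl⟩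
  have vg : ∀ z ∈ D, ev z g = G z := by intro z hz; rw [hg]; exact hmk G hGs z hz
  have vgi : ∀ z ∈ D, ev z gi = (G z)⁻¹ := by intro z hz; rw [hgi]; exact hmk _ hGi z hz
  have v1 : ∀ i, ∀ z ∈ D, ev z (e1 i) = E1 z i := by
    intro i z hz
    rw [he1]
    refine hmk (fun z => E1 z i) ?_ z hz
    rw [hE1]
    exact hGi.mul (hV 1 i)
  have v2 : ∀ i, ∀ z ∈ D, ev z (e2 i) = E2 z i := by
    intro i z hz
    rw [he2]
    refine hmk (fun z => E2 z i) ?_ z hz
    rw [hE2]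
    exact hGi.mul (hV Complex.I i)
  have vn : ∀ i, ∀ z ∈ D, ev z (n i) = nrm ℓ φ z i := by
    intro i z hz
    rw [hnn]
    exact hmk _ (hn i) z hz
  have hgg : g * gi = 1 := by
    apply hext
    intro z hz
    rw [map_mul, vg z hz, vgi z hz, map_one, mul_inv_cancel₀ (hGpos z hz).ne']
  have horth : Core.Orth e1 e2 n := by
    constructor <;> apply hext <;> intro z hz <;>
      simp only [Core.dot, map_add, map_mul, v1 _ z hz, v2 _ z hz, vn _ z hz, map_one, map_zero]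
    · have := q11 z hz
      simpa only [dotProduct, Fin.sum_univ_three] using this
    · have := q22 z hz
      simpa only [dotProduct, Fin.sum_univ_three] using this
    · have := RealFrame.nn (q11 z hz) (q22 z hz) (q12 z hz)
      rw [← Nz z hz] at this
      simpa only [dotProduct, Fin.sum_univ_three] using this
    · have := q12 z hz
      simpa only [dotProduct, Fin.sum_univ_three] using this
    · have := RealFrame.n1 (e1 := E1 z) (e2 := E2 z)
      rw [← Nz z hz] at this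
      simpa only [dotProduct, Fin.sum_univ_three] using this
    · have := RealFrame.n2 (e1 := E1 z) (e2 := E2 z)
      rw [← Nz z hz] at this
      simpa only [dotProduct, Fin.sum_univ_three] using this
  have w1 : ∀ i, ∀ z ∈ D, ev z (g * e1 i) = vel ℓ φ 1 z i := by
    intro i z hz
    rw [map_mul, vg z hz, v1 i z hz, V1 z hz]; rfl
  have w2 : ∀ i, ∀ z ∈ D, ev z (g * e2 i) = vel ℓ φ Complex.I z i := by
    intro i z hz
    rw [map_mul, vg z hz, v2 i z hz, V2 z hz]; rfl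
  have hstr : ∀ i, X (g * e2 i) - Y (g * e1 i) + g * g * (algebraMap ℝ R (sc ℓ i) * n i) = 0 := by
    intro i
    apply hext
    intro z hz
    rw [map_add, map_sub, evX _ _ (w2 i) z hz, evY _ _ (w1 i) z hz, map_mul, map_mul, map_mul,
      vg z hz, vn i z hz, AlgHom.commutes, map_zero]
    have mc := maurer_cartan hℓ hD h.smooth h.unit hz i
    have e : nrm ℓ φ z i = (lam ℓ φ z)⁻¹ *
        crossProduct (vel ℓ φ 1 z) (vel ℓ φ Complex.I z) i := by
      simp only [nrm, Pi.smul_apply, smul_eq_mul]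
    have e3 : G z * G z * (algebraMap ℝ ℝ (sc ℓ i) * nrm ℓ φ z i) =
        sc ℓ i * crossProduct (vel ℓ φ 1 z) (vel ℓ φ Complex.I z) i := by
      rw [hGsq z hz, e]
      have := (hpos z hz).ne'
      simp only [Algebra.algebraMap_self, RingHom.id_apply]
      field_simp
    rw [e3]
    exact mc
  -- the coefficients
  obtain ⟨b1, hb1⟩ : ∃ b1 : R, b1 = Core.dot (fun i => X (e1 i)) n := ⟨_, rfl⟩
  obtain ⟨b2, hb2⟩ : ∃ b2 : R, b2 = Core.dot (fun i => Y (e1 i)) n := ⟨_, rfl⟩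
  obtain ⟨g1, hg1⟩ : ∃ g1 : R, g1 = Core.dot (fun i => X (e2 i)) n := ⟨_, rfl⟩
  obtain ⟨g2, hg2⟩ : ∃ g2 : R, g2 = Core.dot (fun i => Y (e2 i)) n := ⟨_, rfl⟩
  have lb1 : Core.dot (fun i => X (g * e1 i)) n = g * b1 := by
    have e : Core.dot (fun i => X (g * e1 i)) n = g * b1 + X g * Core.dot e1 n := by
      rw [hb1]; simp only [Core.dot, Derivation.leibniz, smul_eq_mul]; ring
    rw [e, horth.o13]; ring
  have lg1 : Core.dot (fun i => X (g * e2 i)) n = g * g1 := by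
    have e : Core.dot (fun i => X (g * e2 i)) n = g * g1 + X g * Core.dot e2 n := by
      rw [hg1]; simp only [Core.dot, Derivation.leibniz, smul_eq_mul]; ring
    rw [e, horth.o23]; ring
  have lg2 : Core.dot (fun i => Y (g * e2 i)) n = g * g2 := by
    have e : Core.dot (fun i => Y (g * e2 i)) n = g * g2 + Y g * Core.dot e2 n := by
      rw [hg2]; simp only [Core.dot, Derivation.leibniz, smul_eq_mul]; ring
    rw [e, horth.o23]; ring
  have sd : ∀ a b z, sff ℓ φ a b z = (fderiv ℝ (fun w => vel ℓ φ b w 0) z a * nrm ℓ φ z 0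
      + fderiv ℝ (fun w => vel ℓ φ b w 1) z a * nrm ℓ φ z 1
      + fderiv ℝ (fun w => vel ℓ φ b w 2) z a * nrm ℓ φ z 2)
      + dotProduct (conn (sc ℓ) (vel ℓ φ a z) (vel ℓ φ b z)) (nrm ℓ φ z) := by
    intro a b z
    rw [sff, cov, add_dotProduct]
    congr 1
    simp only [dotProduct, Fin.sum_univ_three]
  have s11 : ∀ z ∈ D, sff ℓ φ 1 1 z = G z * ev z b1 + G z * G z * cq (sc ℓ) (E1 z) (E2 z) := by
    intro z hz
    have a1 := congrArg (ev z) lb1
    simp only [Core.dot, map_add, map_mul (ev z), vg z hz, vn _ z hz] at a1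
    rw [evX _ _ (w1 0) z hz, evX _ _ (w1 1) z hz, evX _ _ (w1 2) z hz] at a1
    rw [sd, a1, V1 z hz, conn_smul, smul_dotProduct, Nz z hz,
      RealFrame.conn11 (q11 z hz) (q22 z hz) (q12 z hz), smul_eq_mul]
  have s12 : ∀ z ∈ D, sff ℓ φ 1 Complex.I z = G z * ev z g1
      + G z * G z * ((sc ℓ 0 + sc ℓ 1 + sc ℓ 2) / 2 - cq (sc ℓ) (E1 z) (E1 z)) := by
    intro z hz
    have a1 := congrArg (ev z) lg1
    simp only [Core.dot, map_add, map_mul (ev z), vg z hz, vn _ z hz] at a1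
    rw [evX _ _ (w2 0) z hz, evX _ _ (w2 1) z hz, evX _ _ (w2 2) z hz] at a1
    rw [sd, a1, V1 z hz, V2 z hz, conn_smul, smul_dotProduct, Nz z hz,
      RealFrame.conn12 (q11 z hz) (q22 z hz) (q12 z hz), smul_eq_mul]
  have s22 : ∀ z ∈ D, sff ℓ φ Complex.I Complex.I z = G z * ev z g2
      + G z * G z * (-cq (sc ℓ) (E1 z) (E2 z)) := by
    intro z hz
    have a1 := congrArg (ev z) lg2
    simp only [Core.dot, map_add, map_mul (ev z), vg z hz, vn _ z hz] at a1
    rw [evY _ _ (w2 0) z hz, evY _ _ (w2 1) z hz, evY _ _ (w2 2) z hz] at a1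
    rw [sd, a1, V2 z hz, conn_smul, smul_dotProduct, Nz z hz,
      RealFrame.conn22 (q11 z hz) (q22 z hz) (q12 z hz), smul_eq_mul]
  have hmean : b1 + g2 = algebraMap ℝ R (2 * H) * g := by
    apply hext
    intro z hz
    have m1 := h.mean z hz
    rw [s11 z hz, s22 z hz, ← hGsq z hz] at m1
    rw [map_add, map_mul, AlgHom.commutes, vg z hz]
    simp only [Algebra.algebraMap_self, RingHom.id_apply]
    have := (hGpos z hz).ne'
    have h2 : G z * (ev z b1 + ev z g2 - 2 * H * G z) = 0 := by linear_combination m1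
    rcases mul_eq_zero.mp h2 with h3 | h3
    · exact absurd h3 this
    · linear_combination h3
  obtain ⟨r1, r2, r3, rK, rL, rx, ry⟩ := Core.system horth X Y hXY (sc ℓ) H g gi hgg
    (Core.dot (fun i => X (e1 i)) e2) (Core.dot (fun i => Y (e1 i)) e2) b1 b2 g1 g2
    rfl rfl hb1 hb2 hg1 hg2 hstr hmean
  have vc : ∀ z ∈ D, ∀ (a b : Fin 3 → R) (a' b' : Fin 3 → ℝ), (∀ i, ev z (a i) = a' i) →
      (∀ i, ev z (b i) = b' i) → ev z (Core.cdot (sc ℓ) a b) = cq (sc ℓ) a' b' := by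
    intro z hz a b a' b' ha hb
    simp only [Core.cdot, map_add, map_mul, AlgHom.commutes, ha, hb, cq, Fin.sum_univ_three,
      Algebra.algebraMap_self, RingHom.id_apply]
    ring
  -- evaluation of the scalars at the point
  have k11 := vc z0 hz0 e1 e1 _ _ (fun i => v1 i z0 hz0) (fun i => v1 i z0 hz0)
  have k12 := vc z0 hz0 e1 e2 _ _ (fun i => v1 i z0 hz0) (fun i => v2 i z0 hz0)
  have k22 := vc z0 hz0 e2 e2 _ _ (fun i => v2 i z0 hz0) (fun i => v2 i z0 hz0)
  have k1n := vc z0 hz0 e1 n _ _ (fun i => v1 i z0 hz0) (fun i => vn i z0 hz0)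
  have k2n := vc z0 hz0 e2 n _ _ (fun i => v2 i z0 hz0) (fun i => vn i z0 hz0)
  have knn := vc z0 hz0 n n _ _ (fun i => vn i z0 hz0) (fun i => vn i z0 hz0)
  have G0 := hGpos z0 hz0
  have G0' := G0.ne'
  have m0 : ev z0 b1 + ev z0 g2 = 2 * H * G z0 := by
    have := congrArg (ev z0) hmean
    rw [map_add, map_mul, AlgHom.commutes, vg z0 hz0] at this
    simpa using this
  have sk : ev z0 b2 - ev z0 g1 = G z0 * cq (sc ℓ) (nrm ℓ φ z0) (nrm ℓ φ z0) := by
    have := congrArg (ev z0) r3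
    rw [map_sub, map_mul, knn, vg z0 hz0] at this
    exact this
  have t11 := q11 z0 hz0
  have t22 := q22 z0 hz0
  have t12 := q12 z0 hz0
  have t33 := RealFrame.nn t11 t22 t12
  have t13 := RealFrame.n1 (e1 := E1 z0) (e2 := E2 z0)
  have t23 := RealFrame.n2 (e1 := E1 z0) (e2 := E2 z0)
  rw [← Nz z0 hz0] at t33 t13 t23
  let P : PtData (sc ℓ) H :=
    { e1 := E1 z0, e2 := E2 z0, n := nrm ℓ φ z0
      B11 := ev z0 b1 / G z0, B12 := ev z0 b2 / G z0
      B21 := ev z0 g1 / G z0, B22 := ev z0 g2 / G z0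
      o11 := t11, o22 := t22, o33 := t33, o12 := t12, o13 := t13, o23 := t23
      tr := by rw [← add_div, m0]; field_simp
      skew := by rw [← sub_div, sk]; field_simp }
  have hlam0 : lam ℓ φ z0 = G z0 * G z0 := (hGsq z0 hz0).symm
  refine ⟨P, rfl, ?_, ?_, ?_, ?_⟩
  · -- Gauss equation
    have dlog : ∀ v, ∀ w ∈ D, fderiv ℝ (fun w => Real.log (lam ℓ φ w) / 2) w v
        = (G w)⁻¹ * fderiv ℝ G w v := by
      intro v w hw
      have e : (fun w => Real.log (lam ℓ φ w) / 2) =ᶠ[nhds w] fun w => Real.log (G w) := by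
        filter_upwards [hD.mem_nhds hw] with y hy
        rw [hG]; simp only []
        rw [Real.log_sqrt (hpos y hy).le]
      have hd : HasFDerivAt G (fderiv ℝ G w) w :=
        ((hGs.contDiffAt (hD.mem_nhds hw)).differentiableAt (by simp)).hasFDerivAt
      rw [e.fderiv_eq, (hd.log (hGpos w hw).ne').fderiv]
      rfl
    have f1 : ∀ w ∈ D, ev w (gi * X g) = fderiv ℝ (fun w => Real.log (lam ℓ φ w) / 2) w 1 := by
      intro w hw
      rw [map_mul, vgi w hw, evX g G vg w hw, dlog 1 w hw]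
    have f2 : ∀ w ∈ D, ev w (gi * Y g) =
        fderiv ℝ (fun w => Real.log (lam ℓ φ w) / 2) w Complex.I := by
      intro w hw
      rw [map_mul, vgi w hw, evY g G vg w hw, dlog Complex.I w hw]
    have e := congrArg (ev z0) rK
    rw [map_add, evX _ _ f1 z0 hz0, evY _ _ f2 z0 hz0] at e
    rw [lap, e]
    simp only [map_neg, map_add, map_sub, map_mul, map_pow, k11, k12, k22, k1n, k2n, knn,
      vg z0 hz0]
    rw [hlam0]
    simp only [PtData.K, P]
    field_simp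
  · have f : ∀ w ∈ D, ev w (algebraMap ℝ R (1 / 2) * Core.cdot (sc ℓ) n n) = mm ℓ φ w := by
      intro w hw
      rw [map_mul, AlgHom.commutes, vc w hw n n _ _ (fun i => vn i w hw) (fun i => vn i w hw), mm]
      simp only [Algebra.algebraMap_self, RingHom.id_apply]
      ring
    rw [← evLap _ _ f z0 hz0]
    have eX : X (X (algebraMap ℝ R (1 / 2) * Core.cdot (sc ℓ) n n)) =
        algebraMap ℝ R (1 / 2) * X (X (Core.cdot (sc ℓ) n n)) := by
      simp only [Derivation.leibniz, Derivation.map_algebraMap, smul_eq_mul, mul_zero, add_zero]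
    have eY : Y (Y (algebraMap ℝ R (1 / 2) * Core.cdot (sc ℓ) n n)) =
        algebraMap ℝ R (1 / 2) * Y (Y (Core.cdot (sc ℓ) n n)) := by
      simp only [Derivation.leibniz, Derivation.map_algebraMap, smul_eq_mul, mul_zero, add_zero]
    rw [eX, eY, ← map_add, ← mul_add, rL]
    simp only [map_neg, map_add, map_sub, map_mul, map_pow, map_ofNat, k11, k12, k22, k1n, k2n,
      knn, vg z0 hz0, AlgHom.commutes, Algebra.algebraMap_self, RingHom.id_apply]
    rw [hlam0]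
    simp only [PtData.Dm, P]
    field_simp
  · have f : ∀ w ∈ D, ev w (algebraMap ℝ R (1 / 2) * Core.cdot (sc ℓ) n n) = mm ℓ φ w := by
      intro w hw
      rw [map_mul, AlgHom.commutes, vc w hw n n _ _ (fun i => vn i w hw) (fun i => vn i w hw), mm]
      simp only [Algebra.algebraMap_self, RingHom.id_apply]
      ring
    rw [← evX _ _ f z0 hz0, ← evY _ _ f z0 hz0]
    have eX : X (algebraMap ℝ R (1 / 2) * Core.cdot (sc ℓ) n n) =
        algebraMap ℝ R (1 / 2) * X (Core.cdot (sc ℓ) n n) := by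
      simp only [Derivation.leibniz, Derivation.map_algebraMap, smul_eq_mul, mul_zero, add_zero]
    have eY : Y (algebraMap ℝ R (1 / 2) * Core.cdot (sc ℓ) n n) =
        algebraMap ℝ R (1 / 2) * Y (Core.cdot (sc ℓ) n n) := by
      simp only [Derivation.leibniz, Derivation.map_algebraMap, smul_eq_mul, mul_zero, add_zero]
    rw [eX, eY, rx, ry]
    simp only [map_neg, map_add, map_sub, map_mul, map_pow, map_ofNat, k11, k12, k22, k1n, k2n,
      knn, vg z0 hz0, AlgHom.commutes, Algebra.algebraMap_self, RingHom.id_apply]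
    rw [hlam0]
    simp only [PtData.Gm, P]
    field_simp
  · rw [pot, s11 z0 hz0, s12 z0 hz0, s22 z0 hz0, Nz z0 hz0, RealFrame.ric_frame t11 t22 t12,
      hlam0]
    simp only [PtData.q, P]
    field_simp
    ring

end Pool.Agent.SU2H
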