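import Pool.Agent.Lib.SU2H.GoodClassical

/-!
# Berger metrics

Proof sketch.  If `c 2 ≤ c 0` then `scal c / 2 = c 2 (c 0 - c 2 / 4) > 0`: use `good_classical`.
Let `κ = c 2 - c 0 > 0`, `D = c 2 κ`, `α = 39/20`, `a = α - 1/2 = 29/20`,
`g(τ) = -23/20 + 15/8 τ - 49/20 τ² + 77/40 τ³ - 5/8 τ⁴`, `ψ` a primitive of `g`,
`G(t) = ψ((2t - c 0)/κ)`, `G1(t) = g(·) 2/κ`, `G2(t) = g'(·) 4/κ²`.
For `P : PtData c H` put `x = e1 2`, `y = e2 2`, `τ = (n 2)²`; `x² + y² + τ = 1` (`P.col 2 2`).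
Because `c 0 = c 1`: `cq c u v = c 0 (∑ u i v i) + κ u 2 v 2`, so `m = (c 0 + κ τ)/2`,
`c11 = c 0 + κ x²`, `c12 = κ x y`, `c22 = c 0 + κ y²`, `d1 = κ x n2`, `d2 = κ y n2`.
Let `σ = (c 0 + c 1 + c 2)/2`, `j = B11 + c12 - H`, `l = B21 + σ - c11`, `X2 = j² + l²`,
`ρ2 = H² + (c 2)²/4`, `Γ = (B11 x + B21 y)² + (B12 x + B22 y)²`.  Identities (`ring`):
* `q = 2 ρ2 + 2 X2 - D (1-τ)`, `K + q/2 = 2 ρ2 - D (1+τ)/2`,
* `Gm = κ² τ Γ`, `Dm = κ (Γ - q τ)`,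
* `Γ = (1-τ)(ρ2 + X2) + 2 H u + c 2 v` where `u`, `v` are the components of `X_A n'` along `n'`,
  `J n'` (`n' = (x,y)`, `X_A = [[j,l],[l,-j]]`), `u² + v² = (1-τ)² X2` (up to the sign convention
  of `v`), hence `(Γ - (1-τ)(ρ2+X2))² ≤ 4 (1-τ)² ρ2 X2`.
So with `P = a + 2 τ g(τ)`, `Q = -(1-τ)(2 g(τ) + 4 τ g'(τ))`:
`Φ := K + α q - (G2 Gm + G1 Dm) = 2P (ρ2 + X2) - P D (1-τ) + 2 ρ2 - D (1+τ)/2
   - (2 g + 4 τ g') Γ ≥ (2P+Q)(ρ2 + X2) - 2|Q| √ρ2 √X2 + 2ρ2 - P D (1-τ) - D(1+τ)/2`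
`≥ [ρ2 (4P(P+Q) + 2(2P+Q)) - D (2P+Q)(P(1-τ) + (1+τ)/2)] / (2P+Q)`.
For `τ ∈ [0,1]`: `2P+Q ≥ 1` and, with `ρ2 ≥ (6/19) D` (this is the hypothesis), the polynomial
`F(τ) = (6/19)(4P(P+Q) + 2(2P+Q)) - (2P+Q)(P(1-τ) + (1+τ)/2)` (degree 11) is `≥ 1/1000`: its
Bernstein coefficients in degree 15 (i.e. write `F - 1/1000 = ∑ b_k τ^k (1-τ)^(15-k)`) are all
positive (the smallest Bernstein coefficient of `F` in degree 15 is about `0.0012`, so use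
`1/1000`; or subdivide the interval).  `2P+Q` is positive with positive Bernstein coefficients in
degree 5.  `P(1-τ)+(1+τ)/2 ≥ 0`.  Hence also the coefficient of `ρ2` is positive and
`Φ ≥ D / (1000 * upper bound of 2P+Q)`.
-/

noncomputable section

namespace Pool.Agent.SU2H

namespace GoodBergerAux

/-- the quartic `g` -/
def g (t : ℝ) : ℝ := -23 / 20 + 15 / 8 * t - 49 / 20 * t ^ 2 + 77 / 40 * t ^ 3 - 5 / 8 * t ^ 4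

/-- its derivative -/
def g' (t : ℝ) : ℝ := 15 / 8 - 49 / 10 * t + 231 / 40 * t ^ 2 - 5 / 2 * t ^ 3

/-- a primitive of `g` -/
def psi (t : ℝ) : ℝ :=
  -23 / 20 * t + 15 / 16 * t ^ 2 - 49 / 60 * t ^ 3 + 77 / 160 * t ^ 4 - 1 / 8 * t ^ 5

theorem hasDerivAt_psi (t : ℝ) : HasDerivAt psi (g t) t := by
  have h := (((((hasDerivAt_id t).const_mul (-23 / 20 : ℝ)).add
    ((hasDerivAt_pow 2 t).const_mul (15 / 16 : ℝ))).sub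
    ((hasDerivAt_pow 3 t).const_mul (49 / 60 : ℝ))).add
    ((hasDerivAt_pow 4 t).const_mul (77 / 160 : ℝ))).sub
    ((hasDerivAt_pow 5 t).const_mul (1 / 8 : ℝ))
  refine (h.congr_deriv ?_).congr_of_eventuallyEq ?_
  · unfold g
    norm_num
    ring
  · refine Filter.Eventually.of_forall fun x => ?_
    simp [psi]

theorem hasDerivAt_g (t : ℝ) : HasDerivAt g (g' t) t := by
  have h := (((((hasDerivAt_id t).const_mul (15 / 8 : ℝ)).add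
    ((hasDerivAt_pow 2 t).const_mul (-49 / 20 : ℝ))).add
    ((hasDerivAt_pow 3 t).const_mul (77 / 40 : ℝ))).sub
    ((hasDerivAt_pow 4 t).const_mul (5 / 8 : ℝ))).add_const (-23 / 20 : ℝ)
  refine (h.congr_deriv ?_).congr_of_eventuallyEq ?_
  · unfold g'
    norm_num
    ring
  · refine Filter.Eventually.of_forall fun x => ?_
    simp [g]
    ring

/-- `P = a + 2 τ g(τ)` -/
def PP (t : ℝ) : ℝ := 29 / 20 + 2 * t * g t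

/-- `R = -(2 g + 4 τ g')` -/
def RR (t : ℝ) : ℝ := -(2 * g t + 4 * t * g' t)

/-- `S = 2P + Q`, `Q = (1-τ) R` -/
def SS (t : ℝ) : ℝ := 2 * PP t + (1 - t) * RR t

/-- `E` -/
def EE (t : ℝ) : ℝ := PP t * (1 - t) + (1 + t) / 2

/-- `F` -/
def FF (t : ℝ) : ℝ :=
  6 / 19 * (4 * PP t * (PP t + (1 - t) * RR t) + 2 * SS t) - SS t * EE t

theorem one_le_SS {t : ℝ} (h0 : 0 ≤ t) (h1 : t ≤ 1) : 1 ≤ SS t := by
  obtain ⟨s, hs⟩ : ∃ s, s = 1 - t := ⟨_, rfl⟩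
  have hs0 : 0 ≤ s := by rw [hs]; linarith
  have e : SS t - 1 =
      (21 / 5 : ℝ) * t ^ 0 * s ^ 8 +
      (309 / 20 : ℝ) * t ^ 1 * s ^ 7 +
      (169 / 5 : ℝ) * t ^ 2 * s ^ 6 +
      (523 / 10 : ℝ) * t ^ 3 * s ^ 5 +
      (943 / 20 : ℝ) * t ^ 4 * s ^ 4 +
      (223 / 10 : ℝ) * t ^ 5 * s ^ 3 +
      (137 / 20 : ℝ) * t ^ 6 * s ^ 2 +
      (43 / 20 : ℝ) * t ^ 7 * s ^ 1 +
      (1 / 5 : ℝ) * t ^ 8 * s ^ 0 := by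
    subst hs
    unfold SS PP RR g g'
    ring
  have h : 0 ≤ SS t - 1 := by
    rw [e]
    positivity
  linarith

theorem SS_le {t : ℝ} (h0 : 0 ≤ t) (h1 : t ≤ 1) : SS t ≤ 6 := by
  obtain ⟨s, hs⟩ : ∃ s, s = 1 - t := ⟨_, rfl⟩
  have hs0 : 0 ≤ s := by rw [hs]; linarith
  have e : 6 - SS t =
      (4 / 5 : ℝ) * t ^ 0 * s ^ 7 +
      (95 / 4 : ℝ) * t ^ 1 * s ^ 6 +
      (1649 / 20 : ℝ) * t ^ 2 * s ^ 5 +
      (581 / 4 : ℝ) * t ^ 3 * s ^ 4 +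
      (788 / 5 : ℝ) * t ^ 4 * s ^ 3 +
      (1001 / 10 : ℝ) * t ^ 5 * s ^ 2 +
      (661 / 20 : ℝ) * t ^ 6 * s ^ 1 +
      (24 / 5 : ℝ) * t ^ 7 * s ^ 0 := by
    subst hs
    unfold SS PP RR g g'
    ring
  have h : 0 ≤ 6 - SS t := by
    rw [e]
    positivity
  linarith

theorem EE_nonneg {t : ℝ} (h0 : 0 ≤ t) (h1 : t ≤ 1) : 0 ≤ EE t := by
  obtain ⟨s, hs⟩ : ∃ s, s = 1 - t := ⟨_, rfl⟩
  have hs0 : 0 ≤ s := by rw [hs]; linarith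
  have e : EE t =
      (39 / 20 : ℝ) * t ^ 0 * s ^ 6 +
      (169 / 20 : ℝ) * t ^ 1 * s ^ 5 +
      (381 / 20 : ℝ) * t ^ 2 * s ^ 4 +
      (441 / 20 : ℝ) * t ^ 3 * s ^ 3 +
      (317 / 20 : ℝ) * t ^ 4 * s ^ 2 +
      (61 / 10 : ℝ) * t ^ 5 * s ^ 1 +
      (1 : ℝ) * t ^ 6 * s ^ 0 := by
    subst hs
    unfold EE PP g
    ring
  rw [e]
  positivity

theorem FF_ge {t : ℝ} (h0 : 0 ≤ t) (h1 : t ≤ 1) : 1 / 1000 ≤ FF t := by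
  obtain ⟨s, hs⟩ : ∃ s, s = 1 - t := ⟨_, rfl⟩
  have hs0 : 0 ≤ s := by rw [hs]; linarith
  have e : FF t - 1 / 1000 =
      (221 / 19000 : ℝ) * t ^ 0 * s ^ 15 +
      (8197 / 7600 : ℝ) * t ^ 1 * s ^ 14 +
      (9759 / 3800 : ℝ) * t ^ 2 * s ^ 13 +
      (1431 / 3800 : ℝ) * t ^ 3 * s ^ 12 +
      (10301 / 7600 : ℝ) * t ^ 4 * s ^ 11 +
      (716093 / 19000 : ℝ) * t ^ 5 * s ^ 10 +
      (462481 / 3800 : ℝ) * t ^ 6 * s ^ 9 +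
      (1377771 / 7600 : ℝ) * t ^ 7 * s ^ 8 +
      (138863 / 950 : ℝ) * t ^ 8 * s ^ 7 +
      (486783 / 7600 : ℝ) * t ^ 9 * s ^ 6 +
      (244393 / 19000 : ℝ) * t ^ 10 * s ^ 5 +
      (443 / 1520 : ℝ) * t ^ 11 * s ^ 4 +
      (7453 / 7600 : ℝ) * t ^ 12 * s ^ 3 +
      (542 / 475 : ℝ) * t ^ 13 * s ^ 2 +
      (1021 / 3800 : ℝ) * t ^ 14 * s ^ 1 +
      (221 / 19000 : ℝ) * t ^ 15 * s ^ 0 := by
    subst hs
    unfold FF EE SS PP RR g g'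
    ring
  have h : 0 ≤ FF t - 1 / 1000 := by
    rw [e]
    positivity
  linarith

/-- the real inequality -/
theorem fin {ρ X W t D : ℝ} (h0 : 0 ≤ t) (h1 : t ≤ 1) (hX : 0 ≤ X) (hD : 0 < D)
    (hρ : 6 / 19 * D ≤ ρ) (hW : W ^ 2 ≤ 4 * (1 - t) ^ 2 * ρ * X) :
    D / 6000 ≤ 2 * PP t * (ρ + X) + RR t * ((1 - t) * (ρ + X) + W) + 2 * ρ
      - PP t * D * (1 - t) - D * (1 + t) / 2 := by
  have hS1 := one_le_SS h0 h1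
  have hS6 := SS_le h0 h1
  have hE := EE_nonneg h0 h1
  have hF := FF_ge h0 h1
  have hSe : SS t = 2 * PP t + (1 - t) * RR t := rfl
  have hEe : EE t = PP t * (1 - t) + (1 + t) / 2 := rfl
  have hFe : FF t = 6 / 19 * (4 * PP t * (PP t + (1 - t) * RR t) + 2 * SS t) - SS t * EE t := rfl
  generalize SS t = S at *
  generalize EE t = E at *
  generalize FF t = F at *
  generalize PP t = P at *
  generalize RR t = R at *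
  have hρ0 : 0 ≤ ρ := le_trans (by positivity) hρ
  set Q := (1 - t) * R with hQ
  have hsq : (S * R * W) ^ 2 ≤ (S ^ 2 * X + Q ^ 2 * ρ) ^ 2 := by
    have e1 : (S * R * W) ^ 2 = (S * R) ^ 2 * W ^ 2 := by ring
    have e2 : (S * R) ^ 2 * W ^ 2 ≤ (S * R) ^ 2 * (4 * (1 - t) ^ 2 * ρ * X) :=
      mul_le_mul_of_nonneg_left hW (sq_nonneg _)
    have e3 : (S * R) ^ 2 * (4 * (1 - t) ^ 2 * ρ * X) =
        (S ^ 2 * X + Q ^ 2 * ρ) ^ 2 - (S ^ 2 * X - Q ^ 2 * ρ) ^ 2 := by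
      rw [hQ]; ring
    have e4 := sq_nonneg (S ^ 2 * X - Q ^ 2 * ρ)
    rw [e1]
    linarith
  have hnn : 0 ≤ S ^ 2 * X + Q ^ 2 * ρ := by positivity
  have habs := abs_le_of_sq_le_sq' hsq hnn
  have hlow := habs.1
  set Φ := 2 * P * (ρ + X) + R * ((1 - t) * (ρ + X) + W) + 2 * ρ
      - P * D * (1 - t) - D * (1 + t) / 2 with hΦ
  have hSΦ : S * Φ = S ^ 2 * (ρ + X) + S * R * W + 2 * S * ρ - S * D * E := by
    rw [hΦ, hEe, hSe, hQ]; ring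
  have hc : 0 ≤ 4 * P * (P + Q) + 2 * S := by
    have : 0 ≤ S * E := mul_nonneg (by linarith) hE
    linarith
  have hkey : (4 * P * (P + Q) + 2 * S) * ρ - S * D * E ≤ S * Φ := by
    have h5 : (S ^ 2 - Q ^ 2) * ρ = 4 * P * (P + Q) * ρ := by rw [hSe]; ring
    rw [hSΦ]
    linarith
  have hmul : (4 * P * (P + Q) + 2 * S) * (6 / 19 * D) ≤ (4 * P * (P + Q) + 2 * S) * ρ :=
    mul_le_mul_of_nonneg_left hρ hc
  have hDF : D * F = (4 * P * (P + Q) + 2 * S) * (6 / 19 * D) - S * D * E := by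
    rw [hFe]; ring
  have hDF2 : D * (1 / 1000) ≤ D * F := mul_le_mul_of_nonneg_left hF hD.le
  have hfinal : D / 1000 ≤ S * Φ := by linarith
  have hΦpos : 0 < Φ := by
    by_contra hneg
    have : S * Φ ≤ 0 := mul_nonpos_of_nonneg_of_nonpos (by linarith) (not_lt.1 hneg)
    linarith [div_pos hD (show (0 : ℝ) < 1000 by norm_num)]
  have h6 : S * Φ ≤ 6 * Φ := mul_le_mul_of_nonneg_right hS6 hΦpos.le
  linarith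

theorem q_id (c0 κ H B11 B21 x y z : ℝ) :
    (B11 + κ * x * y) ^ 2 + (2 * H - B11 - κ * x * y) ^ 2
    + 2 * (B21 + (3 * c0 + κ * (x ^ 2 + y ^ 2 + z ^ 2)) / 2 - (c0 + κ * x ^ 2)) ^ 2
    + 2 * (((3 * c0 + κ * (x ^ 2 + y ^ 2 + z ^ 2)) / 2 - (c0 + κ * x ^ 2))
        * ((3 * c0 + κ * (x ^ 2 + y ^ 2 + z ^ 2)) / 2 - (c0 + κ * y ^ 2)) - (κ * x * y) ^ 2)
    = 2 * (H ^ 2 + (c0 + κ * (x ^ 2 + y ^ 2 + z ^ 2)) ^ 2 / 4)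
      + 2 * ((B11 + κ * x * y - H) ^ 2
        + (B21 + (3 * c0 + κ * (x ^ 2 + y ^ 2 + z ^ 2)) / 2 - (c0 + κ * x ^ 2)) ^ 2)
      - (c0 + κ * (x ^ 2 + y ^ 2 + z ^ 2)) * (κ * (x ^ 2 + y ^ 2)) := by
  ring

theorem K_id (c0 κ H B11 B21 x y z : ℝ) :
    B11 * (2 * H - B11) - (B21 + (c0 + κ * z ^ 2)) * B21 - (κ * x * z) ^ 2 - (κ * y * z) ^ 2
    - (c0 + κ * z ^ 2) ^ 2 + κ * x * y * ((2 * H - B11) - B11)
    + (B21 + (c0 + κ * z ^ 2)) * (c0 + κ * x ^ 2) - B21 * (c0 + κ * y ^ 2)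
    = (H ^ 2 + (c0 + κ * (x ^ 2 + y ^ 2 + z ^ 2)) ^ 2 / 4)
      - ((B11 + κ * x * y - H) ^ 2
        + (B21 + (3 * c0 + κ * (x ^ 2 + y ^ 2 + z ^ 2)) / 2 - (c0 + κ * x ^ 2)) ^ 2)
      - (c0 + κ * (x ^ 2 + y ^ 2 + z ^ 2)) * (κ * z ^ 2) := by
  ring

theorem Dm_id (c0 κ H B11 B21 x y z : ℝ) :
    ((B21 + (c0 + κ * z ^ 2)) + B21) * ((κ * x * z) ^ 2 - (κ * y * z) ^ 2)
    + 2 * (κ * x * z) * (κ * y * z) * ((2 * H - B11) - B11)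
    - (c0 + κ * z ^ 2) * (B11 ^ 2 + (B21 + (c0 + κ * z ^ 2)) ^ 2 + B21 ^ 2 + (2 * H - B11) ^ 2)
    + (c0 + κ * x ^ 2) * (B11 ^ 2 + (B21 + (c0 + κ * z ^ 2)) ^ 2)
    + (c0 + κ * y ^ 2) * (B21 ^ 2 + (2 * H - B11) ^ 2)
    + 2 * (κ * x * y) * (B11 * B21 + (B21 + (c0 + κ * z ^ 2)) * (2 * H - B11))
    = κ * (((B11 * x + B21 * y) ^ 2 + ((B21 + (c0 + κ * z ^ 2)) * x + (2 * H - B11) * y) ^ 2)
      - (2 * (H ^ 2 + (c0 + κ * (x ^ 2 + y ^ 2 + z ^ 2)) ^ 2 / 4)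
      + 2 * ((B11 + κ * x * y - H) ^ 2
        + (B21 + (3 * c0 + κ * (x ^ 2 + y ^ 2 + z ^ 2)) / 2 - (c0 + κ * x ^ 2)) ^ 2)
      - (c0 + κ * (x ^ 2 + y ^ 2 + z ^ 2)) * (κ * (x ^ 2 + y ^ 2))) * z ^ 2) := by
  ring

theorem W_id (c0 κ H B11 B21 x y z : ℝ) :
    (B11 * x + B21 * y) ^ 2 + ((B21 + (c0 + κ * z ^ 2)) * x + (2 * H - B11) * y) ^ 2
    = (x ^ 2 + y ^ 2) * ((H ^ 2 + (c0 + κ * (x ^ 2 + y ^ 2 + z ^ 2)) ^ 2 / 4)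
      + ((B11 + κ * x * y - H) ^ 2
        + (B21 + (3 * c0 + κ * (x ^ 2 + y ^ 2 + z ^ 2)) / 2 - (c0 + κ * x ^ 2)) ^ 2))
      + (2 * H * ((B11 + κ * x * y - H) * (x ^ 2 - y ^ 2)
          + 2 * (B21 + (3 * c0 + κ * (x ^ 2 + y ^ 2 + z ^ 2)) / 2 - (c0 + κ * x ^ 2)) * x * y)
        + (c0 + κ * (x ^ 2 + y ^ 2 + z ^ 2)) *
          ((B21 + (3 * c0 + κ * (x ^ 2 + y ^ 2 + z ^ 2)) / 2 - (c0 + κ * x ^ 2)) * (x ^ 2 - y ^ 2)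
          - 2 * (B11 + κ * x * y - H) * x * y)) := by
  ring

theorem W_sq (H c2 j l x y : ℝ) :
    (2 * H * (j * (x ^ 2 - y ^ 2) + 2 * l * x * y)
      + c2 * (l * (x ^ 2 - y ^ 2) - 2 * j * x * y)) ^ 2
    ≤ 4 * (x ^ 2 + y ^ 2) ^ 2 * (H ^ 2 + c2 ^ 2 / 4) * (j ^ 2 + l ^ 2) := by
  have h := sq_nonneg (2 * H * (l * (x ^ 2 - y ^ 2) - 2 * j * x * y)
    - c2 * (j * (x ^ 2 - y ^ 2) + 2 * l * x * y))
  have e : 4 * (x ^ 2 + y ^ 2) ^ 2 * (H ^ 2 + c2 ^ 2 / 4) * (j ^ 2 + l ^ 2) =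
      (2 * H * (j * (x ^ 2 - y ^ 2) + 2 * l * x * y)
      + c2 * (l * (x ^ 2 - y ^ 2) - 2 * j * x * y)) ^ 2 +
      (2 * H * (l * (x ^ 2 - y ^ 2) - 2 * j * x * y)
    - c2 * (j * (x ^ 2 - y ^ 2) + 2 * l * x * y)) ^ 2 := by ring
  rw [e]
  linarith

theorem cqb {c : Fin 3 → ℝ} (h01 : c 0 = c 1) (u v : Fin 3 → ℝ) :
    cq c u v = c 0 * (∑ i, u i * v i) + (c 2 - c 0) * u 2 * v 2 := by
  simp only [cq, Fin.sum_univ_three, ← h01]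
  ring

/-- the estimate at a point -/
theorem main {c : Fin 3 → ℝ} {H : ℝ} (hc : ∀ i, 0 < c i) (h01 : c 0 = c 1)
    (h : 24 * c 2 * (c 2 - c 0) ≤ 19 * (4 * H ^ 2 + c 2 ^ 2)) {κ : ℝ} (hκ : κ = c 2 - c 0)
    (hκ0 : 0 < κ) (P : PtData c H) :
    c 2 * κ / 6000 ≤ P.K + 39 / 20 * P.q
      - (g' ((2 * P.m - c 0) / κ) * (4 / κ ^ 2) * P.Gm
        + g ((2 * P.m - c 0) / κ) * (2 / κ) * P.Dm) := by
  have hxyz : P.e1 2 ^ 2 + P.e2 2 ^ 2 + P.n 2 ^ 2 = 1 := by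
    have := P.col 2 2
    simp only [if_true] at this
    linear_combination this
  have ht0 : 0 ≤ P.n 2 ^ 2 := sq_nonneg _
  have ht1 : P.n 2 ^ 2 ≤ 1 := by
    have s1 := sq_nonneg (P.e1 2)
    have s2 := sq_nonneg (P.e2 2)
    linarith
  have hρ : 6 / 19 * (c 2 * κ) ≤ H ^ 2 + (c 0 + κ) ^ 2 / 4 := by
    have hc2 : c 2 = c 0 + κ := by rw [hκ]; ring
    rw [← hc2]
    rw [← hκ] at h
    linarith
  have hc11 : cq c P.e1 P.e1 = c 0 + κ * P.e1 2 ^ 2 := by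
    rw [cqb h01, P.o11, hκ]; ring
  have hc22 : cq c P.e2 P.e2 = c 0 + κ * P.e2 2 ^ 2 := by
    rw [cqb h01, P.o22, hκ]; ring
  have hcnn : cq c P.n P.n = c 0 + κ * P.n 2 ^ 2 := by
    rw [cqb h01, P.o33, hκ]; ring
  have hc12 : cq c P.e1 P.e2 = κ * P.e1 2 * P.e2 2 := by
    rw [cqb h01, P.o12, hκ]; ring
  have hd1 : cq c P.e1 P.n = κ * P.e1 2 * P.n 2 := by
    rw [cqb h01, P.o13, hκ]; ring
  have hd2 : cq c P.e2 P.n = κ * P.e2 2 * P.n 2 := by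
    rw [cqb h01, P.o23, hκ]; ring
  have hB22 : P.B22 = 2 * H - P.B11 := by linarith [P.tr]
  have hB12 : P.B12 = P.B21 + (c 0 + κ * P.n 2 ^ 2) := by linarith [P.skew, hcnn]
  have hσ : (c 0 + c 1 + c 2) / 2 = (3 * c 0 + κ) / 2 := by rw [← h01, hκ]; ring
  have hc2 : c 2 = c 0 + κ := by rw [hκ]; ring
  have hτ : (2 * P.m - c 0) / κ = P.n 2 ^ 2 := by
    unfold PtData.m
    rw [hcnn]
    field_simp
    ring
  have hq := q_id (c 0) κ H P.B11 P.B21 (P.e1 2) (P.e2 2) (P.n 2)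
  have hK := K_id (c 0) κ H P.B11 P.B21 (P.e1 2) (P.e2 2) (P.n 2)
  have hDm := Dm_id (c 0) κ H P.B11 P.B21 (P.e1 2) (P.e2 2) (P.n 2)
  have hW := W_id (c 0) κ H P.B11 P.B21 (P.e1 2) (P.e2 2) (P.n 2)
  rw [hxyz, mul_one] at hq hK hDm hW
  have hWs := W_sq H (c 0 + κ) (P.B11 + κ * P.e1 2 * P.e2 2 - H)
    (P.B21 + (3 * c 0 + κ) / 2 - (c 0 + κ * P.e1 2 ^ 2)) (P.e1 2) (P.e2 2)
  have eq : P.q = 2 * (H ^ 2 + (c 0 + κ) ^ 2 / 4)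
      + 2 * ((P.B11 + κ * P.e1 2 * P.e2 2 - H) ^ 2
        + (P.B21 + (3 * c 0 + κ) / 2 - (c 0 + κ * P.e1 2 ^ 2)) ^ 2)
      - (c 0 + κ) * (κ * (P.e1 2 ^ 2 + P.e2 2 ^ 2)) := by
    rw [← hq]
    unfold PtData.q
    rw [hc11, hc12, hc22, hσ, hB22]
  have eK : P.K = (H ^ 2 + (c 0 + κ) ^ 2 / 4)
      - ((P.B11 + κ * P.e1 2 * P.e2 2 - H) ^ 2
        + (P.B21 + (3 * c 0 + κ) / 2 - (c 0 + κ * P.e1 2 ^ 2)) ^ 2)
      - (c 0 + κ) * (κ * P.n 2 ^ 2) := by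
    rw [← hK]
    unfold PtData.K
    rw [hc11, hc12, hc22, hcnn, hd1, hd2, hB22, hB12]
  have eD : P.Dm = κ * (((P.B11 * P.e1 2 + P.B21 * P.e2 2) ^ 2
      + ((P.B21 + (c 0 + κ * P.n 2 ^ 2)) * P.e1 2 + (2 * H - P.B11) * P.e2 2) ^ 2)
      - P.q * P.n 2 ^ 2) := by
    rw [eq, ← hDm]
    unfold PtData.Dm
    rw [hc11, hc12, hc22, hcnn, hd1, hd2, hB22, hB12]
  have eG : P.Gm = κ ^ 2 * P.n 2 ^ 2 * ((P.B11 * P.e1 2 + P.B21 * P.e2 2) ^ 2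
      + ((P.B21 + (c 0 + κ * P.n 2 ^ 2)) * P.e1 2 + (2 * H - P.B11) * P.e2 2) ^ 2) := by
    unfold PtData.Gm
    rw [hd1, hd2, hB22, hB12]
    ring
  rw [hτ, eD, eG]
  have hW' := hW
  generalize (P.B11 * P.e1 2 + P.B21 * P.e2 2) ^ 2
      + ((P.B21 + (c 0 + κ * P.n 2 ^ 2)) * P.e1 2 + (2 * H - P.B11) * P.e2 2) ^ 2 = Γ at *
  have hxy : P.e1 2 ^ 2 + P.e2 2 ^ 2 = 1 - P.n 2 ^ 2 := by linarith
  generalize hj : P.B11 + κ * P.e1 2 * P.e2 2 - H = j at *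
  generalize hl : P.B21 + (3 * c 0 + κ) / 2 - (c 0 + κ * P.e1 2 ^ 2) = l at *
  rw [hxy] at eq hWs
  rw [hxy] at hW
  have hDpos : 0 < c 2 * κ := mul_pos (hc 2) hκ0
  have hfin := fin (ρ := H ^ 2 + (c 0 + κ) ^ 2 / 4) (X := j ^ 2 + l ^ 2)
    (W := 2 * H * (j * (P.e1 2 ^ 2 - P.e2 2 ^ 2) + 2 * l * P.e1 2 * P.e2 2)
      + (c 0 + κ) * (l * (P.e1 2 ^ 2 - P.e2 2 ^ 2) - 2 * j * P.e1 2 * P.e2 2))
    ht0 ht1 (by positivity) hDpos hρ hWs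
  rw [← hW] at hfin
  refine hfin.trans (le_of_eq ?_)
  have e1 : g' (P.n 2 ^ 2) * (4 / κ ^ 2) * (κ ^ 2 * P.n 2 ^ 2 * Γ) =
      4 * g' (P.n 2 ^ 2) * P.n 2 ^ 2 * Γ := by
    field_simp
  have e2 : g (P.n 2 ^ 2) * (2 / κ) * (κ * (Γ - P.q * P.n 2 ^ 2)) =
      2 * g (P.n 2 ^ 2) * (Γ - P.q * P.n 2 ^ 2) := by
    field_simp
  rw [e1, e2, eq, eK, hc2]
  unfold PP RR
  ring

end GoodBergerAux

open GoodBergerAux

theorem good_berger {c : Fin 3 → ℝ} {H : ℝ} (hc : ∀ i, 0 < c i) (h01 : c 0 = c 1)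
    (h : 24 * c 2 * (c 2 - c 0) ≤ 19 * (4 * H ^ 2 + c 2 ^ 2)) : Good c H := by
  by_cases hle : c 2 ≤ c 0
  · apply good_classical
    have e : scal c / 2 = c 2 * (c 0 - c 2 / 4) := by
      rw [scal_eq, ← h01]
      ring
    rw [e]
    have h1 := hc 2
    have h2 : 0 < c 2 * (c 0 - c 2 / 4) := mul_pos h1 (by linarith)
    have h3 := sq_nonneg H
    linarith
  · obtain ⟨κ, hκ⟩ : ∃ κ, κ = c 2 - c 0 := ⟨_, rfl⟩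
    have hκ0 : 0 < κ := by rw [hκ]; linarith
    have haff : ∀ t : ℝ, HasDerivAt (fun t => (2 * t - c 0) / κ) (2 / κ) t := by
      intro t
      have := (((hasDerivAt_id t).const_mul (2 : ℝ)).sub_const (c 0)).div_const κ
      simpa using this
    refine ⟨39 / 20, c 2 * κ / 6000, fun t => psi ((2 * t - c 0) / κ),
      fun t => g ((2 * t - c 0) / κ) * (2 / κ), fun t => g' ((2 * t - c 0) / κ) * (4 / κ ^ 2),
      by norm_num, by norm_num, by have := hc 2; positivity, ?_, ?_, ?_, ?_⟩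
    · intro t _
      exact (hasDerivAt_psi _).comp t (haff t)
    · intro t _
      have h1 := ((hasDerivAt_g _).comp t (haff t)).mul_const (2 / κ)
      refine h1.congr_deriv ?_
      field_simp
      ring
    · apply Continuous.continuousOn
      unfold g'
      fun_prop
    · intro P
      exact main hc h01 h hκ hκ0 P

end Pool.Agent.SU2H
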