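import Pool.Agent.Lib.SU2H.PtLemmas

/-!
# The classical criterion `3 H² + S/2 > 0`

Proof sketch.  `α = 1`, `G = G1 = G2 = 0`, `ε = 3H² + scal c / 2`.  With `σ = (c 0 + c 1 + c 2)/2`,
`j = B11 + c12 - H`, `l = B21 + σ - c11`: `K + q = 3H² + scal c / 2 + j² + l²`, by `ring` from
`P.tr`, `P.skew`, `P.tr_c`, `P.e2_c` and `scal_eq`.
-/

noncomputable section

namespace Pool.Agent.SU2H

namespace GoodClassicalAux

theorem alg {s E2 H B11 B12 B21 B22 a b d e f g : ℝ}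
    (htr : B11 + B22 = 2 * H) (hsk : B12 - B21 = d) (hc : a + b + d = s)
    (he : a * b + a * d + b * d - e ^ 2 - f ^ 2 - g ^ 2 = E2) :
    (B11 * B22 - B12 * B21 - f ^ 2 - g ^ 2 - d ^ 2 + e * (B22 - B11) + B12 * a - B21 * b)
      + ((B11 + e) ^ 2 + (B22 - e) ^ 2 + 2 * (B21 + s / 2 - a) ^ 2
        + 2 * ((s / 2 - a) * (s / 2 - b) - e ^ 2))
      = 3 * H ^ 2 + (2 * E2 - s ^ 2 / 2) / 2 + (B11 + e - H) ^ 2 + (B21 + s / 2 - a) ^ 2 := by
  obtain rfl : B22 = 2 * H - B11 := by linarith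
  obtain rfl : B12 = B21 + d := by linarith
  subst hc
  subst he
  ring

end GoodClassicalAux

theorem good_classical {c : Fin 3 → ℝ} {H : ℝ} (h : 0 < 3 * H ^ 2 + scal c / 2) : Good c H := by
  refine ⟨1, 3 * H ^ 2 + scal c / 2, fun _ => 0, fun _ => 0, fun _ => 0, one_pos, one_lt_two, h,
    fun t _ => hasDerivAt_const t 0, fun t _ => hasDerivAt_const t 0, continuousOn_const, ?_⟩
  intro P
  have hs := scal_eq c
  have key := GoodClassicalAux.alg P.tr P.skew P.tr_c P.e2_c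
  have h1 : P.K + 1 * P.q = 3 * H ^ 2 + scal c / 2 + (P.B11 + cq c P.e1 P.e2 - H) ^ 2
      + (P.B21 + (c 0 + c 1 + c 2) / 2 - cq c P.e1 P.e1) ^ 2 := by
    rw [hs]
    unfold PtData.K PtData.q
    linear_combination key
  nlinarith [sq_nonneg (P.B11 + cq c P.e1 P.e2 - H),
    sq_nonneg (P.B21 + (c 0 + c 1 + c 2) / 2 - cq c P.e1 P.e1)]

end Pool.Agent.SU2H
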