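import Pool.Agent.Lib.SU2H.GoodClassical

/-!
# Minimal surfaces, all left-invariant metrics

Proof sketch.  If `0 < scal c` use `good_classical`.  So let `s = scal c / 2 ≤ 0`,
`|s| ≤ 3 (c 0 c 1 / c 2)²`.  Put `σ = (c 0 + c 1 + c 2)/2`, `Dt = c 0 c 1 c 2`,
`β = 5 c 0 c 1 / (c 2)³`, `p0 = 9/20 - β c 2 / 2`, `p(t) = p0 + β t`, `a = 7/5`, `α = 19/10`,
`G(t) = -p0 log t - β t`, `G1(t) = -p0/t - β = -p(t)/t`, `G2(t) = p0/t²`.
Facts about `c` (`μ' = σ - max (c 0) (c 1)`, `cmin = min (c 0) (c 1)`): `μ'² = cmin c 2 - s`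
(identity), `16 c 0 c 1 ≤ (c 2)²` (from `4 s = 4 c 0 c 1 - (c 2 - c 0 - c 1)² ≤ 0`), hence
`|s| ≤ (3/16) cmin c 2`.
For `P : PtData c 0` put `m = P.m` (`cmin/2 ≤ m ≤ c 2/2`), `c11, c12, c22, d1, d2` as usual,
`y1 = B11 = -B22`, `y2 = B21 + m = B12 - m`, `k = ((c11-c22)/2)² + c12²`, `r = m² - k`, `x = r - s`,
`u = σ - 2m`, `A = a - p(m)`, `γ = 4 β (c 2/2 - m) = 2a - 1 - 4 p(m)`,
`q2 = p(p+1) - m β (2p+1)` (`p = p(m)`), `Kq = A + β u - x p0/(2 m²)`,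
`l1 = 4 A c12 - 4 β d1 d2`, `l2 = -2 A (c11-c22) + 2 β (d1²-d2²)`.
Polynomial identities (use `tr_c`, `e2_c`, `det_c`, `scal_eq`; everything in terms of
`c11, c12, c22, d1, d2, c33 = 2m`; checked numerically):
* `Φ := K + α q - (G2(m) Gm + G1(m) Dm) = 2 Kq (y1²+y2²) + l1 y1 + l2 y2 + 2 Kq m² - x`,
* `8 Kq (2 Kq m² - x) - (l1² + l2²) = 8 Ψ` with
  `Ψ/2 = A² s + A β (Dt - 2 m s) + x γ (A + β u)/2 + x² q2/(4 m²)`,
so `8 Kq Φ = (4 Kq y1 + l1)² + (4 Kq y2 + l2)² + 8 Ψ`.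
* `|d|² = 2 m u + x ≥ 0`, so `x ≥ - 2 m u`, which bounds `Kq` above by a constant depending on `c`.
* `r - 2 m μ' + μ'² = (cmax' - cmin)(cmax' - c 2) (n_i)² ≤ 0` where `cmax' = max (c 0) (c 1)` and `i` is
  its index (it is `det (M_TT - μ')`, `M = σ - C`), so `x ≤ 2 m μ' - μ'² + |s|`.
Lower bound of `Kq`: `A ≥ 19/20`, `A + β u ≥ 19/20 + β(σ - c 2) ≥ 0.79`, `p0 ≤ 9/20`,
`x/m² ≤ 2z - z² + (3/19) z² ≤ 19/16` with `z = μ'/m` (as `|s| ≤ (3/19) μ'²`); so `Kq ≥ 1/2`.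
Lower bound of `Ψ` (scale so that `c 2 = 1`, `ε = c 0 c 1 ≤ 1/16`, `β = 5 ε`, `y = 1/2 - m`):
`C0 = A² s + Aβ(Dt - 2ms) ≥ A (5 - 3A) ε²`, `A = 0.95 + 5 ε y ≤ 1.107` so `A(5-3A) ≥ 1.85`,
`q2 = 0.6525 - 0.95 e + e² y (1-y) ≥ 0.355` and `q2 ≤ 0.7` (`e = 5 ε ≤ 5/16`),
`u ≤ 1 - 2m = 2y`, so `0 ≤ γ(A + βu)/2 ≤ 10 ε y (0.95 + 3 e y)`, and
`10 m y (0.95 + 3 e y) ≤ 10 (1/2 - y) y (0.95 + 0.9375 y) ≤ 0.76`.  Hence
`C0 q2/m² - (γ(A+βu)/2)² ≥ (1.85 * 0.355 - 0.5776) ε²/m² > 0` and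
`Ψ/2 ≥ (C0 q2/m² - (γ(A+βu)/2)²) m²/q2 > 0` uniformly.  (`A + β u ≥ 0` is used.)
-/

noncomputable section

namespace Pool.Agent.SU2H

namespace GoodMinimalAux

/-- first identity: `Φ` as a quadratic function of `y1, y2` -/
theorem phi_quad (y1 y2 m σ a1 c12 d1 d2 p0 β a s x u A Kq : ℝ) (hm : m ≠ 0)
    (hs : s = (σ - m) ^ 2 - a1 ^ 2 + 4 * m * (σ - m) - c12 ^ 2 - d1 ^ 2 - d2 ^ 2 - σ ^ 2)
    (hx : x = m ^ 2 - a1 ^ 2 - c12 ^ 2 - s) (hu : u = σ - 2 * m) (hA : A = a - (p0 + β * m))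
    (hK : Kq = A + β * u - x * p0 / (2 * m ^ 2)) :
    (y1 * (-y1) - (y2 + m) * (y2 - m) - d1 ^ 2 - d2 ^ 2 - (2 * m) ^ 2 + c12 * (-y1 - y1)
      + (y2 + m) * (σ - m + a1) - (y2 - m) * (σ - m - a1))
    + (a + 1 / 2) * ((y1 + c12) ^ 2 + (-y1 - c12) ^ 2 + 2 * (y2 - m + σ - (σ - m + a1)) ^ 2
      + 2 * ((σ - (σ - m + a1)) * (σ - (σ - m - a1)) - c12 ^ 2))
    - (p0 / m ^ 2 * ((y1 * d1 + (y2 - m) * d2) ^ 2 + ((y2 + m) * d1 + (-y1) * d2) ^ 2)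
      + (-p0 / m - β) * (((y2 + m) + (y2 - m)) * (d1 ^ 2 - d2 ^ 2) + 2 * d1 * d2 * (-y1 - y1)
        - (2 * m) * (y1 ^ 2 + (y2 + m) ^ 2 + (y2 - m) ^ 2 + (-y1) ^ 2)
        + (σ - m + a1) * (y1 ^ 2 + (y2 + m) ^ 2) + (σ - m - a1) * ((y2 - m) ^ 2 + (-y1) ^ 2)
        + 2 * c12 * (y1 * (y2 - m) + (y2 + m) * (-y1))))
    = 2 * Kq * (y1 ^ 2 + y2 ^ 2) + (4 * A * c12 - 4 * β * d1 * d2) * y1
      + (-4 * A * a1 + 2 * β * (d1 ^ 2 - d2 ^ 2)) * y2 + 2 * Kq * m ^ 2 - x := by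
  subst hK hA hu hx hs
  field_simp
  ring

/-- second identity -/
theorem psi_id (m σ a1 c12 d1 d2 p0 β a s Dt x u A Kq : ℝ) (hm : m ≠ 0)
    (hs : s = (σ - m) ^ 2 - a1 ^ 2 + 4 * m * (σ - m) - c12 ^ 2 - d1 ^ 2 - d2 ^ 2 - σ ^ 2)
    (hD : Dt = ((σ - m) ^ 2 - a1 ^ 2) * (2 * m) + 2 * c12 * d1 * d2 - (σ - m + a1) * d2 ^ 2
      - (σ - m - a1) * d1 ^ 2 - 2 * m * c12 ^ 2)
    (hx : x = m ^ 2 - a1 ^ 2 - c12 ^ 2 - s) (hu : u = σ - 2 * m) (hA : A = a - (p0 + β * m))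
    (hK : Kq = A + β * u - x * p0 / (2 * m ^ 2)) :
    8 * Kq * (2 * Kq * m ^ 2 - x) - ((4 * A * c12 - 4 * β * d1 * d2) ^ 2
      + (-4 * A * a1 + 2 * β * (d1 ^ 2 - d2 ^ 2)) ^ 2)
    = 16 * (A ^ 2 * s + A * β * (Dt - 2 * m * s)
      + x * (2 * a - 1 - 4 * (p0 + β * m)) * (A + β * u) / 2
      + x ^ 2 * ((p0 + β * m) * (p0 + β * m + 1) - m * β * (2 * (p0 + β * m) + 1))
        / (4 * m ^ 2)) := by
  subst hK hA hu hx hD hs
  field_simp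
  ring

/-- facts on the structure constants -/
theorem c_facts {c0 c1 C : ℝ} (h0 : 0 < c0) (h1 : 0 < c1) (h0C : c0 ≤ C) (h1C : c1 ≤ C)
    (hs : 4 * (c0 * c1) ≤ (C - c0 - c1) ^ 2) : c0 + c1 ≤ C ∧ 16 * (c0 * c1) ≤ C ^ 2 := by
  have hle : c0 + c1 ≤ C := by
    by_contra h
    push Not at h
    have e1 : 0 < c0 + c1 - C := by linarith
    have e2 : c0 + c1 - C ≤ c0 := by linarith
    have e3 : c0 + c1 - C ≤ c1 := by linarith
    have e4 : (c0 + c1 - C) * (c0 + c1 - C) ≤ c0 * c1 :=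
      mul_le_mul e2 e3 e1.le h0.le
    nlinarith [mul_pos h0 h1]
  refine ⟨hle, ?_⟩
  set w := C - c0 - c1 with hw
  have hw0 : 0 ≤ w := by linarith
  have hs' : 0 ≤ c0 + c1 := by linarith
  have hp : 0 < c0 * c1 := mul_pos h0 h1
  have h4 : 4 * (c0 * c1) ≤ (c0 + c1) ^ 2 := by nlinarith [sq_nonneg (c0 - c1)]
  have h5 : 4 * (c0 * c1) ≤ w * (c0 + c1) := by
    by_contra hcon
    push Not at hcon
    have h6 : (w * (c0 + c1)) ^ 2 < (4 * (c0 * c1)) ^ 2 := by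
      apply pow_lt_pow_left₀ hcon (mul_nonneg hw0 hs')
      norm_num
    have h7 : (4 * (c0 * c1)) * (4 * (c0 * c1)) ≤ w ^ 2 * (c0 + c1) ^ 2 :=
      mul_le_mul hs h4 (by linarith) (by positivity)
    nlinarith
  have h8 : C = w + (c0 + c1) := by rw [hw]; ring
  rw [h8]
  nlinarith

/-- the lower bound for `Kq` in scaled variables -/
theorem Kq_lower {e y v X : ℝ} (he : 0 < e) (he' : e ≤ 5 / 16) (hy : 0 ≤ y)
    (hv : -(e / 2) ≤ v) (hX : X ≤ 19 / 16) :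
    1 / 2 ≤ 19 / 20 + e * y + v - (9 / 20 - e / 2) * X / 2 := by
  have h1 : 0 ≤ e * y := by positivity
  have h2 : (9 / 20 - e / 2) * X ≤ (9 / 20 - e / 2) * (19 / 16) :=
    mul_le_mul_of_nonneg_left hX (by linarith)
  nlinarith

/-- the lower bound for `Ψ / 2` in scaled variables -/
theorem psi_lower {e y v X s : ℝ} (he : 0 < e) (he' : e ≤ 5 / 16) (hy : 0 ≤ y) (hy' : y ≤ 1 / 2)
    (hv : -(e / 2) ≤ v) (hv' : v ≤ 2 * (e * y)) (hs : -(3 * (e / 5) ^ 2) ≤ s) (hs' : s ≤ 0) :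
    e ^ 2 / 250 ≤ (19 / 20 + e * y) ^ 2 * s
      + (19 / 20 + e * y) * e * (e / 5 - 2 * (1 / 2 - y) * s)
      + (1 / 2 - y) ^ 2 * (X * (4 * (e * y)) * (19 / 20 + e * y + v) / 2
        + X ^ 2 * (261 / 400 - 19 / 20 * e + e ^ 2 * (y * (1 - y))) / 4) := by
  set A := 19 / 20 + e * y with hA
  set κ := A + v with hκ
  set q := 261 / 400 - 19 / 20 * e + e ^ 2 * (y * (1 - y)) with hq
  have hey : 0 ≤ e * y := by positivity
  have hey' : e * y ≤ 5 / 32 := by nlinarith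
  have hA1 : 19 / 20 ≤ A := by rw [hA]; linarith
  have hA2 : A ≤ 177 / 160 := by rw [hA]; linarith
  have hκ0 : 0 ≤ κ := by rw [hκ]; linarith
  have hκ1 : κ ≤ 19 / 20 + 15 / 16 * y := by
    have : e * y ≤ 5 / 16 * y := mul_le_mul_of_nonneg_right he' hy
    rw [hκ, hA]; linarith
  have hyy : 0 ≤ y * (1 - y) := mul_nonneg hy (by linarith)
  have hyy' : y * (1 - y) ≤ 1 / 4 := by nlinarith [sq_nonneg (y - 1 / 2)]
  have he2 : e ^ 2 ≤ 25 / 256 := by nlinarith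
  have hq1 : 71 / 200 ≤ q := by
    have : 0 ≤ e ^ 2 * (y * (1 - y)) := by positivity
    rw [hq]; linarith
  have hq2 : q ≤ 7 / 10 := by
    have : e ^ 2 * (y * (1 - y)) ≤ 25 / 256 * (1 / 4) :=
      mul_le_mul he2 hyy' hyy (by norm_num)
    rw [hq]; linarith
  have hq0 : 0 < q := by linarith
  -- the first part
  have hC0 : 37 / 500 * e ^ 2 ≤ A ^ 2 * s + A * e * (e / 5 - 2 * (1 / 2 - y) * s) := by
    have h1 : A ^ 2 * (-(3 * (e / 5) ^ 2)) ≤ A ^ 2 * s :=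
      mul_le_mul_of_nonneg_left hs (by positivity)
    have h2 : 0 ≤ A * e * (2 * (1 / 2 - y) * (-s)) := by
      have : 0 ≤ 1 / 2 - y := by linarith
      have : 0 ≤ -s := by linarith
      have : 0 ≤ A := by linarith
      positivity
    have h3 : 37 / 20 ≤ A * (5 - 3 * A) := by nlinarith
    have h4 : 37 / 20 * e ^ 2 ≤ A * (5 - 3 * A) * e ^ 2 :=
      mul_le_mul_of_nonneg_right h3 (by positivity)
    nlinarith
  -- the mixed term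
  have hmix : (1 / 2 - y) * (2 * y * κ) ≤ 19 / 125 := by
    have h1 : (1 / 2 - y) * (2 * y * κ) ≤ (1 / 2 - y) * (2 * y * (19 / 20 + 15 / 16 * y)) := by
      apply mul_le_mul_of_nonneg_left _ (by linarith)
      apply mul_le_mul_of_nonneg_left hκ1 (by linarith)
    have h2 : (1 / 2 - y) * (2 * y * (19 / 20 + 15 / 16 * y)) ≤ 19 / 125 := by
      nlinarith [sq_nonneg (y - 11 / 40), mul_nonneg hy (sq_nonneg (y - 11 / 40)),
        mul_nonneg (sub_nonneg.2 hy') (sq_nonneg (y - 11 / 40))]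
    exact h1.trans h2
  have hmix0 : 0 ≤ (1 / 2 - y) * (2 * y * κ) := by
    have : 0 ≤ 1 / 2 - y := by linarith
    positivity
  have hmix2 : ((1 / 2 - y) * (2 * y * κ)) ^ 2 ≤ (19 / 125) ^ 2 :=
    pow_le_pow_left₀ hmix0 hmix 2
  -- completing the square
  have hsq : (1 / 2 - y) ^ 2 * (X * (4 * (e * y)) * κ / 2 + X ^ 2 * q / 4)
      = ((1 / 2 - y) * (X * q / 2 + 2 * (e * y) * κ)) ^ 2 / q
        - e ^ 2 * ((1 / 2 - y) * (2 * y * κ)) ^ 2 / q := by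
    field_simp
    ring
  have h1 : 0 ≤ ((1 / 2 - y) * (X * q / 2 + 2 * (e * y) * κ)) ^ 2 / q := by positivity
  have h2 : e ^ 2 * ((1 / 2 - y) * (2 * y * κ)) ^ 2 / q ≤ e ^ 2 * (19 / 125) ^ 2 / (71 / 200) := by
    apply div_le_div₀ (by positivity) (mul_le_mul_of_nonneg_left hmix2 (by positivity))
      (by norm_num) hq1
  rw [hsq]
  have h3 : 0 < e ^ 2 := by positivity
  linarith

theorem X_upper {m μ s k x : ℝ} (h2 : (m - μ) ^ 2 - k ≤ 0) (hx : x = m ^ 2 - k - s)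
    (h7 : -s ≤ 3 / 19 * μ ^ 2) : x ≤ 19 / 16 * m ^ 2 := by
  nlinarith [sq_nonneg (16 * μ - 19 * m)]

theorem final_step {Kq Km Φ l1 l2 y1 y2 W N : ℝ} (hK : 1 / 2 ≤ Kq) (hKm : Kq ≤ Km)
    (h3 : 8 * Kq * Φ = (4 * Kq * y1 + l1) ^ 2 + (4 * Kq * y2 + l2) ^ 2 + 16 * W)
    (hW : N / 250 ≤ W) (hN : 0 < N) : N / (125 * Km) ≤ Φ := by
  have h5 := sq_nonneg (4 * Kq * y1 + l1)
  have h6 := sq_nonneg (4 * Kq * y2 + l2)
  have h7 : N ≤ 125 * (Kq * Φ) := by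
    have e1 : 8 * Kq * Φ = 8 * (Kq * Φ) := by ring
    rw [e1] at h3
    linarith
  have hΦ : 0 < Φ := by
    by_contra hcon
    push Not at hcon
    have : Kq * Φ ≤ 0 := mul_nonpos_of_nonneg_of_nonpos (by linarith) hcon
    linarith
  have h8 : Kq * Φ ≤ Km * Φ := mul_le_mul_of_nonneg_right hKm hΦ.le
  rw [div_le_iff₀ (by linarith)]
  have e2 : Φ * (125 * Km) = 125 * (Km * Φ) := by ring
  rw [e2]
  linarith

theorem disc_aux {a0 a1 C : ℝ}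
    (hs0 : a0 * a1 + a0 * C + a1 * C - ((a0 + a1 + C) / 2) ^ 2 ≤ 0) :
    4 * (a0 * a1) ≤ (C - a0 - a1) ^ 2 := by
  nlinarith

/-- the pointwise inequality in terms of real numbers -/
theorem main_real {a0 a1 C c11 c12 c22 d1 d2 c33 B11 B12 B21 B22 e : ℝ}
    (h0 : 0 < a0) (h01 : a0 ≤ a1) (h1C : a1 ≤ C)
    (hs0 : a0 * a1 + a0 * C + a1 * C - ((a0 + a1 + C) / 2) ^ 2 ≤ 0)
    (hs1 : -(3 * (a0 * a1 / C) ^ 2) ≤ a0 * a1 + a0 * C + a1 * C - ((a0 + a1 + C) / 2) ^ 2)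
    (htr : c11 + c22 + c33 = a0 + a1 + C)
    (he2 : c11 * c22 + c11 * c33 + c22 * c33 - c12 ^ 2 - d1 ^ 2 - d2 ^ 2
      = a0 * a1 + a0 * C + a1 * C)
    (hdet : c11 * c22 * c33 + 2 * c12 * d1 * d2 - c11 * d2 ^ 2 - c22 * d1 ^ 2 - c33 * c12 ^ 2
      = a0 * a1 * C)
    (hc33 : a0 ≤ c33) (hc33' : c33 ≤ C) (hmax : (a1 - c11) * (a1 - c22) - c12 ^ 2 ≤ 0)
    (htrB : B11 + B22 = 0) (hskew : B12 - B21 = c33) (he : e = 5 * (a0 * a1) / C ^ 2) :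
    C ^ 2 * e ^ 2 / (125 * (19 / 20 + e / 2 + e + 9 / 10 * ((a0 + a1 + C) / 2) / a0))
      ≤ (B11 * B22 - B12 * B21 - d1 ^ 2 - d2 ^ 2 - c33 ^ 2 + c12 * (B22 - B11) + B12 * c11
          - B21 * c22)
        + 19 / 10 * ((B11 + c12) ^ 2 + (B22 - c12) ^ 2
          + 2 * (B21 + (a0 + a1 + C) / 2 - c11) ^ 2
          + 2 * (((a0 + a1 + C) / 2 - c11) * ((a0 + a1 + C) / 2 - c22) - c12 ^ 2))
        - ((9 / 20 - e / 2) / (c33 / 2) ^ 2 * ((B11 * d1 + B21 * d2) ^ 2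
            + (B12 * d1 + B22 * d2) ^ 2)
          + (-(9 / 20 - e / 2) / (c33 / 2) - e / C) * ((B12 + B21) * (d1 ^ 2 - d2 ^ 2)
            + 2 * d1 * d2 * (B22 - B11)
            - c33 * (B11 ^ 2 + B12 ^ 2 + B21 ^ 2 + B22 ^ 2) + c11 * (B11 ^ 2 + B12 ^ 2)
            + c22 * (B21 ^ 2 + B22 ^ 2) + 2 * c12 * (B11 * B21 + B12 * B22))) := by
  have h1 : 0 < a1 := lt_of_lt_of_le h0 h01
  have hC : 0 < C := lt_of_lt_of_le h1 h1C
  obtain ⟨hle, h16⟩ := c_facts h0 h1 (h01.trans h1C) h1C (disc_aux hs0)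
  have hp : 0 < a0 * a1 := mul_pos h0 h1
  have he0 : 0 < e := by rw [he]; positivity
  have he1 : e ≤ 5 / 16 := by
    rw [he, div_le_iff₀ (by positivity)]
    linarith
  have heC : e * C ^ 2 = 5 * (a0 * a1) := by rw [he]; field_simp
  -- the variables
  obtain ⟨m, hm⟩ : ∃ m, m = c33 / 2 := ⟨_, rfl⟩
  obtain ⟨σ, hσ⟩ : ∃ σ, σ = (a0 + a1 + C) / 2 := ⟨_, rfl⟩
  obtain ⟨a, ha⟩ : ∃ a, a = (c11 - c22) / 2 := ⟨_, rfl⟩
  obtain ⟨y1, hy1⟩ : ∃ y1, y1 = B11 := ⟨_, rfl⟩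
  obtain ⟨y2, hy2⟩ : ∃ y2, y2 = B21 + m := ⟨_, rfl⟩
  have e33 : c33 = 2 * m := by rw [hm]; ring
  have e11 : c11 = σ - m + a := by rw [hσ, hm, ha]; linarith
  have e22 : c22 = σ - m - a := by rw [hσ, hm, ha]; linarith
  have eB22 : B22 = -y1 := by rw [hy1]; linarith
  have eB21 : B21 = y2 - m := by rw [hy2]; ring
  have eB12 : B12 = y2 + m := by rw [hy2]; linarith
  have hm0 : 0 < m := by rw [hm]; linarith
  have hma : a0 / 2 ≤ m := by rw [hm]; linarith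
  have hmC : m ≤ C / 2 := by rw [hm]; linarith
  rw [← hσ]
  rw [← hσ] at hs0 hs1
  obtain ⟨s, hs⟩ : ∃ s, s = a0 * a1 + a0 * C + a1 * C - σ ^ 2 := ⟨_, rfl⟩
  rw [← hs] at hs0 hs1
  have hs' : s = (σ - m) ^ 2 - a ^ 2 + 4 * m * (σ - m) - c12 ^ 2 - d1 ^ 2 - d2 ^ 2 - σ ^ 2 := by
    rw [hs, ← he2, e11, e22, e33]; ring
  obtain ⟨x, hx⟩ : ∃ x, x = m ^ 2 - a ^ 2 - c12 ^ 2 - s := ⟨_, rfl⟩
  obtain ⟨u, hu⟩ : ∃ u, u = σ - 2 * m := ⟨_, rfl⟩
  obtain ⟨β, hβ⟩ : ∃ β, β = e / C := ⟨_, rfl⟩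
  obtain ⟨p0, hp0⟩ : ∃ p0, p0 = 9 / 20 - e / 2 := ⟨_, rfl⟩
  obtain ⟨A, hA⟩ : ∃ A, A = 7 / 5 - (p0 + β * m) := ⟨_, rfl⟩
  obtain ⟨Kq, hK⟩ : ∃ Kq, Kq = A + β * u - x * p0 / (2 * m ^ 2) := ⟨_, rfl⟩
  have hD : a0 * a1 * C = ((σ - m) ^ 2 - a ^ 2) * (2 * m) + 2 * c12 * d1 * d2
      - (σ - m + a) * d2 ^ 2 - (σ - m - a) * d1 ^ 2 - 2 * m * c12 ^ 2 := by
    rw [← hdet, e11, e22, e33]; ring
  have hquad := phi_quad y1 y2 m σ a c12 d1 d2 p0 β (7 / 5) s x u A Kq hm0.ne' hs' hx hu hA hK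
  have hpsi := psi_id m σ a c12 d1 d2 p0 β (7 / 5) s (a0 * a1 * C) x u A Kq hm0.ne' hs' hD hx hu
    hA hK
  -- scaled variables
  obtain ⟨y, hy⟩ : ∃ y, y = 1 / 2 - m / C := ⟨_, rfl⟩
  have hmy : m = C * (1 / 2 - y) := by rw [hy]; field_simp; ring
  have hy0 : 0 ≤ y := by
    rw [hy, sub_nonneg, div_le_iff₀ hC]; linarith
  have hy1' : y ≤ 1 / 2 := by
    rw [hy]; have := div_pos hm0 hC; linarith
  have hβC : β * C = e := by rw [hβ]; field_simp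
  have hβm : β * m = e * (1 / 2 - y) := by rw [hmy, ← mul_assoc, hβC]
  have hβ0 : 0 < β := by rw [hβ]; positivity
  obtain ⟨v, hv⟩ : ∃ v, v = β * u := ⟨_, rfl⟩
  have hv1 : -(e / 2) ≤ v := by
    have : -(C / 2) ≤ u := by rw [hu, hσ]; linarith
    have := mul_le_mul_of_nonneg_left this hβ0.le
    rw [hv]; linarith
  have hv2 : v ≤ 2 * (e * y) := by
    have h2 : u ≤ 2 * (C * y) := by
      have : C * y = C / 2 - m := by rw [hmy]; ring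
      rw [hu, hσ, this]; linarith
    have h3 := mul_le_mul_of_nonneg_left h2 hβ0.le
    rw [hv]
    calc β * u ≤ β * (2 * (C * y)) := h3
      _ = 2 * (β * C * y) := by ring
      _ = 2 * (e * y) := by rw [hβC]
  obtain ⟨S, hS⟩ : ∃ S, S = s / C ^ 2 := ⟨_, rfl⟩
  have hsS : s = C ^ 2 * S := by rw [hS]; field_simp
  have hS1 : -(3 * (e / 5) ^ 2) ≤ S := by
    rw [hS, le_div_iff₀ (by positivity)]
    have : -(3 * (e / 5) ^ 2) * C ^ 2 = -(3 * (a0 * a1 / C) ^ 2) := by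
      rw [he]; field_simp
    rw [this]; exact hs1
  have hS0 : S ≤ 0 := by
    rw [hS]; exact div_nonpos_of_nonpos_of_nonneg hs0 (by positivity)
  obtain ⟨X, hX⟩ : ∃ X, X = x / m ^ 2 := ⟨_, rfl⟩
  have hxX : x = X * m ^ 2 := by rw [hX]; field_simp
  -- the upper bound of X
  have hX1 : X ≤ 19 / 16 := by
    obtain ⟨μ, hμ⟩ : ∃ μ, μ = σ - a1 := ⟨_, rfl⟩
    have h2 : (m - μ) ^ 2 - a ^ 2 - c12 ^ 2 ≤ 0 := by
      have : (a1 - c11) * (a1 - c22) - c12 ^ 2 = (m - μ) ^ 2 - a ^ 2 - c12 ^ 2 := by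
        rw [e11, e22, hμ]; ring
      rw [← this]; exact hmax
    have h3 : μ ^ 2 = a0 * C - s := by rw [hμ, hs, hσ]; ring
    have h4 : -s ≤ 3 / 16 * (a0 * C) := by
      have h5 : (a0 * a1) * (a0 * a1) ≤ (C ^ 2 / 16) * (a0 * C) :=
        mul_le_mul (by linarith) (mul_le_mul_of_nonneg_left h1C h0.le) hp.le (by positivity)
      have h6 : 3 * (a0 * a1 / C) ^ 2 ≤ 3 / 16 * (a0 * C) := by
        rw [div_pow, mul_div_assoc', div_le_iff₀ (by positivity)]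
        have e5 : 3 * (a0 * a1) ^ 2 = 3 * ((a0 * a1) * (a0 * a1)) := by ring
        have e6 : 3 / 16 * (a0 * C) * C ^ 2 = 3 * ((C ^ 2 / 16) * (a0 * C)) := by ring
        rw [e5, e6]
        exact mul_le_mul_of_nonneg_left h5 (by norm_num)
      linarith only [hs1, h6]
    have h7 : -s ≤ 3 / 19 * μ ^ 2 := by linarith only [h3, h4]
    rw [hX, div_le_iff₀ (by positivity)]
    exact X_upper (k := a ^ 2 + c12 ^ 2) (by linarith only [h2]) (by rw [hx]; ring) h7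
  -- the values of A, Kq
  have hAy : A = 19 / 20 + e * y := by
    rw [hA, hp0, hβm]; ring
  have hKv : Kq = 19 / 20 + e * y + v - (9 / 20 - e / 2) * X / 2 := by
    rw [hK, hAy, ← hv, hp0, hxX]; field_simp
  have hKlow : 1 / 2 ≤ Kq := by
    rw [hKv]; exact Kq_lower he0 he1 hy0 hv1 hX1
  have hKq0 : 0 < Kq := by linarith
  have hp0pos : 0 < p0 := by rw [hp0]; linarith
  have hey : e * y ≤ e / 2 := by
    have := mul_le_mul_of_nonneg_left hy1' he0.le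
    linarith only [this]
  have hKup : Kq ≤ 19 / 20 + e / 2 + e + 9 / 10 * σ / a0 := by
    have h2 : 0 ≤ 2 * m * u + x := by
      have : 2 * m * u + x = d1 ^ 2 + d2 ^ 2 := by rw [hx, hu, hs']; ring
      rw [this]; positivity
    have h3 : -(x * p0 / (2 * m ^ 2)) ≤ 9 / 10 * σ / a0 := by
      have hσ0 : 0 < σ := by rw [hσ]; linarith
      have h4 : -x ≤ 2 * m * σ := by
        have : 2 * m * u ≤ 2 * m * σ :=
          mul_le_mul_of_nonneg_left (by rw [hu]; linarith) (by linarith)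
        linarith
      have h5 : -(x * p0 / (2 * m ^ 2)) ≤ 2 * m * σ * (9 / 20) / (2 * m ^ 2) := by
        rw [← neg_div]
        apply div_le_div_of_nonneg_right _ (by positivity)
        have h6 : -x * p0 ≤ 2 * m * σ * p0 := mul_le_mul_of_nonneg_right h4 hp0pos.le
        have h7 : 2 * m * σ * p0 ≤ 2 * m * σ * (9 / 20) :=
          mul_le_mul_of_nonneg_left (by rw [hp0]; linarith) (by positivity)
        linarith
      refine h5.trans ?_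
      have h8 : 2 * m * σ * (9 / 20) / (2 * m ^ 2) = 9 / 20 * σ / m := by field_simp
      rw [h8, div_le_div_iff₀ hm0 h0]
      have h9 : 9 / 20 * σ * a0 ≤ 9 / 20 * σ * (2 * m) :=
        mul_le_mul_of_nonneg_left (by linarith) (by positivity)
      linarith
    rw [hK, hAy, ← hv]
    linarith
  -- Ψ
  have hΨ := psi_lower (X := X) he0 he1 hy0 hy1' hv1 hv2 hS1 hS0
  have hpsi2 : A ^ 2 * s + A * β * (a0 * a1 * C - 2 * m * s)
      + x * (2 * (7 / 5) - 1 - 4 * (p0 + β * m)) * (A + β * u) / 2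
      + x ^ 2 * ((p0 + β * m) * (p0 + β * m + 1) - m * β * (2 * (p0 + β * m) + 1)) / (4 * m ^ 2)
      = C ^ 2 * ((19 / 20 + e * y) ^ 2 * S
      + (19 / 20 + e * y) * e * (e / 5 - 2 * (1 / 2 - y) * S)
      + (1 / 2 - y) ^ 2 * (X * (4 * (e * y)) * (19 / 20 + e * y + v) / 2
        + X ^ 2 * (261 / 400 - 19 / 20 * e + e ^ 2 * (y * (1 - y))) / 4)) := by
    have h2 : x ^ 2 * ((p0 + β * m) * (p0 + β * m + 1) - m * β * (2 * (p0 + β * m) + 1))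
        / (4 * m ^ 2)
        = X ^ 2 * m ^ 2 * ((p0 + β * m) * (p0 + β * m + 1) - β * m * (2 * (p0 + β * m) + 1))
          / 4 := by
      rw [hxX]; field_simp
    have h3 : a0 * a1 = e * C ^ 2 / 5 := by linarith
    have h4 : A * β * (a0 * a1 * C - 2 * m * s)
        = A * e * (C ^ 2 * (e / 5 - 2 * (1 / 2 - y) * S)) := by
      calc A * β * (a0 * a1 * C - 2 * m * s)
          = A * (β * C) * (a0 * a1) - 2 * A * (β * m) * s := by ring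
        _ = _ := by rw [hβC, hβm, h3, hsS]; ring
    rw [h2, h4, ← hv, hβm, hAy, hp0, hsS, hxX]
    have h5 : m ^ 2 = C ^ 2 * (1 / 2 - y) ^ 2 := by rw [hmy]; ring
    rw [h5]
    ring
  rw [hpsi2] at hpsi
  -- conclusion
  obtain ⟨Φ, hΦ⟩ : ∃ Φ, Φ = 2 * Kq * (y1 ^ 2 + y2 ^ 2) + (4 * A * c12 - 4 * β * d1 * d2) * y1
      + (-4 * A * a + 2 * β * (d1 ^ 2 - d2 ^ 2)) * y2 + 2 * Kq * m ^ 2 - x := ⟨_, rfl⟩
  rw [← hΦ] at hquad
  have hfin : C ^ 2 * e ^ 2 / (125 * (19 / 20 + e / 2 + e + 9 / 10 * σ / a0)) ≤ Φ := by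
    have h4 := mul_le_mul_of_nonneg_left hΨ (by positivity : (0 : ℝ) ≤ C ^ 2)
    refine final_step hKlow hKup (y1 := y1) (y2 := y2) (l1 := 4 * A * c12 - 4 * β * d1 * d2)
      (l2 := -4 * A * a + 2 * β * (d1 ^ 2 - d2 ^ 2)) ?_ (le_trans (le_of_eq ?_) h4)
      (by positivity)
    · rw [← hpsi, hΦ]
      ring
    · ring
  refine hfin.trans (le_of_eq ?_)
  rw [← hquad, e11, e22, e33, eB22, eB21, eB12, ← hy1, ← hp0, ← hβ]
  have e1 : 2 * m / 2 = m := by ring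
  rw [e1]
  ring

theorem tang_det {c : Fin 3 → ℝ} {H : ℝ} (P : PtData c H) (t : ℝ) :
    (t - cq c P.e1 P.e1) * (t - cq c P.e2 P.e2) - cq c P.e1 P.e2 ^ 2
      = (t - c 0) * (t - c 1) * (P.e1 0 * P.e2 1 - P.e1 1 * P.e2 0) ^ 2
        + (t - c 0) * (t - c 2) * (P.e1 0 * P.e2 2 - P.e1 2 * P.e2 0) ^ 2
        + (t - c 1) * (t - c 2) * (P.e1 1 * P.e2 2 - P.e1 2 * P.e2 1) ^ 2 := by
  have h11 := P.o11
  have h22 := P.o22
  have h12 := P.o12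
  simp only [Fin.sum_univ_three] at h11 h22 h12
  have e1 : t - cq c P.e1 P.e1 = (t - c 0) * (P.e1 0 * P.e1 0) + (t - c 1) * (P.e1 1 * P.e1 1)
      + (t - c 2) * (P.e1 2 * P.e1 2) := by
    simp only [cq, Fin.sum_univ_three]
    linear_combination (-t) * h11
  have e2 : t - cq c P.e2 P.e2 = (t - c 0) * (P.e2 0 * P.e2 0) + (t - c 1) * (P.e2 1 * P.e2 1)
      + (t - c 2) * (P.e2 2 * P.e2 2) := by
    simp only [cq, Fin.sum_univ_three]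
    linear_combination (-t) * h22
  have e3 : cq c P.e1 P.e2 = -((t - c 0) * (P.e1 0 * P.e2 0) + (t - c 1) * (P.e1 1 * P.e2 1)
      + (t - c 2) * (P.e1 2 * P.e2 2)) := by
    simp only [cq, Fin.sum_univ_three]
    linear_combination t * h12
  rw [e1, e2, e3]
  ring

theorem nn_bounds {c : Fin 3 → ℝ} {H : ℝ} (P : PtData c H) {lo hi : ℝ} (hlo : ∀ i, lo ≤ c i)
    (hhi : ∀ i, c i ≤ hi) : lo ≤ cq c P.n P.n ∧ cq c P.n P.n ≤ hi := by
  have h33 := P.o33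
  simp only [Fin.sum_univ_three] at h33
  have e1 : cq c P.n P.n - lo = (c 0 - lo) * (P.n 0) ^ 2 + (c 1 - lo) * (P.n 1) ^ 2
      + (c 2 - lo) * (P.n 2) ^ 2 := by
    simp only [cq, Fin.sum_univ_three]
    linear_combination lo * h33
  have e2 : hi - cq c P.n P.n = (hi - c 0) * (P.n 0) ^ 2 + (hi - c 1) * (P.n 1) ^ 2
      + (hi - c 2) * (P.n 2) ^ 2 := by
    simp only [cq, Fin.sum_univ_three]
    linear_combination (-hi) * h33
  have h1 : 0 ≤ cq c P.n P.n - lo := by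
    rw [e1]
    have := hlo 0
    have := hlo 1
    have := hlo 2
    have a0 : 0 ≤ (c 0 - lo) * (P.n 0) ^ 2 := mul_nonneg (by linarith) (sq_nonneg _)
    have a1 : 0 ≤ (c 1 - lo) * (P.n 1) ^ 2 := mul_nonneg (by linarith) (sq_nonneg _)
    have a2 : 0 ≤ (c 2 - lo) * (P.n 2) ^ 2 := mul_nonneg (by linarith) (sq_nonneg _)
    linarith
  have h2 : 0 ≤ hi - cq c P.n P.n := by
    rw [e2]
    have := hhi 0
    have := hhi 1
    have := hhi 2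
    have a0 : 0 ≤ (hi - c 0) * (P.n 0) ^ 2 := mul_nonneg (by linarith) (sq_nonneg _)
    have a1 : 0 ≤ (hi - c 1) * (P.n 1) ^ 2 := mul_nonneg (by linarith) (sq_nonneg _)
    have a2 : 0 ≤ (hi - c 2) * (P.n 2) ^ 2 := mul_nonneg (by linarith) (sq_nonneg _)
    linarith
  exact ⟨by linarith, by linarith⟩

/-- the case `scal c ≤ 0`, with the ordered pair `a0 ≤ a1` of the numbers `c 0, c 1` -/
theorem good_aux {c : Fin 3 → ℝ} {a0 a1 : ℝ} (h0 : 0 < a0) (h01 : a0 ≤ a1) (h1C : a1 ≤ c 2)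
    (hsum : a0 + a1 = c 0 + c 1) (hprod : a0 * a1 = c 0 * c 1) (hlo : ∀ i, a0 ≤ c i)
    (hhi : ∀ i, c i ≤ c 2)
    (hmax : ∀ P : PtData c 0, (a1 - cq c P.e1 P.e1) * (a1 - cq c P.e2 P.e2)
      - cq c P.e1 P.e2 ^ 2 ≤ 0)
    (hS : -(6 * (c 0 * c 1 / c 2) ^ 2) ≤ scal c) (hS0 : scal c ≤ 0) : Good c 0 := by
  have hC : 0 < c 2 := lt_of_lt_of_le (lt_of_lt_of_le h0 h01) h1C
  have hp : 0 < a0 * a1 := mul_pos h0 (lt_of_lt_of_le h0 h01)
  obtain ⟨e, he⟩ : ∃ e, e = 5 * (a0 * a1) / (c 2) ^ 2 := ⟨_, rfl⟩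
  have he0 : 0 < e := by rw [he]; positivity
  have hT : a0 + a1 + c 2 = c 0 + c 1 + c 2 := by rw [hsum]
  have hE : a0 * a1 + a0 * c 2 + a1 * c 2 = c 0 * c 1 + c 0 * c 2 + c 1 * c 2 := by
    rw [hprod]; linear_combination (c 2) * hsum
  have hsc : a0 * a1 + a0 * c 2 + a1 * c 2 - ((a0 + a1 + c 2) / 2) ^ 2 = scal c / 2 := by
    rw [hE, hT, scal_eq]; ring
  have hs0 : a0 * a1 + a0 * c 2 + a1 * c 2 - ((a0 + a1 + c 2) / 2) ^ 2 ≤ 0 := by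
    rw [hsc]; linarith
  have hs1 : -(3 * (a0 * a1 / c 2) ^ 2)
      ≤ a0 * a1 + a0 * c 2 + a1 * c 2 - ((a0 + a1 + c 2) / 2) ^ 2 := by
    rw [hsc, hprod]; linarith
  have hsp : 0 < a0 + a1 + c 2 := by linarith
  refine ⟨19 / 10, c 2 ^ 2 * e ^ 2 / (125 * (19 / 20 + e / 2 + e
      + 9 / 10 * ((a0 + a1 + c 2) / 2) / a0)),
    fun t => -(9 / 20 - e / 2) * Real.log t - e / c 2 * t,
    fun t => -(9 / 20 - e / 2) / t - e / c 2, fun t => (9 / 20 - e / 2) / t ^ 2,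
    by norm_num, by norm_num, by positivity, ?_, ?_, ?_, ?_⟩
  · intro t ht
    have h1 := ((Real.hasDerivAt_log ht.ne').const_mul (-(9 / 20 - e / 2))).sub
      ((hasDerivAt_id t).const_mul (e / c 2))
    refine h1.congr_deriv ?_
    change _ = -(9 / 20 - e / 2) / t - e / c 2
    rw [mul_one, div_eq_mul_inv (-(9 / 20 - e / 2)) t]
  · intro t ht
    have h1 := ((hasDerivAt_inv ht.ne').const_mul (-(9 / 20 - e / 2))).sub_const (e / c 2)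
    have h2 : (fun t : ℝ => -(9 / 20 - e / 2) / t - e / c 2)
        = fun t => -(9 / 20 - e / 2) * t⁻¹ - e / c 2 := by
      funext t
      rw [div_eq_mul_inv (-(9 / 20 - e / 2)) t]
    rw [h2]
    refine h1.congr_deriv ?_
    change _ = (9 / 20 - e / 2) / t ^ 2
    rw [div_eq_mul_inv (9 / 20 - e / 2) (t ^ 2)]
    ring
  · apply ContinuousOn.div continuousOn_const (by fun_prop)
    intro t ht
    exact pow_ne_zero 2 (ne_of_gt ht)
  · intro P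
    obtain ⟨hn1, hn2⟩ := nn_bounds P hlo hhi
    have htr := P.tr_c
    rw [← hT] at htr
    have he2 := P.e2_c
    rw [← hE] at he2
    have hdet := P.det_c
    rw [← hprod] at hdet
    have hB : P.B11 + P.B22 = 0 := by rw [P.tr, mul_zero]
    have key := main_real (e := e) h0 h01 h1C hs0 hs1 htr he2 hdet hn1 hn2 (hmax P) hB P.skew he
    refine key.trans (le_of_eq ?_)
    simp only [PtData.K, PtData.q, PtData.Gm, PtData.Dm, PtData.m, hT]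

end GoodMinimalAux

open GoodMinimalAux

theorem good_minimal {c : Fin 3 → ℝ} (hc : ∀ i, 0 < c i) (h0 : c 0 ≤ c 2) (h1 : c 1 ≤ c 2)
    (hS : -(6 * (c 0 * c 1 / c 2) ^ 2) ≤ scal c) : Good c 0 := by
  by_cases hpos : 0 < scal c
  · apply good_classical
    have : (3 : ℝ) * 0 ^ 2 + scal c / 2 = scal c / 2 := by ring
    rw [this]
    linarith
  push Not at hpos
  have hhi : ∀ i, c i ≤ c 2 := by
    intro i
    fin_cases i
    · exact h0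
    · exact h1
    · exact le_refl _
  rcases le_total (c 0) (c 1) with h01 | h01
  · refine good_aux (hc 0) h01 h1 rfl rfl ?_ hhi ?_ hS hpos
    · intro i
      fin_cases i
      · exact le_refl _
      · exact h01
      · exact h0
    · intro P
      rw [tang_det, sub_self]
      have := mul_nonneg (mul_nonneg (sub_nonneg.2 h01) (sub_nonneg.2 h1))
        (sq_nonneg (P.e1 0 * P.e2 2 - P.e1 2 * P.e2 0))
      nlinarith
  · refine good_aux (hc 1) h01 h0 (add_comm _ _) (mul_comm _ _) ?_ hhi ?_ hS hpos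
    · intro i
      fin_cases i
      · exact h01
      · exact le_refl _
      · exact h1
    · intro P
      rw [tang_det, sub_self]
      have := mul_nonneg (mul_nonneg (sub_nonneg.2 h01) (sub_nonneg.2 h0))
        (sq_nonneg (P.e1 1 * P.e2 2 - P.e1 2 * P.e2 1))
      nlinarith

end Pool.Agent.SU2H
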