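import Pool.Agent.Lib.SU2H.Defs

/-!
# Smoothness of the velocities and the Maurer-Cartan equation

Proof sketch.  With `θ_v = star φ * ∂_v φ` one has `∂_x θ_y - ∂_y θ_x = star (∂_x φ) ∂_y φ -
star (∂_y φ) ∂_x φ` (second derivatives of `φ` are symmetric), and from `star φ * φ = 1` on `D`:
`star (∂_v φ) = - star φ * ∂_v φ * star φ` (also `φ * star φ = 1`), and `θ_v` is purely imaginary.
So `∂_x θ_y - ∂_y θ_x = -(θ_x θ_y - θ_y θ_x)`, and for imaginary quaternions with coordinate vectors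
`s, t`: `imv (p q - q p) = 2 s × t`.  (Alternatively avoid `star φ * φ = 1` for the second factor:
`star a * b` with `a = φ θ_x`, `b = φ θ_y` gives `star θ_x * (star φ φ) * θ_y = -θ_x θ_y`.)
-/

noncomputable section

namespace Pool.Agent.SU2H

open scoped Quaternion ContDiff

namespace MCAux

/-- the coordinates of the imaginary part as continuous linear maps -/
def imc (i : Fin 3) : ℍ[ℝ] →L[ℝ] ℝ :=
  LinearMap.toContinuousLinearMap (![QuaternionAlgebra.imIₗ _ _ _, QuaternionAlgebra.imJₗ _ _ _,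
    QuaternionAlgebra.imKₗ _ _ _] i)

theorem imc_apply (i : Fin 3) (q : ℍ[ℝ]) : imc i q = imv q i := by
  fin_cases i <;> rfl

/-- conjugation as a continuous linear map -/
def st : ℍ[ℝ] →L[ℝ] ℍ[ℝ] :=
  LinearMap.toContinuousLinearMap
    { toFun := fun q => star q
      map_add' := fun a b => star_add a b
      map_smul' := fun r q => by simp }

theorem st_apply (q : ℍ[ℝ]) : st q = star q := rfl

variable {D : Set ℂ} {φ : ℂ → ℍ[ℝ]}

theorem d1 (hD : IsOpen D) (hφ : ContDiffOn ℝ ∞ φ D) (v : ℂ) :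
    ContDiffOn ℝ ∞ (fun z => fderiv ℝ φ z v) D :=
  (hφ.fderiv_of_isOpen hD (by simp)).clm_apply contDiffOn_const

theorem th_smooth (hD : IsOpen D) (hφ : ContDiffOn ℝ ∞ φ D) (v : ℂ) :
    ContDiffOn ℝ ∞ (fun z => star (φ z) * fderiv ℝ φ z v) D :=
  (st.contDiff.comp_contDiffOn hφ).mul (d1 hD hφ v)

theorem d2_has (hD : IsOpen D) (hφ : ContDiffOn ℝ ∞ φ D) {z : ℂ} (hz : z ∈ D) :
    HasFDerivAt (fderiv ℝ φ) (fderiv ℝ (fderiv ℝ φ) z) z := by
  have h1 : ContDiffOn ℝ ∞ (fderiv ℝ φ) D := hφ.fderiv_of_isOpen hD (by simp)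
  exact ((h1.contDiffAt (hD.mem_nhds hz)).differentiableAt (by simp)).hasFDerivAt

theorem th_has (hD : IsOpen D) (hφ : ContDiffOn ℝ ∞ φ D) {z : ℂ} (hz : z ∈ D) (v u : ℂ) :
    fderiv ℝ (fun w => star (φ w) * fderiv ℝ φ w v) z u =
      star (fderiv ℝ φ z u) * fderiv ℝ φ z v +
        star (φ z) * fderiv ℝ (fderiv ℝ φ) z u v := by
  have h0 : HasFDerivAt φ (fderiv ℝ φ z) z :=
    ((hφ.contDiffAt (hD.mem_nhds hz)).differentiableAt (by simp)).hasFDerivAt
  have h1 : HasFDerivAt (fun w => star (φ w)) (st.comp (fderiv ℝ φ z)) z :=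
    st.hasFDerivAt.comp z h0
  have h2 : HasFDerivAt (fun w => fderiv ℝ φ w v)
      ((fderiv ℝ (fderiv ℝ φ) z).flip v) z := by
    have h3 := (d2_has hD hφ hz).clm_apply (hasFDerivAt_const v z)
    rwa [ContinuousLinearMap.comp_zero, zero_add] at h3
  have h3 : HasFDerivAt (fun w => star (φ w) * fderiv ℝ φ w v) _ z := h1.mul' h2
  rw [h3.fderiv, add_comm (star (fderiv ℝ φ z u) * fderiv ℝ φ z v)]
  rfl

theorem vel_has {ℓ : Fin 3 → ℝ} (hD : IsOpen D) (hφ : ContDiffOn ℝ ∞ φ D) {z : ℂ} (hz : z ∈ D)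
    (v u : ℂ) (i : Fin 3) :
    fderiv ℝ (fun w => vel ℓ φ v w i) z u = ℓ i * imv (star (fderiv ℝ φ z u) * fderiv ℝ φ z v +
        star (φ z) * fderiv ℝ (fderiv ℝ φ) z u v) i := by
  have h1 : HasFDerivAt (fun w => star (φ w) * fderiv ℝ φ w v)
      (fderiv ℝ (fun w => star (φ w) * fderiv ℝ φ w v) z) z :=
    (((th_smooth hD hφ v).contDiffAt (hD.mem_nhds hz)).differentiableAt (by simp)).hasFDerivAt
  have h2 := ((imc i).hasFDerivAt.comp z h1).const_mul (ℓ i)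
  have h3 : (fun w => vel ℓ φ v w i) =
      fun w => ℓ i * (imc i ∘ fun w => star (φ w) * fderiv ℝ φ w v) w := by
    funext w
    simp [vel, imc_apply]
  rw [h3, h2.fderiv, smul_apply, ContinuousLinearMap.comp_apply, th_has hD hφ hz,
    imc_apply, smul_eq_mul]

theorem norm_one {q : ℍ[ℝ]} (h : ‖q‖ = 1) : star q * q = 1 ∧ q * star q = 1 := by
  have h1 : Quaternion.normSq q = 1 := by
    rw [Quaternion.normSq_eq_norm_mul_self, h, mul_one]
  constructor
  · rw [Quaternion.star_mul_self, h1]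
    rfl
  · rw [Quaternion.self_mul_star, h1]
    rfl

theorem re_zero (hD : IsOpen D) (hφ : ContDiffOn ℝ ∞ φ D) (hu : ∀ z ∈ D, ‖φ z‖ = 1) {z : ℂ}
    (hz : z ∈ D) (v : ℂ) : (star (φ z) * fderiv ℝ φ z v).re = 0 := by
  have h0 : HasFDerivAt φ (fderiv ℝ φ z) z :=
    ((hφ.contDiffAt (hD.mem_nhds hz)).differentiableAt (by simp)).hasFDerivAt
  have h1 : HasFDerivAt (fun w => star (φ w)) (st.comp (fderiv ℝ φ z)) z :=
    st.hasFDerivAt.comp z h0
  have h2 : HasFDerivAt (fun w => star (φ w) * φ w) _ z := h1.mul' h0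
  have h3 : (fun w => star (φ w) * φ w) =ᶠ[nhds z] fun _ => 1 := by
    filter_upwards [hD.mem_nhds hz] with w hw
    exact (norm_one (hu w hw)).1
  have h4 := h2.unique ((hasFDerivAt_const (1 : ℍ[ℝ]) z).congr_of_eventuallyEq h3)
  have h5 := congrArg (fun L : ℂ →L[ℝ] ℍ[ℝ] => L v) h4
  change star (φ z) * fderiv ℝ φ z v + star (fderiv ℝ φ z v) * φ z = 0 at h5
  have h6 := congrArg (fun q : ℍ[ℝ] => q.re) h5
  simp only [Quaternion.re_add, Quaternion.re_mul, Quaternion.re_star, Quaternion.imI_star,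
    Quaternion.imJ_star, Quaternion.imK_star, Quaternion.re_zero] at h6 ⊢
  linarith

end MCAux

open MCAux

theorem vel_smooth {ℓ : Fin 3 → ℝ} {D : Set ℂ} (hD : IsOpen D) {φ : ℂ → ℍ[ℝ]}
    (hφ : ContDiffOn ℝ ∞ φ D) (v : ℂ) (i : Fin 3) :
    ContDiffOn ℝ ∞ (fun z => vel ℓ φ v z i) D := by
  have h1 := ((imc i).contDiff.comp_contDiffOn (th_smooth hD hφ v))
  have h2 := (contDiffOn_const (c := ℓ i)).mul h1
  refine h2.congr fun z _ => ?_
  simp [vel, imc_apply]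

theorem maurer_cartan {ℓ : Fin 3 → ℝ} (hℓ : ∀ i, 0 < ℓ i) {D : Set ℂ} (hD : IsOpen D)
    {φ : ℂ → ℍ[ℝ]} (hφ : ContDiffOn ℝ ∞ φ D) (hu : ∀ z ∈ D, ‖φ z‖ = 1) {z : ℂ} (hz : z ∈ D)
    (i : Fin 3) :
    fderiv ℝ (fun w => vel ℓ φ Complex.I w i) z 1 - fderiv ℝ (fun w => vel ℓ φ 1 w i) z Complex.I
      + sc ℓ i * crossProduct (vel ℓ φ 1 z) (vel ℓ φ Complex.I z) i = 0 := by
  have hsym : fderiv ℝ (fderiv ℝ φ) z 1 Complex.I = fderiv ℝ (fderiv ℝ φ) z Complex.I 1 :=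
    ((hφ.contDiffAt (hD.mem_nhds hz)).isSymmSndFDerivAt (by
      rw [minSmoothness_of_isRCLikeNormedField]
      exact WithTop.coe_le_coe.2 (le_top : (2 : ℕ∞) ≤ ⊤))) 1 Complex.I
  rw [vel_has hD hφ hz, vel_has hD hφ hz, hsym]
  have hp := re_zero hD hφ hu hz 1
  have hq := re_zero hD hφ hu hz Complex.I
  set p := star (φ z) * fderiv ℝ φ z 1 with hpdef
  set q := star (φ z) * fderiv ℝ φ z Complex.I with hqdef
  have h1 := (norm_one (hu z hz)).2
  have e1 : star (fderiv ℝ φ z 1) * fderiv ℝ φ z Complex.I = star p * q := by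
    rw [hpdef, hqdef, star_mul, star_star, mul_assoc, ← mul_assoc (φ z), h1, one_mul]
  have e2 : star (fderiv ℝ φ z Complex.I) * fderiv ℝ φ z 1 = star q * p := by
    rw [hpdef, hqdef, star_mul, star_star, mul_assoc, ← mul_assoc (φ z), h1, one_mul]
  rw [e1, e2]
  have v1 : vel ℓ φ 1 z = fun j => ℓ j * imv p j := rfl
  have v2 : vel ℓ φ Complex.I z = fun j => ℓ j * imv q j := rfl
  rw [v1, v2]
  have h0 := (hℓ 0).ne'
  have h1' := (hℓ 1).ne'
  have h2 := (hℓ 2).ne'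
  fin_cases i
  · simp [imv, sc, crossProduct, hp, hq]
    field_simp
    ring
  · simp [imv, sc, crossProduct, hp, hq]
    field_simp
    ring
  · simp [imv, sc, crossProduct, hp, hq]
    field_simp
    ring

end Pool.Agent.SU2H
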