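import Pool.Agent.Lib.SU2H.Defs

/-!
# The integral argument on the plane

Proof sketch.  Put `y = w / u > 0`.  Then `∂₁(u² ∂₁ y) + ∂₂(u² ∂₂ y) = u lap w - w lap u =: S > 0`
(a continuous function).  Multiply by `y η²` with `η` a compactly supported smooth function and
integrate by parts: `∫ S y η² + ∫ u² |∇y|² η² = - ∫ 2 η y u² ∇y·∇η ≤ ∫ u²|∇y|²η² + ∫ y² u² |∇η|²`,
so `∫ S y η² ≤ ∫ w² |∇η|² ≤ B² ∫ |∇η|²`.  Take `η_N = N⁻¹ ∑_{k<N} χ(4^(-k) z)` with a bump `χ` equal to
`1` on the unit disc and supported in the disc of radius `2`: the gradients live on disjoint annuli and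
`∫ |∇η_N|² = N⁻¹ ∫ |∇χ|²`, while `η_N = 1` on the unit disc.
-/

noncomputable section

namespace Pool.Agent.SU2H

namespace PlanePDEAux

open MeasureTheory Metric Set Filter Topology

/-- directional derivative -/
def dv (f : ℂ → ℝ) (v z : ℂ) : ℝ := fderiv ℝ f z v

theorem contDiff_dv {f : ℂ → ℝ} (hf : ContDiff ℝ 2 f) (v : ℂ) : ContDiff ℝ 1 (dv f v) :=
  (hf.fderiv_right (m := 1) le_rfl).clm_apply contDiff_const

theorem continuous_dv {f : ℂ → ℝ} (hf : ContDiff ℝ 1 f) (v : ℂ) : Continuous (dv f v) :=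
  (hf.continuous_fderiv one_ne_zero).clm_apply continuous_const

/-- `u² ∂_v y · y`, `y = w / u` -/
def GG (w u : ℂ → ℝ) (v z : ℂ) : ℝ := (u z * dv w v z - w z * dv u v z) * (w z / u z)

section
variable {w u : ℂ → ℝ} (hw : ContDiff ℝ 2 w) (hu : ContDiff ℝ 2 u) (hupos : ∀ z, 0 < u z)

include hw hu hupos

theorem contDiff_GG (v : ℂ) : ContDiff ℝ 1 (GG w u v) := by
  unfold GG
  have h1 := contDiff_dv hw v
  have h2 := contDiff_dv hu v
  have hw1 : ContDiff ℝ 1 w := hw.of_le one_le_two
  have hu1 : ContDiff ℝ 1 u := hu.of_le one_le_two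
  exact ((hu1.mul h1).sub (hw1.mul h2)).mul (hw1.div hu1 fun z => (hupos z).ne')

theorem fderiv_GG (v z : ℂ) : dv (GG w u v) v z =
    (u z * dv (dv w v) v z - w z * dv (dv u v) v z) * (w z / u z) +
      (u z * dv w v z - w z * dv u v z) ^ 2 / u z ^ 2 := by
  have line : ∀ f : ℂ → ℝ, Differentiable ℝ f →
      HasDerivAt (fun t : ℝ => f (z + t • v)) (dv f v z) 0 := by
    intro f hf
    have h3 : HasFDerivAt f (fderiv ℝ f (z + (0 : ℝ) • v)) (z + (0 : ℝ) • v) :=
      (hf _).hasFDerivAt
    have h4 : HasDerivAt (fun t : ℝ => z + t • v) v 0 := by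
      simpa using ((hasDerivAt_id (0 : ℝ)).smul_const v).const_add z
    have h5 := h3.comp_hasDerivAt (0 : ℝ) h4
    rw [zero_smul, add_zero] at h5
    exact h5
  have hw1 := line w (hw.differentiable (by norm_num))
  have hu1 := line u (hu.differentiable (by norm_num))
  have hw2 := line (dv w v) ((contDiff_dv hw v).differentiable (by norm_num))
  have hu2 := line (dv u v) ((contDiff_dv hu v).differentiable (by norm_num))
  have hG := line (GG w u v) ((contDiff_GG hw hu hupos v).differentiable (by norm_num))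
  have hu0 := (hupos z).ne'
  have h1 := ((hu1.mul hw2).sub (hw1.mul hu2)).mul (hw1.div hu1 (by
    rw [zero_smul, add_zero]; exact hu0))
  have h2 := hG.unique h1
  rw [h2]
  simp only [Pi.mul_apply, Pi.sub_apply, Pi.div_apply, zero_smul, add_zero]
  field_simp
  ring

end

/-- the energy inequality -/
theorem energy {w u : ℂ → ℝ} {B : ℝ} (hw : ContDiff ℝ 2 w) (hu : ContDiff ℝ 2 u)
    (hwpos : ∀ z, 0 < w z) (hwB : ∀ z, w z ≤ B) (hupos : ∀ z, 0 < u z)
    {η : ℂ → ℝ} (hη : ContDiff ℝ 1 η) (hc : HasCompactSupport η) :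
    ∫ z, η z ^ 2 * ((u z * lap w z - w z * lap u z) * (w z / u z)) ≤
      B ^ 2 * ∫ z, (dv η 1 z ^ 2 + dv η Complex.I z ^ 2) := by
  have hηc := hη.continuous
  have hdη : ∀ v, Continuous (dv η v) := fun v => continuous_dv hη v
  have hdηc : ∀ v, HasCompactSupport (dv η v) := by
    intro v
    have h1 : HasCompactSupport (fderiv ℝ η) := hc.fderiv (𝕜 := ℝ)
    exact h1.comp_left (g := fun L : ℂ →L[ℝ] ℝ => L v) (by simp)
  have hη2 : ContDiff ℝ 1 (fun z => η z ^ 2) := hη.pow 2
  have hη2c : HasCompactSupport (fun z => η z ^ 2) := by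
    exact hc.comp_left (g := fun x : ℝ => x ^ 2) (by norm_num)
  have hdη2 : ∀ v z, dv (fun z => η z ^ 2) v z = 2 * η z * dv η v z := by
    intro v z
    unfold dv
    have h1 : HasFDerivAt η (fderiv ℝ η z) z := (hη.differentiable (by norm_num) z).hasFDerivAt
    have h2 := h1.pow 2
    rw [h2.fderiv]
    simp
  have hGc : ∀ v, ContDiff ℝ 1 (GG w u v) := contDiff_GG hw hu hupos
  have hwc := hw.continuous
  have huc := hu.continuous
  have ibp : ∀ v, ∫ z, η z ^ 2 * dv (GG w u v) v z = - ∫ z, 2 * η z * dv η v z * GG w u v z := by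
    intro v
    have h1 := integral_mul_fderiv_eq_neg_fderiv_mul_of_integrable (μ := volume)
      (f := fun z => η z ^ 2) (g := GG w u v) (v := v) ?_ ?_ ?_
      (fun x _ => hη2.differentiable (by norm_num) x)
      (fun x _ => (hGc v).differentiable (by norm_num) x)
    · have h2 : ∀ z, fderiv ℝ (fun z => η z ^ 2) z v = 2 * η z * dv η v z := fun z => hdη2 v z
      simp only [h2] at h1
      exact h1
    · have h2 : ∀ z, fderiv ℝ (fun z => η z ^ 2) z v = 2 * η z * dv η v z := fun z => hdη2 v z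
      simp only [h2]
      refine Continuous.integrable_of_hasCompactSupport ?_ ?_
      · exact ((continuous_const.mul hηc).mul (hdη v)).mul (hGc v).continuous
      · exact (hdηc v).mul_left.mul_right
    · refine Continuous.integrable_of_hasCompactSupport ?_ ?_
      · exact (hηc.pow 2).mul (continuous_dv (hGc v) v)
      · exact hη2c.mul_right
    · refine Continuous.integrable_of_hasCompactSupport ?_ ?_
      · exact (hηc.pow 2).mul (hGc v).continuous
      · exact hη2c.mul_right
  have hI1 : ∀ v, Integrable (fun z => η z ^ 2 * dv (GG w u v) v z) := by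
    intro v
    refine Continuous.integrable_of_hasCompactSupport ?_ ?_
    · exact (hηc.pow 2).mul (continuous_dv (hGc v) v)
    · exact hη2c.mul_right
  have hI2 : ∀ v, Integrable (fun z => 2 * η z * dv η v z * GG w u v z) := by
    intro v
    refine Continuous.integrable_of_hasCompactSupport ?_ ?_
    · exact ((continuous_const.mul hηc).mul (hdη v)).mul (hGc v).continuous
    · exact (hdηc v).mul_left.mul_right
  have hlap : ∀ z, u z * lap w z - w z * lap u z =
      (u z * dv (dv w 1) 1 z - w z * dv (dv u 1) 1 z) +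
      (u z * dv (dv w Complex.I) Complex.I z - w z * dv (dv u Complex.I) Complex.I z) := by
    intro z
    unfold lap dv
    ring
  -- the pointwise inequality
  have hpt : ∀ v z, η z ^ 2 * dv (GG w u v) v z + 2 * η z * dv η v z * GG w u v z ≥
      η z ^ 2 * ((u z * dv (dv w v) v z - w z * dv (dv u v) v z) * (w z / u z)) -
        B ^ 2 * dv η v z ^ 2 := by
    intro v z
    rw [fderiv_GG hw hu hupos]
    have hu0 := hupos z
    obtain ⟨X, hX⟩ : ∃ X, X = (u z * dv w v z - w z * dv u v z) / u z := ⟨_, rfl⟩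
    have h1 : GG w u v z = X * w z := by
      unfold GG
      rw [hX]
      field_simp
    have h2 : (u z * dv w v z - w z * dv u v z) ^ 2 / u z ^ 2 = X ^ 2 := by
      rw [hX, div_pow]
    rw [h1, h2]
    have h3 : (w z) ^ 2 * dv η v z ^ 2 ≤ B ^ 2 * dv η v z ^ 2 := by
      have := hwB z
      have := hwpos z
      gcongr
    nlinarith [sq_nonneg (η z * X + dv η v z * w z)]
  have hsum : ∀ z, η z ^ 2 * ((u z * lap w z - w z * lap u z) * (w z / u z)) ≤
      B ^ 2 * (dv η 1 z ^ 2 + dv η Complex.I z ^ 2) +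
      ((η z ^ 2 * dv (GG w u 1) 1 z + 2 * η z * dv η 1 z * GG w u 1 z) +
      (η z ^ 2 * dv (GG w u Complex.I) Complex.I z +
        2 * η z * dv η Complex.I z * GG w u Complex.I z)) := by
    intro z
    have h1 := hpt 1 z
    have h2 := hpt Complex.I z
    rw [hlap, add_mul, mul_add]
    linarith
  have hz : ∀ v, ∫ z, (η z ^ 2 * dv (GG w u v) v z + 2 * η z * dv η v z * GG w u v z) = 0 := by
    intro v
    rw [integral_add (hI1 v) (hI2 v), ibp v]
    ring
  have hI3 : Integrable (fun z => dv η 1 z ^ 2 + dv η Complex.I z ^ 2) := by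
    refine Integrable.add ?_ ?_
    · refine Continuous.integrable_of_hasCompactSupport ((hdη 1).pow 2) ?_
      exact (hdηc 1).comp_left (g := fun x : ℝ => x ^ 2) (by norm_num)
    · refine Continuous.integrable_of_hasCompactSupport ((hdη Complex.I).pow 2) ?_
      exact (hdηc Complex.I).comp_left (g := fun x : ℝ => x ^ 2) (by norm_num)
  have hlapc : Continuous fun z => u z * lap w z - w z * lap u z := by
    have h1 : (fun z => u z * lap w z - w z * lap u z) = fun z =>
      (u z * dv (dv w 1) 1 z - w z * dv (dv u 1) 1 z) +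
      (u z * dv (dv w Complex.I) Complex.I z - w z * dv (dv u Complex.I) Complex.I z) :=
      funext hlap
    rw [h1]
    have hh : ∀ f : ℂ → ℝ, ContDiff ℝ 2 f → ∀ v, Continuous (dv (dv f v) v) := fun f hf v =>
      continuous_dv (contDiff_dv hf v) v
    exact ((huc.mul (hh w hw 1)).sub (hwc.mul (hh u hu 1))).add
      ((huc.mul (hh w hw Complex.I)).sub (hwc.mul (hh u hu Complex.I)))
  have hI4 : Integrable (fun z => η z ^ 2 * ((u z * lap w z - w z * lap u z) * (w z / u z))) := by
    refine Continuous.integrable_of_hasCompactSupport ?_ hη2c.mul_right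
    exact (hηc.pow 2).mul (hlapc.mul (hwc.div huc fun z => (hupos z).ne'))
  have hI5 : ∀ v, Integrable (fun z => η z ^ 2 * dv (GG w u v) v z +
      2 * η z * dv η v z * GG w u v z) := fun v => (hI1 v).add (hI2 v)
  calc ∫ z, η z ^ 2 * ((u z * lap w z - w z * lap u z) * (w z / u z))
      ≤ ∫ z, (B ^ 2 * (dv η 1 z ^ 2 + dv η Complex.I z ^ 2) +
      ((η z ^ 2 * dv (GG w u 1) 1 z + 2 * η z * dv η 1 z * GG w u 1 z) +
      (η z ^ 2 * dv (GG w u Complex.I) Complex.I z +
        2 * η z * dv η Complex.I z * GG w u Complex.I z))) :=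
        integral_mono hI4 ((hI3.const_mul _).add ((hI5 1).add (hI5 Complex.I))) hsum
    _ = B ^ 2 * ∫ z, (dv η 1 z ^ 2 + dv η Complex.I z ^ 2) := by
        have hI6 : Integrable (fun z =>
            ((η z ^ 2 * dv (GG w u 1) 1 z + 2 * η z * dv η 1 z * GG w u 1 z) +
            (η z ^ 2 * dv (GG w u Complex.I) Complex.I z +
              2 * η z * dv η Complex.I z * GG w u Complex.I z))) := (hI5 1).add (hI5 Complex.I)
        rw [integral_add (hI3.const_mul _) hI6,
          integral_add (hI5 1) (hI5 Complex.I), hz, hz, integral_const_mul]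
        ring

/-- the cut-off functions -/
theorem exists_cut : ∃ C : ℝ, ∀ N : ℕ, 0 < N → ∃ η : ℂ → ℝ, ContDiff ℝ 1 η ∧ HasCompactSupport η ∧
    (∀ z ∈ ball (0 : ℂ) 1, η z = 1) ∧
    ∫ z, (dv η 1 z ^ 2 + dv η Complex.I z ^ 2) ≤ C / N := by
  let χ : ContDiffBump (0 : ℂ) := ⟨1, 2, one_pos, one_lt_two⟩
  have hχ : ContDiff ℝ 1 χ := χ.contDiff
  have hχc : HasCompactSupport χ := χ.hasCompactSupport
  have hd : ∀ v, Continuous (dv χ v) := fun v => continuous_dv hχ v
  have hdc : ∀ v, HasCompactSupport (dv χ v) := by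
    intro v
    have h1 : HasCompactSupport (fderiv ℝ χ) := hχc.fderiv (𝕜 := ℝ)
    exact h1.comp_left (g := fun L : ℂ →L[ℝ] ℝ => L v) (by simp)
  have hsup : ∀ v y, dv χ v y ≠ 0 → 1 ≤ ‖y‖ ∧ ‖y‖ ≤ 2 := by
    intro v y hy
    constructor
    · by_contra hc
      rw [not_le] at hc
      apply hy
      have h1 : (χ : ℂ → ℝ) =ᶠ[𝓝 y] fun _ => 1 := by
        filter_upwards [isOpen_ball.mem_nhds (mem_ball_zero_iff.2 hc)] with x hx
        exact χ.one_of_mem_closedBall (ball_subset_closedBall hx)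
      unfold dv
      rw [h1.fderiv_eq]
      simp
    · by_contra hc
      rw [not_le] at hc
      apply hy
      have h1 : (χ : ℂ → ℝ) =ᶠ[𝓝 y] fun _ => 0 := by
        have h2 : y ∈ (closedBall (0 : ℂ) 2)ᶜ := by
          rw [mem_compl_iff, mem_closedBall_zero_iff, not_le]
          exact hc
        filter_upwards [isClosed_closedBall.isOpen_compl.mem_nhds h2] with x hx
        rw [mem_compl_iff, mem_closedBall_zero_iff, not_le] at hx
        refine χ.zero_of_le_dist ?_
        rw [dist_zero_right]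
        exact hx.le
      unfold dv
      rw [h1.fderiv_eq]
      simp
  have h4 : ∀ k : ℕ, (0 : ℝ) < 4 ^ k := fun k => by positivity
  set η : ℕ → ℂ → ℝ := fun k z => χ (((4 : ℝ) ^ k)⁻¹ • z) with hη
  have hηd : ∀ k, ContDiff ℝ 1 (η k) := fun k => hχ.comp (contDiff_const_smul _)
  have hηc : ∀ k, HasCompactSupport (η k) := by
    intro k
    refine HasCompactSupport.of_support_subset_isCompact
      (isCompact_closedBall (0 : ℂ) (2 * 4 ^ k)) fun z hz => ?_
    rw [mem_closedBall_zero_iff]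
    by_contra hc
    rw [not_le] at hc
    apply hz
    refine χ.zero_of_le_dist ?_
    rw [dist_zero_right, norm_smul, norm_inv, Real.norm_of_nonneg (h4 k).le]
    show 2 ≤ _
    rw [le_inv_mul_iff₀ (h4 k)]
    linarith
  have hdη : ∀ k v z, dv (η k) v z = ((4 : ℝ) ^ k)⁻¹ * dv χ v (((4 : ℝ) ^ k)⁻¹ • z) := by
    intro k v z
    unfold dv
    have h1 : HasFDerivAt χ (fderiv ℝ χ (((4 : ℝ) ^ k)⁻¹ • z)) (((4 : ℝ) ^ k)⁻¹ • z) :=
      (hχ.differentiable (by norm_num) _).hasFDerivAt
    have h2 : HasFDerivAt (fun z : ℂ => ((4 : ℝ) ^ k)⁻¹ • z)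
        (((4 : ℝ) ^ k)⁻¹ • ContinuousLinearMap.id ℝ ℂ) z :=
      (hasFDerivAt_id z).const_smul (((4 : ℝ) ^ k)⁻¹)
    have h3 := h1.comp z h2
    have h5 : η k = (χ : ℂ → ℝ) ∘ fun z : ℂ => ((4 : ℝ) ^ k)⁻¹ • z := rfl
    rw [h5, h3.fderiv]
    simp
  have hdηc : ∀ k v, Continuous (dv (η k) v) := fun k v => continuous_dv (hηd k) v
  have hdηs : ∀ k v, HasCompactSupport (dv (η k) v) := by
    intro k v
    have h1 : HasCompactSupport (fderiv ℝ (η k)) := (hηc k).fderiv (𝕜 := ℝ)
    exact h1.comp_left (g := fun L : ℂ →L[ℝ] ℝ => L v) (by simp)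
  have hdisj : ∀ v z j k, j < k → dv (η j) v z * dv (η k) v z = 0 := by
    intro v z j k hjk
    by_contra hc
    rw [mul_eq_zero, not_or] at hc
    obtain ⟨h1, h2⟩ := hc
    rw [hdη, mul_eq_zero, not_or] at h1 h2
    have h5 := (hsup v _ h1.2).2
    have h6 := (hsup v _ h2.2).1
    rw [norm_smul, norm_inv, Real.norm_of_nonneg (h4 _).le, inv_mul_le_iff₀ (h4 _)] at h5
    rw [norm_smul, norm_inv, Real.norm_of_nonneg (h4 _).le, le_inv_mul_iff₀ (h4 _)] at h6
    have h7 : (4 : ℝ) ^ (j + 1) ≤ 4 ^ k := pow_le_pow_right₀ (by norm_num) hjk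
    rw [pow_succ] at h7
    have := h4 j
    linarith
  have hint : ∀ k v, ∫ z, dv (η k) v z ^ 2 = ∫ z, dv χ v z ^ 2 := by
    intro k v
    have h1 : ∀ z, dv (η k) v z ^ 2 = (((4 : ℝ) ^ k)⁻¹) ^ 2 *
        (fun y => dv χ v y ^ 2) (((4 : ℝ) ^ k)⁻¹ • z) := by
      intro z
      rw [hdη]
      ring
    simp only [h1]
    have h2 := Measure.integral_comp_smul volume (fun y => dv χ v y ^ 2) (((4 : ℝ) ^ k)⁻¹)
    rw [Complex.finrank_real_complex, smul_eq_mul] at h2
    have := h4 k
    rw [abs_of_pos (by positivity)] at h2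
    rw [integral_const_mul, h2]
    field_simp
  refine ⟨(∫ z, dv χ 1 z ^ 2) + ∫ z, dv χ Complex.I z ^ 2, fun N hN => ?_⟩
  have hN' : (0 : ℝ) < N := by exact_mod_cast hN
  refine ⟨fun z => (N : ℝ)⁻¹ * ∑ k ∈ Finset.range N, η k z, ?_, ?_, ?_, ?_⟩
  · exact contDiff_const.mul (ContDiff.sum fun k _ => hηd k)
  · have h1 : ∀ M : ℕ, HasCompactSupport fun z => ∑ k ∈ Finset.range M, η k z := by
      intro M
      induction M with
      | zero =>
        simp only [Finset.range_zero, Finset.sum_empty]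
        exact (HasCompactSupport.zero : HasCompactSupport (0 : ℂ → ℝ))
      | succ M ih =>
        simp only [Finset.sum_range_succ]
        exact ih.add (hηc M)
    exact (h1 N).mul_left
  · intro z hz
    rw [mem_ball_zero_iff] at hz
    have h1 : ∀ k ∈ Finset.range N, η k z = 1 := by
      intro k _
      refine χ.one_of_mem_closedBall ?_
      rw [mem_closedBall_zero_iff, norm_smul, norm_inv, Real.norm_of_nonneg (h4 _).le]
      show _ ≤ (1 : ℝ)
      rw [inv_mul_le_iff₀ (h4 k), mul_one]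
      have : (1 : ℝ) ≤ 4 ^ k := one_le_pow₀ (by norm_num)
      linarith
    show (N : ℝ)⁻¹ * ∑ k ∈ Finset.range N, η k z = 1
    rw [Finset.sum_congr rfl h1]
    simp only [Finset.sum_const, Finset.card_range, nsmul_eq_mul, mul_one]
    exact inv_mul_cancel₀ hN'.ne'
  · have hdψ : ∀ v z, dv (fun z => (N : ℝ)⁻¹ * ∑ k ∈ Finset.range N, η k z) v z =
        (N : ℝ)⁻¹ * ∑ k ∈ Finset.range N, dv (η k) v z := by
      intro v z
      have h1 : ∀ k, HasFDerivAt (η k) (fderiv ℝ (η k) z) z := fun k =>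
        ((hηd k).differentiable (by norm_num) z).hasFDerivAt
      have h2 : HasFDerivAt (fun z => ∑ k ∈ Finset.range N, η k z)
          (∑ k ∈ Finset.range N, fderiv ℝ (η k) z) z := HasFDerivAt.fun_sum fun k _ => h1 k
      have h3 := h2.const_mul ((N : ℝ)⁻¹)
      unfold dv
      rw [h3.fderiv]
      simp
    have hsq : ∀ v z, dv (fun z => (N : ℝ)⁻¹ * ∑ k ∈ Finset.range N, η k z) v z ^ 2 =
        ((N : ℝ)⁻¹) ^ 2 * ∑ k ∈ Finset.range N, dv (η k) v z ^ 2 := by
      intro v z
      rw [hdψ, mul_pow]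
      congr 1
      have h1 : ∀ M : ℕ, (∑ k ∈ Finset.range M, dv (η k) v z) ^ 2 =
          ∑ k ∈ Finset.range M, dv (η k) v z ^ 2 := by
        intro M
        induction M with
        | zero => simp
        | succ M ih =>
          rw [Finset.sum_range_succ, Finset.sum_range_succ, add_sq, ih]
          have h2 : (∑ k ∈ Finset.range M, dv (η k) v z) * dv (η M) v z = 0 := by
            rw [Finset.sum_mul]
            exact Finset.sum_eq_zero fun k hk => hdisj v z k M (Finset.mem_range.1 hk)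
          rw [mul_assoc 2, h2]
          ring
      exact h1 N
    have hIk : ∀ k v, Integrable (fun z => dv (η k) v z ^ 2) := by
      intro k v
      refine Continuous.integrable_of_hasCompactSupport ((hdηc k v).pow 2) ?_
      exact (hdηs k v).comp_left (g := fun x : ℝ => x ^ 2) (by norm_num)
    have hv : ∀ v, ∫ z, dv (fun z => (N : ℝ)⁻¹ * ∑ k ∈ Finset.range N, η k z) v z ^ 2 =
        (∫ z, dv χ v z ^ 2) / N := by
      intro v
      simp only [hsq]
      rw [integral_const_mul, integral_finsetSum _ fun k _ => hIk k v]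
      simp only [hint]
      rw [Finset.sum_const, Finset.card_range, nsmul_eq_mul]
      field_simp
    have hIv : ∀ v, Integrable
        (fun z => dv (fun z => (N : ℝ)⁻¹ * ∑ k ∈ Finset.range N, η k z) v z ^ 2) := by
      intro v
      simp only [hsq]
      exact (integrable_finsetSum _ fun k _ => hIk k v).const_mul _
    rw [integral_add (hIv 1) (hIv Complex.I), hv, hv]
    rw [← add_div]

end PlanePDEAux

open MeasureTheory Metric Set Filter Topology PlanePDEAux in
theorem plane_nonexist {w u : ℂ → ℝ} {B : ℝ} (hw : ContDiff ℝ 2 w) (hu : ContDiff ℝ 2 u)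
    (hwpos : ∀ z, 0 < w z) (hwB : ∀ z, w z ≤ B) (hupos : ∀ z, 0 < u z)
    (hS : ∀ z, 0 < u z * lap w z - w z * lap u z) : False := by
  obtain ⟨C, hC⟩ := exists_cut
  have hlapc : Continuous fun z => u z * lap w z - w z * lap u z := by
    have h1 : (fun z => u z * lap w z - w z * lap u z) = fun z =>
      (u z * dv (dv w 1) 1 z - w z * dv (dv u 1) 1 z) +
      (u z * dv (dv w Complex.I) Complex.I z - w z * dv (dv u Complex.I) Complex.I z) := by
      funext z
      unfold lap dv
      ring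
    rw [h1]
    have hh : ∀ f : ℂ → ℝ, ContDiff ℝ 2 f → ∀ v, Continuous (dv (dv f v) v) := fun f hf v =>
      continuous_dv (contDiff_dv hf v) v
    exact ((hu.continuous.mul (hh w hw 1)).sub (hw.continuous.mul (hh u hu 1))).add
      ((hu.continuous.mul (hh w hw Complex.I)).sub (hw.continuous.mul (hh u hu Complex.I)))
  set Q : ℂ → ℝ := fun z => (u z * lap w z - w z * lap u z) * (w z / u z) with hQ
  have hQc : Continuous Q := hlapc.mul (hw.continuous.div hu.continuous fun z => (hupos z).ne')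
  have hQ0 : ∀ z, 0 < Q z := fun z => mul_pos (hS z) (div_pos (hwpos z) (hupos z))
  have hQi : IntegrableOn Q (ball (0 : ℂ) 1) :=
    (hQc.continuousOn.integrableOn_compact (isCompact_closedBall (0 : ℂ) 1)).mono_set
      ball_subset_closedBall
  have hpos : 0 < ∫ z in ball (0 : ℂ) 1, Q z := by
    rw [setIntegral_pos_iff_support_of_nonneg_ae
      (Filter.Eventually.of_forall fun z => (hQ0 z).le) hQi]
    have h1 : Function.support Q ∩ ball (0 : ℂ) 1 = ball (0 : ℂ) 1 := by
      rw [inter_eq_right]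
      exact fun z _ => (hQ0 z).ne'
    rw [h1]
    exact measure_ball_pos volume _ one_pos
  have hle : ∀ N : ℕ, 0 < N → ∫ z in ball (0 : ℂ) 1, Q z ≤ B ^ 2 * (C / N) := by
    intro N hN
    obtain ⟨η, hη, hηc, hη1, hηC⟩ := hC N hN
    have h1 := energy hw hu hwpos hwB hupos hη hηc
    have hI : Integrable (fun z => η z ^ 2 * Q z) := by
      refine Continuous.integrable_of_hasCompactSupport ((hη.continuous.pow 2).mul hQc) ?_
      exact (hηc.comp_left (g := fun x : ℝ => x ^ 2) (by norm_num)).mul_right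
    have h2 : ∫ z in ball (0 : ℂ) 1, Q z = ∫ z in ball (0 : ℂ) 1, η z ^ 2 * Q z := by
      refine setIntegral_congr_fun measurableSet_ball fun z hz => ?_
      show Q z = η z ^ 2 * Q z
      rw [hη1 z hz]
      ring
    have h3 : ∫ z in ball (0 : ℂ) 1, η z ^ 2 * Q z ≤ ∫ z, η z ^ 2 * Q z :=
      setIntegral_le_integral hI (Filter.Eventually.of_forall fun z =>
        mul_nonneg (sq_nonneg _) (hQ0 z).le)
    rw [h2]
    refine h3.trans (h1.trans ?_)
    exact mul_le_mul_of_nonneg_left hηC (sq_nonneg B)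
  have hlim : Tendsto (fun N : ℕ => B ^ 2 * (C / N)) atTop (𝓝 (B ^ 2 * 0)) :=
    (tendsto_const_div_atTop_nhds_zero_nat C).const_mul _
  rw [mul_zero] at hlim
  have h5 : ∫ z in ball (0 : ℂ) 1, Q z ≤ 0 := by
    refine ge_of_tendsto hlim ?_
    filter_upwards [Filter.eventually_gt_atTop 0] with N hN
    exact hle N hN
  linarith

end Pool.Agent.SU2H
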