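import Pool.Agent.Lib.SU2H.PtLemmas

/-!
# Pointwise positivity for the plane

Proof sketch.  Write `c11 = cq c e1 e1`, `c12`, `c22`, `d1 = cq c e1 n`, `d2 = cq c e2 n`,
`c33 = cq c n n = 2 m > 0` (all `c i > 0`, `n` is a unit vector).  By `ring` after substituting
`P.tr_c` (it gives `(c 0 + c 1 + c 2)/2 = (c11 + c22 + c33)/2`) and `P.skew` (`B12 = B21 + c33`):
`c33 * (Dm + c33 * q) - Gm = c33 * ∑_{k=1,2} (Bk1² c11 + Bk2² c22 + 2 Bk1 Bk2 c12)
  - ∑_k (Bk1 d1 + Bk2 d2)²  = c33 * ∑_k ∑_i c i (Bk1 e1 i + Bk2 e2 i + tk n i)²`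
with `tk = -(Bk1 d1 + Bk2 d2) / c33` (checked numerically).  The vector
`Bk1 e1 + Bk2 e2 + tk n` has squared length `Bk1² + Bk2² + tk²`, so the sum is at least
`cmin (B12² + B21²)` which is positive because `B12 - B21 = c33 > 0`.
-/

noncomputable section

namespace Pool.Agent.SU2H

namespace PtPlaneAux

variable {c : Fin 3 → ℝ} {H : ℝ}

theorem cq_nonneg (hc : ∀ i, 0 < c i) (v : Fin 3 → ℝ) : 0 ≤ cq c v v := by
  rw [cq]
  exact Finset.sum_nonneg fun i _ => by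
    rw [mul_assoc]
    exact mul_nonneg (hc i).le (mul_self_nonneg _)

theorem cq_pos (hc : ∀ i, 0 < c i) (v : Fin 3 → ℝ) (hv : 0 < ∑ i, v i * v i) : 0 < cq c v v := by
  obtain ⟨i, -, hi⟩ := Finset.exists_lt_of_sum_lt (s := Finset.univ) (f := fun _ : Fin 3 => (0 : ℝ))
    (g := fun i => v i * v i) (by simpa using hv)
  rw [cq]
  refine Finset.sum_pos' (fun j _ => ?_) ⟨i, Finset.mem_univ i, ?_⟩
  · rw [mul_assoc]
    exact mul_nonneg (hc j).le (mul_self_nonneg _)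
  · rw [mul_assoc]
    exact mul_pos (hc i) hi

/-- the vector `x e1 + y e2 + t n` -/
def vec (P : PtData c H) (x y t : ℝ) : Fin 3 → ℝ := fun i => x * P.e1 i + y * P.e2 i + t * P.n i

theorem sum_vec (P : PtData c H) (x y t : ℝ) :
    ∑ i, vec P x y t i * vec P x y t i = x ^ 2 + y ^ 2 + t ^ 2 := by
  have h11 := P.o11
  have h22 := P.o22
  have h33 := P.o33
  have h12 := P.o12
  have h13 := P.o13
  have h23 := P.o23
  simp only [Fin.sum_univ_three] at h11 h22 h33 h12 h13 h23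
  simp only [Fin.sum_univ_three, vec]
  linear_combination x ^ 2 * h11 + y ^ 2 * h22 + t ^ 2 * h33 + 2 * x * y * h12 + 2 * x * t * h13
    + 2 * y * t * h23

theorem cq_vec (P : PtData c H) (x y t : ℝ) :
    cq c (vec P x y t) (vec P x y t) = x ^ 2 * cq c P.e1 P.e1 + y ^ 2 * cq c P.e2 P.e2
      + 2 * x * y * cq c P.e1 P.e2 + 2 * t * (x * cq c P.e1 P.n + y * cq c P.e2 P.n)
      + t ^ 2 * cq c P.n P.n := by
  simp only [cq, Fin.sum_univ_three, vec]
  ring

/-- one of the two squares -/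
def quad (P : PtData c H) (x y : ℝ) : ℝ :=
  cq c P.n P.n * (x ^ 2 * cq c P.e1 P.e1 + y ^ 2 * cq c P.e2 P.e2 + 2 * x * y * cq c P.e1 P.e2)
    - (x * cq c P.e1 P.n + y * cq c P.e2 P.n) ^ 2

theorem quad_eq (P : PtData c H) (hs : 0 < cq c P.n P.n) (x y : ℝ) :
    quad P x y = cq c P.n P.n * cq c (vec P x y (-(x * cq c P.e1 P.n + y * cq c P.e2 P.n) / cq c P.n P.n))
      (vec P x y (-(x * cq c P.e1 P.n + y * cq c P.e2 P.n) / cq c P.n P.n)) := by
  rw [cq_vec, quad]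
  field_simp
  ring

theorem quad_nonneg (hc : ∀ i, 0 < c i) (P : PtData c H) (hs : 0 < cq c P.n P.n) (x y : ℝ) :
    0 ≤ quad P x y := by
  rw [quad_eq P hs]
  exact mul_nonneg hs.le (cq_nonneg hc _)

theorem quad_pos (hc : ∀ i, 0 < c i) (P : PtData c H) (hs : 0 < cq c P.n P.n) (x y : ℝ)
    (h : 0 < x ^ 2 + y ^ 2) : 0 < quad P x y := by
  rw [quad_eq P hs]
  refine mul_pos hs (cq_pos hc _ ?_)
  rw [sum_vec]
  positivity

theorem key (P : PtData c H) :
    cq c P.n P.n * (P.Dm + cq c P.n P.n * P.q) - P.Gm = quad P P.B11 P.B12 + quad P P.B21 P.B22 := by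
  have h1 : P.B12 = P.B21 + cq c P.n P.n := by
    linear_combination P.skew
  have h2 : c 0 + c 1 + c 2 = cq c P.e1 P.e1 + cq c P.e2 P.e2 + cq c P.n P.n := P.tr_c.symm
  simp only [PtData.Dm, PtData.q, PtData.Gm, quad]
  rw [h2, h1]
  ring

end PtPlaneAux

open PtPlaneAux in
theorem plane_pos {c : Fin 3 → ℝ} {H : ℝ} (hc : ∀ i, 0 < c i) (P : PtData c H) :
    0 < P.m ∧ 0 < 2 * P.m * (P.Dm + 2 * P.m * P.q) - P.Gm := by
  have hs : 0 < cq c P.n P.n := cq_pos hc _ (by rw [P.o33]; exact one_pos)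
  have hm : 2 * P.m = cq c P.n P.n := by
    rw [PtData.m]
    ring
  refine ⟨by rw [PtData.m]; exact half_pos hs, ?_⟩
  rw [hm, key]
  have h1 := quad_nonneg hc P hs P.B11 P.B12
  have h2 := quad_nonneg hc P hs P.B21 P.B22
  by_cases h : P.B12 = 0
  · have h3 : P.B21 ≠ 0 := by
      intro h3
      have h4 := P.skew
      rw [h, h3] at h4
      linarith
    have h4 := quad_pos hc P hs P.B21 P.B22 (by positivity)
    linarith
  · have h4 := quad_pos hc P hs P.B11 P.B12 (by positivity)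
    linarith

end Pool.Agent.SU2H
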