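import Pool.Agent.Lib.SU2H.Geom
import Pool.Agent.Lib.SU2H.PlanePDE
import Pool.Agent.Lib.SU2H.PtPlane

/-!
# Planes

Proof sketch.  `D = univ`, `w = √(2 mm)`, bounded above (by `√cmax`) and positive, smooth.
`w lap w = lap mm - |∇mm|²/(2 mm)` and `u > 0` satisfies `lap u = - lam * pot * u`, so
`u lap w - w lap u = (u/w) (w lap w + lam pot w²) = (u/w) lam (Dm - Gm/(2m) + 2 m q) > 0` by
`plane_pos` (at each point `z`, with the data `P` of `geom`, `P.m = mm z`).  Apply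
`plane_nonexist`.
-/

noncomputable section

namespace Pool.Agent.SU2H

open scoped Quaternion ContDiff

namespace PlaneFinalAux

theorem sc_pos {ℓ : Fin 3 → ℝ} (hℓ : ∀ i, 0 < ℓ i) (i : Fin 3) : 0 < sc ℓ i := by
  have h0 := hℓ 0
  have h1 := hℓ 1
  have h2 := hℓ 2
  have h3 := hℓ i
  unfold sc
  positivity

theorem cq_le {c : Fin 3 → ℝ} (hc : ∀ i, 0 < c i) {n : Fin 3 → ℝ} (hn : ∑ i, n i * n i = 1) :
    cq c n n ≤ c 0 + c 1 + c 2 := by
  simp only [Fin.sum_univ_three] at hn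
  simp only [cq, Fin.sum_univ_three]
  have h0 := hc 0
  have h1 := hc 1
  have h2 := hc 2
  have e0 : n 0 * n 0 ≤ 1 := by nlinarith [mul_self_nonneg (n 1), mul_self_nonneg (n 2)]
  have e1 : n 1 * n 1 ≤ 1 := by nlinarith [mul_self_nonneg (n 0), mul_self_nonneg (n 2)]
  have e2 : n 2 * n 2 ≤ 1 := by nlinarith [mul_self_nonneg (n 1), mul_self_nonneg (n 0)]
  have k0 := mul_le_mul_of_nonneg_left e0 h0.le
  have k1 := mul_le_mul_of_nonneg_left e1 h1.le
  have k2 := mul_le_mul_of_nonneg_left e2 h2.le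
  linarith

/-- the first derivative of `√(2 g)` -/
theorem fderiv_w {g : ℂ → ℝ} (hg : ContDiff ℝ 2 g) (hpos : ∀ z, 0 < g z) (z v : ℂ) :
    fderiv ℝ (fun x => √(2 * g x)) z v = fderiv ℝ g z v / √(2 * g z) := by
  have hd : HasFDerivAt g (fderiv ℝ g z) z := (hg.differentiable (by norm_num) z).hasFDerivAt
  have h1 : HasFDerivAt (fun x => 2 * g x) ((2 : ℝ) • fderiv ℝ g z) z := hd.const_mul 2
  have h2 := h1.sqrt (by have := hpos z; positivity)
  rw [h2.fderiv]
  simp only [ContinuousLinearMap.smul_apply, smul_eq_mul, one_div]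
  have h3 : √(2 * g z) ≠ 0 := (Real.sqrt_pos.2 (by have := hpos z; positivity)).ne'
  field_simp

theorem contDiff_w {g : ℂ → ℝ} (hg : ContDiff ℝ 2 g) (hpos : ∀ z, 0 < g z) :
    ContDiff ℝ 2 (fun x => √(2 * g x)) :=
  (contDiff_const.mul hg).sqrt fun z => by have := hpos z; positivity

/-- the second derivative of `√(2 g)` -/
theorem fderiv2_w {g : ℂ → ℝ} (hg : ContDiff ℝ 2 g) (hpos : ∀ z, 0 < g z) (z v : ℂ) :
    fderiv ℝ (fun y => fderiv ℝ (fun x => √(2 * g x)) y v) z v =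
      fderiv ℝ (fun y => fderiv ℝ g y v) z v / √(2 * g z)
        - (fderiv ℝ g z v) ^ 2 / √(2 * g z) ^ 3 := by
  have h0 : (fun y => fderiv ℝ (fun x => √(2 * g x)) y v) = fun y => fderiv ℝ g y v / √(2 * g y) :=
    funext fun y => fderiv_w hg hpos y v
  rw [h0]
  have h3 : √(2 * g z) ≠ 0 := (Real.sqrt_pos.2 (by have := hpos z; positivity)).ne'
  have h4 : DifferentiableAt ℝ (fun y => fderiv ℝ g y v) z := by
    have h5 : ContDiff ℝ 1 (fderiv ℝ g) := hg.fderiv_right (by norm_num)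
    exact ((h5.differentiable (by norm_num)) z).clm_apply (differentiableAt_const v)
  have h6 : DifferentiableAt ℝ (fun y => √(2 * g y)) z :=
    (contDiff_w hg hpos).differentiable (by norm_num) z
  have h7 : (fun y => fderiv ℝ g y v) =
      fun y => √(2 * g y) * (fderiv ℝ g y v / √(2 * g y)) := by
    funext y
    have h8 : √(2 * g y) ≠ 0 := (Real.sqrt_pos.2 (by have := hpos y; positivity)).ne'
    field_simp
  have h9 : DifferentiableAt ℝ (fun y => fderiv ℝ g y v / √(2 * g y)) z := by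
    rw [← h0]
    have h5 : ContDiff ℝ 1 (fderiv ℝ (fun x => √(2 * g x))) :=
      (contDiff_w hg hpos).fderiv_right (by norm_num)
    exact ((h5.differentiable (by norm_num)) z).clm_apply (differentiableAt_const v)
  have h10 : fderiv ℝ (fun y => fderiv ℝ g y v) z v =
      √(2 * g z) * fderiv ℝ (fun y => fderiv ℝ g y v / √(2 * g y)) z v
        + fderiv ℝ g z v / √(2 * g z) * fderiv ℝ (fun y => √(2 * g y)) z v := by
    conv_lhs => rw [h7]
    have h11 := h6.hasFDerivAt.mul h9.hasFDerivAt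
    have h12 : fderiv ℝ (fun y => √(2 * g y) * (fderiv ℝ g y v / √(2 * g y))) z = _ := h11.fderiv
    rw [h12]
    simp only [ContinuousLinearMap.add_apply, ContinuousLinearMap.smul_apply, smul_eq_mul]
  rw [fderiv_w hg hpos z v] at h10
  rw [h10]
  field_simp
  ring

theorem lap_w {g : ℂ → ℝ} (hg : ContDiff ℝ 2 g) (hpos : ∀ z, 0 < g z) (z : ℂ) :
    lap (fun x => √(2 * g x)) z = lap g z / √(2 * g z)
      - ((fderiv ℝ g z 1) ^ 2 + (fderiv ℝ g z Complex.I) ^ 2) / √(2 * g z) ^ 3 := by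
  rw [lap, fderiv2_w hg hpos, fderiv2_w hg hpos, lap]
  ring

end PlaneFinalAux

open PlaneFinalAux in
theorem plane_final {ℓ : Fin 3 → ℝ} {φ : ℂ → ℍ[ℝ]} {H : ℝ} (hℓ : ∀ i, 0 < ℓ i)
    (h : IsConfHSurface ℓ Set.univ φ H) : ¬ StronglyStable ℓ Set.univ φ := by
  rintro ⟨u, hu, hupos, hueq⟩
  obtain ⟨-, hmm, hP⟩ := geom hℓ isOpen_univ h
  have hc := sc_pos hℓ
  have hg : ContDiff ℝ 2 (mm ℓ φ) := (contDiffOn_univ.1 hmm).of_le ENat.LEInfty.out
  have hmP : ∀ z, ∀ P : PtData (sc ℓ) H, P.n = nrm ℓ φ z → P.m = mm ℓ φ z := by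
    intro z P hn
    rw [PtData.m, mm, hn]
  have hpos : ∀ z, 0 < mm ℓ φ z := by
    intro z
    obtain ⟨P, hn, -⟩ := hP z (Set.mem_univ z)
    rw [← hmP z P hn]
    exact (plane_pos hc P).1
  refine plane_nonexist (w := fun z => √(2 * mm ℓ φ z)) (u := u)
    (B := √(sc ℓ 0 + sc ℓ 1 + sc ℓ 2)) (contDiff_w hg hpos) (contDiffOn_univ.1 hu)
    (fun z => Real.sqrt_pos.2 (by have := hpos z; positivity)) (fun z => ?_)
    (fun z => hupos z (Set.mem_univ z)) (fun z => ?_)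
  · apply Real.sqrt_le_sqrt
    obtain ⟨P, hn, -⟩ := hP z (Set.mem_univ z)
    have h1 : 2 * mm ℓ φ z = cq (sc ℓ) (nrm ℓ φ z) (nrm ℓ φ z) := by
      rw [mm]; ring
    rw [h1]
    exact cq_le hc (hn ▸ P.o33)
  · obtain ⟨P, hn, -, hlap, hgrad, hpot⟩ := hP z (Set.mem_univ z)
    have hm := hmP z P hn
    have hlam : 0 < lam ℓ φ z := h.immersed z (Set.mem_univ z)
    have hu1 := hupos z (Set.mem_univ z)
    have hu2 := hueq z (Set.mem_univ z)
    have hu3 : lap u z = -(lam ℓ φ z * pot ℓ φ z * u z) := by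
      have h5 : lam ℓ φ z * ((lam ℓ φ z)⁻¹ * lap u z + pot ℓ φ z * u z) = 0 := by
        rw [hu2, mul_zero]
      have h6 : lam ℓ φ z * ((lam ℓ φ z)⁻¹ * lap u z) = lap u z := by
        rw [← mul_assoc, mul_inv_cancel₀ hlam.ne', one_mul]
      rw [mul_add, h6] at h5
      linarith
    have hpp := (plane_pos hc P).2
    rw [hm] at hpp
    show 0 < u z * lap (fun x => √(2 * mm ℓ φ x)) z - √(2 * mm ℓ φ z) * lap u z
    rw [lap_w hg hpos, hlap, hgrad, hu3, hpot]
    have hw : 0 < √(2 * mm ℓ φ z) := Real.sqrt_pos.2 (by have := hpos z; positivity)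
    have hw2 : √(2 * mm ℓ φ z) ^ 2 = 2 * mm ℓ φ z :=
      Real.sq_sqrt (by have := hpos z; positivity)
    set w := √(2 * mm ℓ φ z) with hwdef
    rw [← hw2] at hpp
    have key : u z * (lam ℓ φ z * P.Dm / w - lam ℓ φ z * P.Gm / w ^ 3)
        - w * -(lam ℓ φ z * P.q * u z) =
        (u z * lam ℓ φ z / w ^ 3) * (w ^ 2 * (P.Dm + w ^ 2 * P.q) - P.Gm) := by
      field_simp
      ring
    rw [key]
    positivity

end Pool.Agent.SU2H
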