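import Pool.Agent.Lib.SU2H.PtLemmas

/-!
# Checks of the definitions

`conn` is the Levi-Civita connection (metric and torsion free), `bracket (sc ℓ)` is the commutator of
imaginary quaternions in the orthonormal frame, `cov` is torsion free along a map into the unit
quaternions (this is `maurer_cartan`).
-/

noncomputable section

namespace Pool.Agent.SU2H

open scoped Quaternion

/-- The connection is metric. -/
theorem conn_metric (c X Y Z : Fin 3 → ℝ) :
    dotProduct (conn c X Y) Z + dotProduct Y (conn c X Z) = 0 := by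
  simp [conn, dotProduct, Fin.sum_univ_three, cross_apply]
  ring

/-- The connection is torsion free. -/
theorem conn_torsion (c X Y : Fin 3 → ℝ) : conn c X Y - conn c Y X = bracket c X Y := by
  funext i
  fin_cases i <;> simp [conn, bracket, cross_apply] <;> ring

/-- The imaginary quaternion whose left-invariant field has coordinates `X` in the orthonormal
frame. -/
def toQ (ℓ X : Fin 3 → ℝ) : ℍ[ℝ] := ⟨0, X 0 / ℓ 0, X 1 / ℓ 1, X 2 / ℓ 2⟩

/-- `vel` is the inverse of `toQ`: `∂φ = φ * toQ (vel)`. -/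
theorem vel_toQ {ℓ : Fin 3 → ℝ} (hℓ : ∀ i, 0 < ℓ i) (X : Fin 3 → ℝ) (i : Fin 3) :
    ℓ i * imv (toQ ℓ X) i = X i := by
  have h0 := (hℓ 0).ne'
  have h1 := (hℓ 1).ne'
  have h2 := (hℓ 2).ne'
  fin_cases i <;> simp [imv, toQ] <;> field_simp

/-- The bracket is the commutator of quaternions. -/
theorem bracket_eq {ℓ : Fin 3 → ℝ} (hℓ : ∀ i, 0 < ℓ i) (X Y : Fin 3 → ℝ) (i : Fin 3) :
    ℓ i * imv (toQ ℓ X * toQ ℓ Y - toQ ℓ Y * toQ ℓ X) i = bracket (sc ℓ) X Y i := by
  have h0 := (hℓ 0).ne'
  have h1 := (hℓ 1).ne'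
  have h2 := (hℓ 2).ne'
  fin_cases i <;> simp [imv, bracket, sc, cross_apply, toQ] <;> field_simp <;> ring

end Pool.Agent.SU2H
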