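import Pool.Agent.Lib.SU2H.DiscFinal
import Pool.Agent.Lib.SU2H.PlaneFinal
import Pool.Agent.Lib.SU2H.Sanity

/-! # The non-existence statement -/

noncomputable section

namespace Pool.Agent.SU2H

/-- There is no strongly stable conformal `H`-immersion of the plane, and no complete strongly
stable conformal `H`-immersion of the unit disc, into `SU(2)` with the left-invariant metric `ℓ`. -/
def NoStable (ℓ : Fin 3 → ℝ) (H : ℝ) : Prop :=
  (∀ φ, IsConfHSurface ℓ Set.univ φ H → ¬ StronglyStable ℓ Set.univ φ) ∧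
  (∀ φ, IsConfHSurface ℓ (Metric.ball 0 1) φ H →
    Complete (Metric.ball 0 1) (fun z => √(lam ℓ φ z)) →
    ¬ StronglyStable ℓ (Metric.ball 0 1) φ)

theorem noStable_of_good {ℓ : Fin 3 → ℝ} {H : ℝ} (hℓ : ∀ i, 0 < ℓ i) (h : Good (sc ℓ) H) :
    NoStable ℓ H :=
  ⟨fun _ hφ => plane_final hℓ hφ, fun _ hφ hc => disc_final hℓ hφ hc h⟩

theorem sc_pos {ℓ : Fin 3 → ℝ} (hℓ : ∀ i, 0 < ℓ i) (i : Fin 3) : 0 < sc ℓ i := by
  have h0 := hℓ 0
  have h1 := hℓ 1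
  have h2 := hℓ 2
  have hi := hℓ i
  unfold sc
  positivity

theorem sc_le {ℓ : Fin 3 → ℝ} (hℓ : ∀ i, 0 < ℓ i) {i j : Fin 3} (h : ℓ i ≤ ℓ j) :
    sc ℓ i ≤ sc ℓ j := by
  have h0 := hℓ 0
  have h1 := hℓ 1
  have h2 := hℓ 2
  have hi := hℓ i
  unfold sc
  gcongr

end Pool.Agent.SU2H
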