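import Pool.Agent.Lib.SU2H.GoodClassical

/-!
# The pointwise criterion is an open condition

Proof sketch.  Let `Good c H` hold with `(α, ε, G, G1, G2)`.
(1) Coercivity.  For small `t ∈ (0,1)` use `α' = (1-t) α + t`, `G' = (1-t) G` (and `G1'`, `G2'`):
the new `Φ'` is `(1-t) Φ + t (K + q)` and `K + q = 3H² + scal c / 2 + j² + l²` (see
`GoodClassical`, with `j = B11 + c12 - H`, `l = B21 + σ - c11`), so
`Φ' ≥ ε/2 + t (j² + l²) ≥ ε₁ (1 + y1² + y2²)` with `y1 = (B11-B22)/2`, `y2 = (B12+B21)/2`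
(`c11, c12` are bounded in terms of `c`), for all `P : PtData c H`.
(2) Homogenise: for a real vector `y = (y0,y1,y2)` and an orthonormal frame `f = (e1,e2,n)` put
`B11 = H y0 + y1`, `B22 = H y0 - y1`, `B12 = y2 + m y0`, `B21 = y2 - m y0`, and multiply the terms
of `K`, `q`, `Dm` of lower degree in `B` by `y0` or `y0²`.  This gives a function
`Φh (c, H, f, y)`, continuous where `m = cq c n n / 2 > 0`, quadratic in `y`, with
`Φh(c,H,f,(1,y1,y2)) = Φ'(P)`.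
(3) At the given `(c,H)`: `Φh ≥ ε₁ |y|²` (for `y0 ≠ 0` by scaling, for `y0 = 0` by continuity).  The
set of pairs (orthonormal frame, unit vector `y`) is compact, so by the tube lemma
(`IsCompact.eventually_forall_of_forall_eventually` or `generalized_tube_lemma`) `Φh > ε₁/2` on
it for all `(c',H')` near `(c,H)`; scaling back gives `Good c' H'` with the same `α', G'`.
-/

noncomputable section

namespace Pool.Agent.SU2H

namespace OpenGoodAux

/-- three-vectors -/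
abbrev V := Fin 3 → ℝ

/-- homogenised `K` -/
def pK (c e1 e2 n : V) (y0 B11 B12 B21 B22 : ℝ) : ℝ :=
  B11 * B22 - B12 * B21 - y0 ^ 2 * (cq c e1 n ^ 2 + cq c e2 n ^ 2 + cq c n n ^ 2)
    + y0 * (cq c e1 e2 * (B22 - B11) + B12 * cq c e1 e1 - B21 * cq c e2 e2)

/-- homogenised `q` -/
def pq (c e1 e2 : V) (y0 B11 B21 B22 : ℝ) : ℝ :=
  (B11 + y0 * cq c e1 e2) ^ 2 + (B22 - y0 * cq c e1 e2) ^ 2
    + 2 * (B21 + y0 * ((c 0 + c 1 + c 2) / 2 - cq c e1 e1)) ^ 2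
    + 2 * y0 ^ 2 * (((c 0 + c 1 + c 2) / 2 - cq c e1 e1) * ((c 0 + c 1 + c 2) / 2 - cq c e2 e2)
      - cq c e1 e2 ^ 2)

/-- homogenised `Gm` -/
def pG (c e1 e2 n : V) (B11 B12 B21 B22 : ℝ) : ℝ :=
  (B11 * cq c e1 n + B21 * cq c e2 n) ^ 2 + (B12 * cq c e1 n + B22 * cq c e2 n) ^ 2

/-- homogenised `Dm` -/
def pD (c e1 e2 n : V) (y0 B11 B12 B21 B22 : ℝ) : ℝ :=
  y0 * ((B12 + B21) * (cq c e1 n ^ 2 - cq c e2 n ^ 2)
    + 2 * cq c e1 n * cq c e2 n * (B22 - B11))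
    - cq c n n * (B11 ^ 2 + B12 ^ 2 + B21 ^ 2 + B22 ^ 2)
    + cq c e1 e1 * (B11 ^ 2 + B12 ^ 2) + cq c e2 e2 * (B21 ^ 2 + B22 ^ 2)
    + 2 * cq c e1 e2 * (B11 * B21 + B12 * B22)

/-- the homogenised criterion -/
def pF (a g1 g2 : ℝ) (c e1 e2 n : V) (y0 B11 B12 B21 B22 : ℝ) : ℝ :=
  pK c e1 e2 n y0 B11 B12 B21 B22 + a * pq c e1 e2 y0 B11 B21 B22
    - (g2 * pG c e1 e2 n B11 B12 B21 B22 + g1 * pD c e1 e2 n y0 B11 B12 B21 B22)

theorem pF_smul (a g1 g2 : ℝ) (c e1 e2 n : V) (y0 B11 B12 B21 B22 r : ℝ) :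
    pF a g1 g2 c e1 e2 n (r * y0) (r * B11) (r * B12) (r * B21) (r * B22)
      = r ^ 2 * pF a g1 g2 c e1 e2 n y0 B11 B12 B21 B22 := by
  unfold pF pK pq pG pD
  ring

theorem pF_data {c : V} {H : ℝ} (P : PtData c H) (a g1 g2 : ℝ) :
    pF a g1 g2 c P.e1 P.e2 P.n 1 P.B11 P.B12 P.B21 P.B22
      = P.K + a * P.q - (g2 * P.Gm + g1 * P.Dm) := by
  unfold pF pK pq pG pD PtData.K PtData.q PtData.Gm PtData.Dm
  ring

/-- the function of the proof -/
def Fh (a : ℝ) (G1 G2 : ℝ → ℝ) (x : V × ℝ) (z : V × V × V × V) : ℝ :=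
  pF a (G1 (cq x.1 z.2.2.1 z.2.2.1 / 2)) (G2 (cq x.1 z.2.2.1 z.2.2.1 / 2)) x.1 z.1 z.2.1 z.2.2.1
    (z.2.2.2 0) (x.2 * z.2.2.2 0 + z.2.2.2 1)
    (z.2.2.2 2 + cq x.1 z.2.2.1 z.2.2.1 / 2 * z.2.2.2 0)
    (z.2.2.2 2 - cq x.1 z.2.2.1 z.2.2.1 / 2 * z.2.2.2 0)
    (x.2 * z.2.2.2 0 - z.2.2.2 1)

theorem Fh_smul (a : ℝ) (G1 G2 : ℝ → ℝ) (x : V × ℝ) (e1 e2 n y : V) (r : ℝ) :
    Fh a G1 G2 x (e1, e2, n, fun i => r * y i) = r ^ 2 * Fh a G1 G2 x (e1, e2, n, y) := by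
  unfold Fh
  rw [← pF_smul]
  congr 1 <;> simp only <;> ring

theorem Fh_data {c : V} {H : ℝ} (P : PtData c H) (a : ℝ) (G1 G2 : ℝ → ℝ) :
    Fh a G1 G2 (c, H) (P.e1, P.e2, P.n, ![1, (P.B11 - P.B22) / 2, (P.B12 + P.B21) / 2])
      = P.K + a * P.q - (G2 P.m * P.Gm + G1 P.m * P.Dm) := by
  have h1 := P.tr
  have h2 := P.skew
  rw [← pF_data P a (G1 P.m) (G2 P.m)]
  unfold Fh PtData.m
  congr 1
  · simp; linarith
  · simp; linarith
  · simp; linarith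
  · simp; linarith

/-- the compact set -/
def Kset : Set (V × V × V × V) :=
  {z | (∑ i, z.1 i * z.1 i = 1) ∧ (∑ i, z.2.1 i * z.2.1 i = 1) ∧ (∑ i, z.2.2.1 i * z.2.2.1 i = 1)
    ∧ (∑ i, z.1 i * z.2.1 i = 0) ∧ (∑ i, z.1 i * z.2.2.1 i = 0) ∧ (∑ i, z.2.1 i * z.2.2.1 i = 0)
    ∧ (∑ i, z.2.2.2 i * z.2.2.2 i = 1)}

theorem norm_le_one {v : V} (h : ∑ i, v i * v i = 1) : ‖v‖ ≤ 1 := by
  rw [pi_norm_le_iff_of_nonneg zero_le_one]
  intro i
  have h1 : v i * v i ≤ ∑ j, v j * v j :=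
    Finset.single_le_sum (f := fun j => v j * v j) (fun j _ => mul_self_nonneg (v j))
      (Finset.mem_univ i)
  rw [h] at h1
  rw [Real.norm_eq_abs]
  exact abs_le_one_iff_mul_self_le_one.mpr h1

theorem isCompact_Kset : IsCompact Kset := by
  apply Metric.isCompact_of_isClosed_isBounded
  · unfold Kset
    refine IsClosed.inter (isClosed_eq (by fun_prop) continuous_const) ?_
    refine IsClosed.inter (isClosed_eq (by fun_prop) continuous_const) ?_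
    refine IsClosed.inter (isClosed_eq (by fun_prop) continuous_const) ?_
    refine IsClosed.inter (isClosed_eq (by fun_prop) continuous_const) ?_
    refine IsClosed.inter (isClosed_eq (by fun_prop) continuous_const) ?_
    refine IsClosed.inter (isClosed_eq (by fun_prop) continuous_const) ?_
    exact isClosed_eq (by fun_prop) continuous_const
  · refine (Metric.isBounded_closedBall (x := (0 : V × V × V × V)) (r := 1)).subset ?_
    rintro ⟨e1, e2, n, y⟩ ⟨h1, h2, h3, -, -, -, h4⟩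
    rw [mem_closedBall_zero_iff]
    simp only [Prod.norm_def]
    exact max_le (norm_le_one h1) (max_le (norm_le_one h2) (max_le (norm_le_one h3)
      (norm_le_one h4)))

theorem m_pos {c n : V} (hc : ∀ i, 0 < c i) (hn : ∑ i, n i * n i = 1) : 0 < cq c n n / 2 := by
  have h0 := hc 0
  have h1 := hc 1
  have h2 := hc 2
  simp only [cq, Fin.sum_univ_three] at hn ⊢
  by_contra hcon
  rw [not_lt] at hcon
  have a0 : 0 ≤ c 0 * n 0 * n 0 := by
    rw [mul_assoc]; exact mul_nonneg h0.le (mul_self_nonneg _)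
  have a1 : 0 ≤ c 1 * n 1 * n 1 := by
    rw [mul_assoc]; exact mul_nonneg h1.le (mul_self_nonneg _)
  have a2 : 0 ≤ c 2 * n 2 * n 2 := by
    rw [mul_assoc]; exact mul_nonneg h2.le (mul_self_nonneg _)
  have b0 : n 0 * n 0 = 0 := by
    have : c 0 * (n 0 * n 0) = 0 := by nlinarith
    rcases mul_eq_zero.mp this with h | h
    · exact absurd h h0.ne'
    · exact h
  have b1 : n 1 * n 1 = 0 := by
    have : c 1 * (n 1 * n 1) = 0 := by nlinarith
    rcases mul_eq_zero.mp this with h | h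
    · exact absurd h h1.ne'
    · exact h
  have b2 : n 2 * n 2 = 0 := by
    have : c 2 * (n 2 * n 2) = 0 := by nlinarith
    rcases mul_eq_zero.mp this with h | h
    · exact absurd h h2.ne'
    · exact h
  linarith

theorem cont_Fh {a : ℝ} {G1 G2 : ℝ → ℝ} (h1 : ∀ t > 0, ContinuousAt G1 t)
    (h2 : ∀ t > 0, ContinuousAt G2 t) {x : V × ℝ} {z : V × V × V × V}
    (hm : 0 < cq x.1 z.2.2.1 z.2.2.1 / 2) :
    ContinuousAt (fun w : (V × ℝ) × (V × V × V × V) => Fh a G1 G2 w.1 w.2) (x, z) := by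
  have hm' : Continuous (fun w : (V × ℝ) × (V × V × V × V) =>
      cq w.1.1 w.2.2.2.1 w.2.2.2.1 / 2) := by
    simp only [cq, Fin.sum_univ_three]
    fun_prop
  have k1 : ContinuousAt (fun w : (V × ℝ) × (V × V × V × V) =>
      G1 (cq w.1.1 w.2.2.2.1 w.2.2.2.1 / 2)) (x, z) :=
    ContinuousAt.comp (f := fun w : (V × ℝ) × (V × V × V × V) =>
      cq w.1.1 w.2.2.2.1 w.2.2.2.1 / 2) (g := G1) (h1 _ hm) hm'.continuousAt
  have k2 : ContinuousAt (fun w : (V × ℝ) × (V × V × V × V) =>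
      G2 (cq w.1.1 w.2.2.2.1 w.2.2.2.1 / 2)) (x, z) :=
    ContinuousAt.comp (f := fun w : (V × ℝ) × (V × V × V × V) =>
      cq w.1.1 w.2.2.2.1 w.2.2.2.1 / 2) (g := G2) (h2 _ hm) hm'.continuousAt
  unfold Fh pF
  refine ContinuousAt.sub ?_ (ContinuousAt.add (k2.mul ?_) (k1.mul ?_))
  · apply Continuous.continuousAt
    simp only [pK, pq, cq, Fin.sum_univ_three]
    fun_prop
  · apply Continuous.continuousAt
    simp only [pG, cq, Fin.sum_univ_three]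
    fun_prop
  · apply Continuous.continuousAt
    simp only [pD, cq, Fin.sum_univ_three]
    fun_prop

theorem cq_bound {c x y : V} (hc : ∀ i, 0 < c i) (hx : ∑ i, x i * x i = 1)
    (hy : ∑ i, y i * y i = 1) : |cq c x y| ≤ c 0 + c 1 + c 2 := by
  have key : ∀ i, |c i * x i * y i| ≤ c i := by
    intro i
    have h1 : |x i| ≤ 1 := by
      have := norm_le_pi_norm x i
      rw [Real.norm_eq_abs] at this
      exact this.trans (norm_le_one hx)
    have h2 : |y i| ≤ 1 := by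
      have := norm_le_pi_norm y i
      rw [Real.norm_eq_abs] at this
      exact this.trans (norm_le_one hy)
    rw [abs_mul, abs_mul, abs_of_pos (hc i), mul_assoc]
    have h3 : |x i| * |y i| ≤ 1 := by
      calc |x i| * |y i| ≤ 1 * 1 := mul_le_mul h1 h2 (abs_nonneg _) zero_le_one
        _ = 1 := one_mul 1
    nlinarith [hc i]
  calc |cq c x y| ≤ ∑ i, |c i * x i * y i| := Finset.abs_sum_le_sum_abs _ _
    _ ≤ ∑ i, c i := Finset.sum_le_sum fun i _ => key i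
    _ = c 0 + c 1 + c 2 := Fin.sum_univ_three c

/-- coercive form of the criterion -/
theorem coercive {c : V} {H : ℝ} (hc : ∀ i, 0 < c i) (h : Good c H) :
    ∃ (α ε : ℝ) (G G1 G2 : ℝ → ℝ), 0 < α ∧ α < 2 ∧ 0 < ε ∧
      (∀ t > 0, HasDerivAt G (G1 t) t) ∧ (∀ t > 0, HasDerivAt G1 (G2 t) t) ∧
      ContinuousOn G2 (Set.Ioi 0) ∧
      ∀ P : PtData c H, ε * (1 + ((P.B11 - P.B22) / 2) ^ 2 + ((P.B12 + P.B21) / 2) ^ 2)
        ≤ P.K + α * P.q - (G2 P.m * P.Gm + G1 P.m * P.Dm) := by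
  obtain ⟨α, ε, G, G1, G2, hα0, hα2, hε, hG, hG1, hG2, hP⟩ := h
  set s := c 0 + c 1 + c 2 with hs
  have hs0 : 0 < s := by have := hc 0; have := hc 1; have := hc 2; rw [hs]; linarith
  set κ := 3 * H ^ 2 + scal c / 2 with hκ
  set R := s ^ 2 + (3 * s) ^ 2 with hR
  have hR0 : 0 ≤ R := by positivity
  set D := 4 * (1 + R + |κ| + ε) with hD
  have hD0 : 0 < D := by positivity
  set t := ε / D with ht
  have ht0 : 0 < t := div_pos hε hD0
  have htD : t * D = ε := div_mul_cancel₀ ε hD0.ne'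
  have ht1 : t * (1 + R + |κ| + ε) = ε / 4 := by
    rw [hD] at htD; linarith
  have hκ0 : 0 ≤ |κ| := abs_nonneg κ
  have e1 : 0 ≤ t * R := mul_nonneg ht0.le hR0
  have e2 : 0 ≤ t * |κ| := mul_nonneg ht0.le hκ0
  have e3 : 0 ≤ t * ε := mul_nonneg ht0.le hε.le
  have ht4 : t ≤ ε / 4 := by nlinarith
  have htlt : t < 1 := by
    by_contra hcon
    rw [not_lt] at hcon
    nlinarith
  refine ⟨(1 - t) * α + t, t / 2, fun u => (1 - t) * G u, fun u => (1 - t) * G1 u,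
    fun u => (1 - t) * G2 u, by nlinarith, by nlinarith, by positivity,
    fun u hu => (hG u hu).const_mul _, fun u hu => (hG1 u hu).const_mul _,
    continuousOn_const.mul hG2, ?_⟩
  intro P
  have h1 := hP P
  have h2 : P.K + 1 * P.q = κ + (P.B11 + cq c P.e1 P.e2 - H) ^ 2
      + (P.B21 + s / 2 - cq c P.e1 P.e1) ^ 2 := by
    rw [hκ, scal_eq c, hs]
    have key := GoodClassicalAux.alg P.tr P.skew P.tr_c P.e2_c
    unfold PtData.K PtData.q
    linear_combination key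
  have b12 := abs_le.mp (cq_bound hc P.o11 P.o22)
  have b11 := abs_le.mp (cq_bound hc P.o11 P.o11)
  have b33 := abs_le.mp (cq_bound hc P.o33 P.o33)
  have htr := P.tr
  have hsk := P.skew
  rw [← hs] at b12 b11 b33
  set y1 := (P.B11 - P.B22) / 2 with hy1
  set y2 := (P.B12 + P.B21) / 2 with hy2
  have hj : P.B11 + cq c P.e1 P.e2 - H = y1 + cq c P.e1 P.e2 := by rw [hy1]; linarith
  have hl : P.B21 + s / 2 - cq c P.e1 P.e1 = y2 + (s / 2 - cq c P.e1 P.e1 - cq c P.n P.n / 2) := by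
    rw [hy2]; linarith
  rw [hj, hl] at h2
  have f1 : y1 ^ 2 / 2 - s ^ 2 ≤ (y1 + cq c P.e1 P.e2) ^ 2 := by
    nlinarith [sq_nonneg (y1 + 2 * cq c P.e1 P.e2), b12.1, b12.2]
  have f2 : y2 ^ 2 / 2 - (3 * s) ^ 2
      ≤ (y2 + (s / 2 - cq c P.e1 P.e1 - cq c P.n P.n / 2)) ^ 2 := by
    have g1 : s / 2 - cq c P.e1 P.e1 - cq c P.n P.n / 2 ≤ 3 * s := by linarith
    have g2 : -(3 * s) ≤ s / 2 - cq c P.e1 P.e1 - cq c P.n P.n / 2 := by linarith
    nlinarith [sq_nonneg (y2 + 2 * (s / 2 - cq c P.e1 P.e1 - cq c P.n P.n / 2))]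
  have f3 : κ + y1 ^ 2 / 2 + y2 ^ 2 / 2 - R ≤ P.K + 1 * P.q := by rw [h2, hR]; linarith
  have f4 : -|κ| ≤ κ := neg_abs_le κ
  have f5 : t * (-|κ| + y1 ^ 2 / 2 + y2 ^ 2 / 2 - R) ≤ t * (P.K + 1 * P.q) :=
    mul_le_mul_of_nonneg_left (by linarith) ht0.le
  have f6 : (1 - t) * ε ≤ (1 - t) * (P.K + α * P.q - (G2 P.m * P.Gm + G1 P.m * P.Dm)) :=
    mul_le_mul_of_nonneg_left h1 (by linarith)
  have f7 : P.K + ((1 - t) * α + t) * P.q - ((1 - t) * G2 P.m * P.Gm + (1 - t) * G1 P.m * P.Dm)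
      = (1 - t) * (P.K + α * P.q - (G2 P.m * P.Gm + G1 P.m * P.Dm)) + t * (P.K + 1 * P.q) := by
    ring
  rw [f7]
  nlinarith

end OpenGoodAux

open OpenGoodAux in
theorem good_open {c : Fin 3 → ℝ} {H : ℝ} (hc : ∀ i, 0 < c i) (h : Good c H) :
    ∀ᶠ p : (Fin 3 → ℝ) × ℝ in nhds (c, H), Good p.1 p.2 := by
  obtain ⟨α, ε, G, G1, G2, hα0, hα2, hε, hG, hG1, hG2, hP⟩ := coercive hc h
  have c1 : ∀ t > 0, ContinuousAt G1 t := fun t ht => (hG1 t ht).continuousAt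
  have c2 : ∀ t > 0, ContinuousAt G2 t := fun t ht => hG2.continuousAt (Ioi_mem_nhds ht)
  -- step 3: the lower bound at `(c, H)`
  have low1 : ∀ e1 e2 n y : V, (∑ i, e1 i * e1 i = 1) → (∑ i, e2 i * e2 i = 1) →
      (∑ i, n i * n i = 1) → (∑ i, e1 i * e2 i = 0) → (∑ i, e1 i * n i = 0) →
      (∑ i, e2 i * n i = 0) → y 0 ≠ 0 →
      ε * (y 0 ^ 2 + y 1 ^ 2 + y 2 ^ 2) ≤ Fh α G1 G2 (c, H) (e1, e2, n, y) := by
    intro e1 e2 n y o11 o22 o33 o12 o13 o23 hy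
    let P : PtData c H := ⟨e1, e2, n, H + y 1 / y 0, y 2 / y 0 + cq c n n / 2,
      y 2 / y 0 - cq c n n / 2, H - y 1 / y 0, o11, o22, o33, o12, o13, o23, by ring, by ring⟩
    have h1 := hP P
    rw [← Fh_data P α G1 G2] at h1
    have hy' : y = fun i => y 0 * (![1, (P.B11 - P.B22) / 2, (P.B12 + P.B21) / 2] : V) i := by
      ext i
      fin_cases i
      · simp
      · simp [P]; field_simp
      · simp [P]; field_simp
    have h2 : Fh α G1 G2 (c, H) (e1, e2, n, y) = y 0 ^ 2 *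
        Fh α G1 G2 (c, H) (e1, e2, n, ![1, (P.B11 - P.B22) / 2, (P.B12 + P.B21) / 2]) := by
      rw [← Fh_smul]
      exact congrArg (fun v => Fh α G1 G2 (c, H) (e1, e2, n, v)) hy'
    rw [h2]
    have h3 : ε * (y 0 ^ 2 + y 1 ^ 2 + y 2 ^ 2) = y 0 ^ 2 *
        (ε * (1 + ((P.B11 - P.B22) / 2) ^ 2 + ((P.B12 + P.B21) / 2) ^ 2)) := by
      simp only [P]
      field_simp
      ring
    rw [h3]
    exact mul_le_mul_of_nonneg_left h1 (sq_nonneg _)
  have low2 : ∀ z ∈ Kset, ε ≤ Fh α G1 G2 (c, H) z := by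
    rintro ⟨e1, e2, n, y⟩ ⟨o11, o22, o33, o12, o13, o23, hy⟩
    simp only at o11 o22 o33 o12 o13 o23 hy
    have hg : Continuous fun r : ℝ => Fh α G1 G2 (c, H) (e1, e2, n, ![r, y 1, y 2])
        - ε * (r ^ 2 + y 1 ^ 2 + y 2 ^ 2) := by
      simp only [Fh, pF, pK, pq, pG, pD, Matrix.cons_val_zero, Matrix.cons_val_one,
        Matrix.cons_val]
      fun_prop
    have hcl : IsClosed {r : ℝ | 0 ≤ Fh α G1 G2 (c, H) (e1, e2, n, ![r, y 1, y 2])
        - ε * (r ^ 2 + y 1 ^ 2 + y 2 ^ 2)} := isClosed_le continuous_const hg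
    have hsub : ({0}ᶜ : Set ℝ) ⊆ {r : ℝ | 0 ≤ Fh α G1 G2 (c, H) (e1, e2, n, ![r, y 1, y 2])
        - ε * (r ^ 2 + y 1 ^ 2 + y 2 ^ 2)} := by
      intro r hr
      have := low1 e1 e2 n ![r, y 1, y 2] o11 o22 o33 o12 o13 o23 (by simpa using hr)
      simp only [Matrix.cons_val_zero, Matrix.cons_val_one, Matrix.cons_val] at this
      simpa using this
    have hall : ∀ r : ℝ, 0 ≤ Fh α G1 G2 (c, H) (e1, e2, n, ![r, y 1, y 2])
        - ε * (r ^ 2 + y 1 ^ 2 + y 2 ^ 2) := by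
      intro r
      have h1 := hcl.closure_subset_iff.mpr hsub
      rw [(dense_compl_singleton (0 : ℝ)).closure_eq] at h1
      exact h1 (Set.mem_univ r)
    have h4 := hall (y 0)
    have hyy : (![y 0, y 1, y 2] : V) = y := by
      ext i; fin_cases i <;> rfl
    rw [hyy] at h4
    rw [Fin.sum_univ_three] at hy
    have h5 : ε * (y 0 ^ 2 + y 1 ^ 2 + y 2 ^ 2) = ε := by
      have : y 0 ^ 2 + y 1 ^ 2 + y 2 ^ 2 = 1 := by linarith
      rw [this, mul_one]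
    linarith
  -- the tube lemma
  have tube : ∀ᶠ x in nhds (c, H), ∀ z ∈ Kset, ε / 2 < Fh α G1 G2 x z := by
    refine isCompact_Kset.eventually_forall_of_forall_eventually ?_
    intro z hz
    have hm : 0 < cq (c, H).1 z.2.2.1 z.2.2.1 / 2 := m_pos hc hz.2.2.1
    have h1 := cont_Fh (a := α) c1 c2 hm
    exact h1.eventually (lt_mem_nhds (by have := low2 z hz; simp only; linarith))
  refine tube.mono ?_
  rintro ⟨c', H'⟩ hx
  refine ⟨α, ε / 2, G, G1, G2, hα0, hα2, by positivity, hG, hG1, hG2, ?_⟩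
  intro P
  rw [← Fh_data P α G1 G2]
  set y : V := ![1, (P.B11 - P.B22) / 2, (P.B12 + P.B21) / 2] with hy
  set N := Real.sqrt (y 0 ^ 2 + y 1 ^ 2 + y 2 ^ 2) with hN
  have hy0 : y 0 = 1 := rfl
  have hNsq : N ^ 2 = y 0 ^ 2 + y 1 ^ 2 + y 2 ^ 2 := Real.sq_sqrt (by positivity)
  have hN1 : 1 ≤ N ^ 2 := by rw [hNsq, hy0]; nlinarith [sq_nonneg (y 1), sq_nonneg (y 2)]
  have hN0 : N ≠ 0 := by rintro h0; rw [h0] at hN1; norm_num at hN1
  have h1 : y = fun i => N * (N⁻¹ * y i) := by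
    ext i; field_simp
  have h2 : Fh α G1 G2 (c', H') (P.e1, P.e2, P.n, y)
      = N ^ 2 * Fh α G1 G2 (c', H') (P.e1, P.e2, P.n, fun i => N⁻¹ * y i) := by
    rw [← Fh_smul]
    exact congrArg (fun v => Fh α G1 G2 (c', H') (P.e1, P.e2, P.n, v)) h1
  rw [h2]
  have h3 : ε / 2 < Fh α G1 G2 (c', H') (P.e1, P.e2, P.n, fun i => N⁻¹ * y i) := by
    apply hx
    refine ⟨P.o11, P.o22, P.o33, P.o12, P.o13, P.o23, ?_⟩
    simp only [Fin.sum_univ_three]
    have : N⁻¹ * y 0 * (N⁻¹ * y 0) + N⁻¹ * y 1 * (N⁻¹ * y 1) + N⁻¹ * y 2 * (N⁻¹ * y 2)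
        = (y 0 ^ 2 + y 1 ^ 2 + y 2 ^ 2) / N ^ 2 := by
      field_simp
    rw [this, hNsq]
    exact div_self (by rw [← hNsq]; exact pow_ne_zero 2 hN0)
  nlinarith

end Pool.Agent.SU2H
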