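import Pool.Agent.Lib.SU2H.OpenGood
import Pool.Agent.Lib.SU2H.GoodBerger
import Pool.Agent.Lib.SU2H.GoodMinimal

/-!
# An open set of metrics

Proof sketch.  `U` is the interior of `{c | ∀ H, Good c H}`.
* Permutations: `Good (c ∘ σ) H ↔ Good c H` for a permutation `σ` of `Fin 3` (transport
  `PtData c H` by permuting the coordinates of `e1, e2, n`; `cq`, and hence `m, K, q, Gm, Dm`, are
  unchanged, and `c 0 + c 1 + c 2` is unchanged).  So we may assume that `c 2` is the largest in the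
  first case.
* `0 ≤ scal c`: if `0 < scal c` then `0 < scal c'` for `c'` near `c` and `good_classical` applies for
  every `H`.  If `scal c = 0`: `good_minimal` gives `Good c 0`, `good_open` gives `δ > 0` and a
  neighbourhood with `Good c' H` for `|H| < δ`; for `|H| ≥ δ` and `c'` close to `c`,
  `3 H² + scal c' / 2 ≥ 3 δ² + scal c' / 2 > 0` and `good_classical` applies.
* Berger, `c 0 = c 1` and `5 c 2 < 24 c 0`: `good_berger` gives `Good c H` for every `H`
  (`24 c2 (c2 - c0) ≤ 19 c2²`).  Choose `H₁` with `3 H₁² + scal c / 2 > 1`; for `c'` near `c` and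
  `|H| ≥ H₁` use `good_classical`; for `|H| ≤ H₁` use `good_open` at each `(c,H)` and compactness
  of `[-H₁, H₁]` (`IsCompact.eventually_forall_of_forall_eventually`).
-/

noncomputable section

namespace Pool.Agent.SU2H

namespace OpenSetAux

open Filter Topology

theorem scal_sum (c : Fin 3 → ℝ) : scal c = (∑ i, c i) ^ 2 / 2 - ∑ i, c i ^ 2 := by
  rw [scal_eq, Fin.sum_univ_three, Fin.sum_univ_three]
  ring

theorem scal_comp (c : Fin 3 → ℝ) (σ : Equiv.Perm (Fin 3)) : scal (c ∘ σ) = scal c := by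
  rw [scal_sum, scal_sum, ← Equiv.sum_comp σ c, ← Equiv.sum_comp σ (fun i => c i ^ 2)]
  rfl

theorem scal_cont : Continuous scal := by
  have h : scal = fun c : Fin 3 → ℝ => (∑ i, c i) ^ 2 / 2 - ∑ i, c i ^ 2 := funext scal_sum
  rw [h]
  fun_prop

theorem cq_comp (σ : Equiv.Perm (Fin 3)) (c x y : Fin 3 → ℝ) :
    cq (c ∘ σ) (x ∘ σ) (y ∘ σ) = cq c x y := by
  unfold cq
  exact Equiv.sum_comp σ (fun i => c i * x i * y i)

theorem dot_comp (σ : Equiv.Perm (Fin 3)) (x y : Fin 3 → ℝ) :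
    ∑ i, (x ∘ σ) i * (y ∘ σ) i = ∑ i, x i * y i :=
  Equiv.sum_comp σ (fun i => x i * y i)

/-- permuting the coordinates -/
def perm (σ : Equiv.Perm (Fin 3)) {c : Fin 3 → ℝ} {H : ℝ} (P : PtData c H) :
    PtData (c ∘ σ) H where
  e1 := P.e1 ∘ σ
  e2 := P.e2 ∘ σ
  n := P.n ∘ σ
  B11 := P.B11
  B12 := P.B12
  B21 := P.B21
  B22 := P.B22
  o11 := (dot_comp σ _ _).trans P.o11
  o22 := (dot_comp σ _ _).trans P.o22
  o33 := (dot_comp σ _ _).trans P.o33
  o12 := (dot_comp σ _ _).trans P.o12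
  o13 := (dot_comp σ _ _).trans P.o13
  o23 := (dot_comp σ _ _).trans P.o23
  tr := P.tr
  skew := P.skew.trans (cq_comp σ _ _ _).symm

theorem sum_comp' (σ : Equiv.Perm (Fin 3)) (c : Fin 3 → ℝ) :
    (c ∘ σ) 0 + (c ∘ σ) 1 + (c ∘ σ) 2 = c 0 + c 1 + c 2 := by
  have h := Equiv.sum_comp σ c
  rw [Fin.sum_univ_three, Fin.sum_univ_three] at h
  exact h

theorem good_perm (σ : Equiv.Perm (Fin 3)) {c : Fin 3 → ℝ} {H : ℝ} (h : Good (c ∘ σ) H) :
    Good c H := by
  obtain ⟨α, ε, G, G1, G2, h1, h2, h3, h4, h5, h6, h7⟩ := h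
  refine ⟨α, ε, G, G1, G2, h1, h2, h3, h4, h5, h6, fun P => ?_⟩
  have h8 := h7 (perm σ P)
  have em : (perm σ P).m = P.m := by
    unfold PtData.m
    exact congrArg (· / 2) (cq_comp σ c P.n P.n)
  have a11 : cq (c ∘ σ) (perm σ P).e1 (perm σ P).e1 = cq c P.e1 P.e1 := cq_comp σ _ _ _
  have a12 : cq (c ∘ σ) (perm σ P).e1 (perm σ P).e2 = cq c P.e1 P.e2 := cq_comp σ _ _ _
  have a22 : cq (c ∘ σ) (perm σ P).e2 (perm σ P).e2 = cq c P.e2 P.e2 := cq_comp σ _ _ _
  have a1n : cq (c ∘ σ) (perm σ P).e1 (perm σ P).n = cq c P.e1 P.n := cq_comp σ _ _ _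
  have a2n : cq (c ∘ σ) (perm σ P).e2 (perm σ P).n = cq c P.e2 P.n := cq_comp σ _ _ _
  have ann : cq (c ∘ σ) (perm σ P).n (perm σ P).n = cq c P.n P.n := cq_comp σ _ _ _
  have eK : (perm σ P).K = P.K := by
    unfold PtData.K
    rw [a11, a12, a22, a1n, a2n, ann]
    rfl
  have eq' : (perm σ P).q = P.q := by
    unfold PtData.q
    rw [a11, a12, a22, sum_comp' σ c]
    rfl
  have eG : (perm σ P).Gm = P.Gm := by
    unfold PtData.Gm
    rw [a1n, a2n]
    rfl
  have eD : (perm σ P).Dm = P.Dm := by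
    unfold PtData.Dm
    rw [a11, a12, a22, a1n, a2n, ann]
    rfl
  rw [em, eK, eq', eG, eD] at h8
  exact h8

/-- metrics of nonnegative scalar curvature, minimal surfaces -/
theorem good_zero {c : Fin 3 → ℝ} (hc : ∀ i, 0 < c i) (hs : 0 ≤ scal c) : Good c 0 := by
  obtain ⟨i, hi⟩ : ∃ i : Fin 3, ∀ j, c j ≤ c i := Finite.exists_max c
  apply good_perm (Equiv.swap i 2)
  have h2 : (c ∘ Equiv.swap i 2) 2 = c i := by simp
  refine good_minimal (fun j => hc _) ?_ ?_ ?_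
  · rw [h2]; exact hi _
  · rw [h2]; exact hi _
  · rw [scal_comp]
    have := sq_nonneg ((c ∘ Equiv.swap i 2) 0 * (c ∘ Equiv.swap i 2) 1 / (c ∘ Equiv.swap i 2) 2)
    linarith

theorem ev_nonneg {c : Fin 3 → ℝ} (hc : ∀ i, 0 < c i) (hs : 0 ≤ scal c) :
    ∀ᶠ c' in 𝓝 c, ∀ H : ℝ, Good c' H := by
  rcases hs.lt_or_eq with h | h
  · have h1 : ∀ᶠ c' in 𝓝 c, 0 < scal c' := scal_cont.continuousAt.eventually_const_lt h
    filter_upwards [h1] with c' hc' H
    exact good_classical (by nlinarith [sq_nonneg H])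
  · have h1 := good_open hc (good_zero hc hs)
    rw [nhds_prod_eq, Filter.eventually_prod_iff] at h1
    obtain ⟨pa, ha, pb, hb, hab⟩ := h1
    obtain ⟨δ, hδ, hb'⟩ := Metric.eventually_nhds_iff.1 hb
    have h2 : 0 < 3 * δ ^ 2 + scal c / 2 := by
      rw [← h]
      positivity
    have h3 : ∀ᶠ c' in 𝓝 c, 0 < 3 * δ ^ 2 + scal c' / 2 := by
      have hcont : Continuous fun c' : Fin 3 → ℝ => 3 * δ ^ 2 + scal c' / 2 :=
        continuous_const.add (scal_cont.div_const 2)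
      exact hcont.continuousAt.eventually_const_lt h2
    filter_upwards [ha, h3] with c' hc1 hc2 H
    by_cases hH : |H| < δ
    · exact hab hc1 (hb' (by rw [Real.dist_eq, sub_zero]; exact hH))
    · apply good_classical
      have h4 : δ ^ 2 ≤ H ^ 2 := by
        rw [← sq_abs H]
        exact pow_le_pow_left₀ hδ.le (not_lt.1 hH) 2
      linarith

theorem ev_berger {c : Fin 3 → ℝ} (hc : ∀ i, 0 < c i) (h01 : c 0 = c 1)
    (h5 : 5 * c 2 < 24 * c 0) : ∀ᶠ c' in 𝓝 c, ∀ H : ℝ, Good c' H := by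
  obtain ⟨R, hR0, hR⟩ : ∃ R : ℝ, 0 < R ∧ 0 < 3 * R ^ 2 + scal c / 2 := by
    refine ⟨1 + |scal c|, by positivity, ?_⟩
    have h1 := neg_abs_le (scal c)
    have h2 := abs_nonneg (scal c)
    nlinarith
  have h3 : ∀ᶠ c' in 𝓝 c, 0 < 3 * R ^ 2 + scal c' / 2 := by
    have hcont : Continuous fun c' : Fin 3 → ℝ => 3 * R ^ 2 + scal c' / 2 :=
      continuous_const.add (scal_cont.div_const 2)
    exact hcont.continuousAt.eventually_const_lt hR
  have h4 : ∀ᶠ c' in 𝓝 c, ∀ H ∈ Set.Icc (-R) R, Good c' H := by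
    refine isCompact_Icc.eventually_forall_of_forall_eventually fun H _ => ?_
    refine good_open hc (good_berger hc h01 ?_)
    have h6 := mul_lt_mul_of_pos_left h5 (hc 2)
    nlinarith [sq_nonneg H]
  filter_upwards [h3, h4] with c' hc1 hc2 H
  by_cases hH : |H| ≤ R
  · exact hc2 H ⟨(abs_le.1 hH).1, (abs_le.1 hH).2⟩
  · apply good_classical
    have h6 : R ^ 2 ≤ H ^ 2 := by
      rw [← sq_abs H]
      exact pow_le_pow_left₀ hR0.le (not_le.1 hH).le 2
    linarith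

end OpenSetAux

open OpenSetAux

theorem exists_open_set : ∃ U : Set (Fin 3 → ℝ), IsOpen U ∧
    (∀ c : Fin 3 → ℝ, (∀ i, 0 < c i) → 0 ≤ scal c → c ∈ U) ∧
    (∀ c : Fin 3 → ℝ, (∀ i, 0 < c i) → c 0 = c 1 → 5 * c 2 < 24 * c 0 → c ∈ U) ∧
    ∀ c ∈ U, ∀ H : ℝ, Good c H := by
  refine ⟨interior {c | ∀ H : ℝ, Good c H}, isOpen_interior, ?_, ?_, ?_⟩
  · intro c hc hs
    exact mem_interior_iff_mem_nhds.2 (ev_nonneg hc hs)
  · intro c hc h01 h5
    exact mem_interior_iff_mem_nhds.2 (ev_berger hc h01 h5)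
  · intro c hc
    exact interior_subset hc

end Pool.Agent.SU2H
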