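import Pool.Agent.Lib.SU2H.Defs

/-! # Pointwise data of an H-surface -/

noncomputable section

namespace Pool.Agent.SU2H

/-- the quadratic form of the structure constants -/
def cq (c x y : Fin 3 → ℝ) : ℝ := ∑ i, c i * x i * y i

/-- Pointwise data: an orthonormal frame `e1, e2, n` and the matrix `B` with
`dν(e1) = -(B11 e1 + B21 e2)`, `dν(e2) = -(B12 e1 + B22 e2)`. -/
structure PtData (c : Fin 3 → ℝ) (H : ℝ) where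
  (e1 e2 n : Fin 3 → ℝ)
  (B11 B12 B21 B22 : ℝ)
  (o11 : ∑ i, e1 i * e1 i = 1)
  (o22 : ∑ i, e2 i * e2 i = 1)
  (o33 : ∑ i, n i * n i = 1)
  (o12 : ∑ i, e1 i * e2 i = 0)
  (o13 : ∑ i, e1 i * n i = 0)
  (o23 : ∑ i, e2 i * n i = 0)
  (tr : B11 + B22 = 2 * H)
  (skew : B12 - B21 = cq c n n)

namespace PtData

variable {c : Fin 3 → ℝ} {H : ℝ} (P : PtData c H)

/-- `m = w²/2` -/
def m : ℝ := cq c P.n P.n / 2
/-- the intrinsic curvature -/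
def K : ℝ := P.B11 * P.B22 - P.B12 * P.B21 - cq c P.e1 P.n ^ 2 - cq c P.e2 P.n ^ 2
    - cq c P.n P.n ^ 2 + cq c P.e1 P.e2 * (P.B22 - P.B11) + P.B12 * cq c P.e1 P.e1
    - P.B21 * cq c P.e2 P.e2
/-- the potential `|A|² + Ric` -/
def q : ℝ := (P.B11 + cq c P.e1 P.e2) ^ 2 + (P.B22 - cq c P.e1 P.e2) ^ 2
    + 2 * (P.B21 + (c 0 + c 1 + c 2) / 2 - cq c P.e1 P.e1) ^ 2
    + 2 * (((c 0 + c 1 + c 2) / 2 - cq c P.e1 P.e1) * ((c 0 + c 1 + c 2) / 2 - cq c P.e2 P.e2)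
      - cq c P.e1 P.e2 ^ 2)
/-- the squared gradient of `m` -/
def Gm : ℝ := (P.B11 * cq c P.e1 P.n + P.B21 * cq c P.e2 P.n) ^ 2
    + (P.B12 * cq c P.e1 P.n + P.B22 * cq c P.e2 P.n) ^ 2
/-- the Laplacian of `m` -/
def Dm : ℝ := (P.B12 + P.B21) * (cq c P.e1 P.n ^ 2 - cq c P.e2 P.n ^ 2)
    + 2 * cq c P.e1 P.n * cq c P.e2 P.n * (P.B22 - P.B11)
    - cq c P.n P.n * (P.B11 ^ 2 + P.B12 ^ 2 + P.B21 ^ 2 + P.B22 ^ 2)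
    + cq c P.e1 P.e1 * (P.B11 ^ 2 + P.B12 ^ 2) + cq c P.e2 P.e2 * (P.B21 ^ 2 + P.B22 ^ 2)
    + 2 * cq c P.e1 P.e2 * (P.B11 * P.B21 + P.B12 * P.B22)

end PtData

/-- The pointwise criterion. -/
def Good (c : Fin 3 → ℝ) (H : ℝ) : Prop :=
  ∃ (α ε : ℝ) (G G1 G2 : ℝ → ℝ), 0 < α ∧ α < 2 ∧ 0 < ε ∧
    (∀ t > 0, HasDerivAt G (G1 t) t) ∧ (∀ t > 0, HasDerivAt G1 (G2 t) t) ∧
    ContinuousOn G2 (Set.Ioi 0) ∧
    ∀ P : PtData c H, ε ≤ P.K + α * P.q - (G2 P.m * P.Gm + G1 P.m * P.Dm)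

end Pool.Agent.SU2H
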