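import Pool.Agent.Lib.SU2H.Pt

/-! # Invariants of the moving frame -/

noncomputable section

namespace Pool.Agent.SU2H

namespace PtData

variable {c : Fin 3 → ℝ} {H : ℝ} (P : PtData c H)

/-- the orthogonal matrix of the frame -/
def O : Matrix (Fin 3) (Fin 3) ℝ := Matrix.of ![P.e1, P.e2, P.n]

theorem O_mul : P.O * P.O.transpose = 1 := by
  have h11 := P.o11
  have h22 := P.o22
  have h33 := P.o33
  have h12 := P.o12
  have h13 := P.o13
  have h23 := P.o23
  simp only [Fin.sum_univ_three] at h11 h22 h33 h12 h13 h23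
  ext i j
  fin_cases i <;> fin_cases j <;>
    simp [O, Matrix.mul_apply, Fin.sum_univ_three, Matrix.one_apply] <;> nlinarith

theorem O_mul' : P.O.transpose * P.O = 1 := mul_eq_one_comm.mp P.O_mul

theorem col (i j : Fin 3) :
    P.e1 i * P.e1 j + P.e2 i * P.e2 j + P.n i * P.n j = if i = j then 1 else 0 := by
  have h := congrFun (congrFun P.O_mul' i) j
  simpa [O, Matrix.mul_apply, Fin.sum_univ_three, Matrix.one_apply] using h

theorem tr_c : cq c P.e1 P.e1 + cq c P.e2 P.e2 + cq c P.n P.n = c 0 + c 1 + c 2 := by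
  have h0 := P.col 0 0
  have h1 := P.col 1 1
  have h2 := P.col 2 2
  simp only [if_true] at h0 h1 h2
  simp only [cq, Fin.sum_univ_three]
  linear_combination c 0 * h0 + c 1 * h1 + c 2 * h2

/-- the matrix of `C` in the frame -/
def M : Matrix (Fin 3) (Fin 3) ℝ := P.O * Matrix.diagonal c * P.O.transpose

theorem M_eq : P.M = !![cq c P.e1 P.e1, cq c P.e1 P.e2, cq c P.e1 P.n;
    cq c P.e1 P.e2, cq c P.e2 P.e2, cq c P.e2 P.n;
    cq c P.e1 P.n, cq c P.e2 P.n, cq c P.n P.n] := by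
  ext i j
  fin_cases i <;> fin_cases j <;>
    simp [M, O, Matrix.mul_apply, Fin.sum_univ_three, Matrix.vecMul_diagonal, cq] <;> ring

theorem det_c : cq c P.e1 P.e1 * cq c P.e2 P.e2 * cq c P.n P.n
    + 2 * cq c P.e1 P.e2 * cq c P.e1 P.n * cq c P.e2 P.n
    - cq c P.e1 P.e1 * cq c P.e2 P.n ^ 2 - cq c P.e2 P.e2 * cq c P.e1 P.n ^ 2
    - cq c P.n P.n * cq c P.e1 P.e2 ^ 2 = c 0 * c 1 * c 2 := by
  have h1 : P.M.det = c 0 * c 1 * c 2 := by
    have h2 : P.O.det * P.O.transpose.det = 1 := by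
      rw [← Matrix.det_mul, P.O_mul, Matrix.det_one]
    rw [M, Matrix.det_mul, Matrix.det_mul, Matrix.det_diagonal, Fin.prod_univ_three]
    linear_combination (c 0 * c 1 * c 2) * h2
  rw [P.M_eq, Matrix.det_fin_three] at h1
  simp at h1
  linear_combination h1

theorem e2_c : cq c P.e1 P.e1 * cq c P.e2 P.e2 + cq c P.e1 P.e1 * cq c P.n P.n
    + cq c P.e2 P.e2 * cq c P.n P.n - cq c P.e1 P.e2 ^ 2 - cq c P.e1 P.n ^ 2
    - cq c P.e2 P.n ^ 2 = c 0 * c 1 + c 0 * c 2 + c 1 * c 2 := by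
  have h1 : (P.M * P.M).trace = c 0 ^ 2 + c 1 ^ 2 + c 2 ^ 2 := by
    have h2 : P.M * P.M = P.O * (Matrix.diagonal c * Matrix.diagonal c) * P.O.transpose := by
      rw [M]
      calc P.O * Matrix.diagonal c * P.O.transpose * (P.O * Matrix.diagonal c * P.O.transpose)
          = P.O * Matrix.diagonal c * (P.O.transpose * P.O) * (Matrix.diagonal c * P.O.transpose) := by
            simp only [Matrix.mul_assoc]
        _ = _ := by rw [P.O_mul', Matrix.mul_one]; simp only [Matrix.mul_assoc]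
    rw [h2, Matrix.trace_mul_comm, ← Matrix.mul_assoc, P.O_mul', Matrix.one_mul,
      Matrix.diagonal_mul_diagonal, Matrix.trace_diagonal, Fin.sum_univ_three]
    ring
  rw [P.M_eq] at h1
  simp [Matrix.trace, Matrix.mul_apply, Fin.sum_univ_three] at h1
  have h3 := P.tr_c
  nlinarith [h1, h3, congrArg (fun t => t ^ 2) h3]

end PtData

/-- The scalar curvature in terms of the structure constants. -/
theorem scal_eq (c : Fin 3 → ℝ) : scal c =
    2 * (c 0 * c 1 + c 0 * c 2 + c 1 * c 2) - (c 0 + c 1 + c 2) ^ 2 / 2 := by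
  simp [scal, ric, curv, conn, bracket, Fin.sum_univ_three, cross_apply, Pi.single_apply]
  ring

/-- Milnor's formula for the Ricci curvature. -/
theorem ric_eq (c N : Fin 3 → ℝ) : ric c N =
    2 * (((c 0 + c 1 + c 2) / 2 - c 1) * ((c 0 + c 1 + c 2) / 2 - c 2) * N 0 ^ 2
      + ((c 0 + c 1 + c 2) / 2 - c 0) * ((c 0 + c 1 + c 2) / 2 - c 2) * N 1 ^ 2
      + ((c 0 + c 1 + c 2) / 2 - c 0) * ((c 0 + c 1 + c 2) / 2 - c 1) * N 2 ^ 2) := by
  simp [ric, curv, conn, bracket, Fin.sum_univ_three, cross_apply, Pi.single_apply]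
  ring

end Pool.Agent.SU2H
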